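import Mathlib

open ContinuousLinearMap

namespace Pool.Agent.Lib0bd5b4

section general

variable {E F : Type*} [NormedAddCommGroup E] [NormedSpace ℂ E]
  [NormedAddCommGroup F] [NormedSpace ℂ F]

theorem isUnit_sub_comp_aux (U : E →L[ℂ] F) (V : F →L[ℂ] E) {z : ℂ} (hz : z ≠ 0)
    (h : IsUnit (z • (1 : E →L[ℂ] E) - V ∘L U)) :
    IsUnit (z • (1 : F →L[ℂ] F) - U ∘L V) := by
  obtain ⟨W, hW1, hW2⟩ := isUnit_iff_exists.mp h
  have h1 : ∀ x : E, z • W x - V (U (W x)) = x := fun x => by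
    simpa using congrArg (fun L : E →L[ℂ] E => L x) hW1
  have h2 : ∀ x : E, z • W x - W (V (U x)) = x := fun x => by
    simpa using congrArg (fun L : E →L[ℂ] E => L x) hW2
  refine isUnit_iff_exists.mpr ⟨z⁻¹ • ((1 : F →L[ℂ] F) + U ∘L W ∘L V), ?_, ?_⟩
  · ext y
    change z • (z⁻¹ • (y + U (W (V y)))) - U (V (z⁻¹ • (y + U (W (V y))))) = y
    have e := congrArg U (h1 (V y))
    simp only [map_sub, map_smul] at e
    rw [smul_smul, mul_inv_cancel₀ hz, one_smul, map_smul, map_smul, map_add, map_add]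
    have e' : U (V (U (W (V y)))) = z • U (W (V y)) - U (V y) := by
      rw [← e, sub_sub_cancel]
    rw [e', add_sub_cancel, smul_smul, inv_mul_cancel₀ hz, one_smul, add_sub_cancel_right]
  · ext y
    change z⁻¹ • ((z • y - U (V y)) + U (W (V (z • y - U (V y))))) = y
    have e := congrArg U (h2 (V y))
    simp only [map_sub, map_smul] at e
    rw [map_sub, map_sub, map_sub, map_smul, map_smul, map_smul, e, sub_add_cancel, smul_smul,
      inv_mul_cancel₀ hz, one_smul]

theorem isUnit_sub_comp_iff (U : E →L[ℂ] F) (V : F →L[ℂ] E) {z : ℂ} (hz : z ≠ 0) :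
    IsUnit (z • (1 : F →L[ℂ] F) - U ∘L V) ↔ IsUnit (z • (1 : E →L[ℂ] E) - V ∘L U) :=
  ⟨isUnit_sub_comp_aux V U hz, isUnit_sub_comp_aux U V hz⟩

end general

section finiteRank

variable {X : Type*} [NormedAddCommGroup X] [NormedSpace ℂ X]

/-- The rank-one operator `z ↦ f z • x`. -/
noncomputable abbrev rk (x : X) (f : StrongDual ℂ X) : X →L[ℂ] X := f.smulRight x

theorem rk_apply (x : X) (f : StrongDual ℂ X) (z : X) : rk x f z = f z • x := rfl

theorem isUnit_clm_iff_det {n : ℕ} (M : Matrix (Fin n) (Fin n) ℂ)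
    (L : (Fin n → ℂ) →L[ℂ] (Fin n → ℂ)) (hL : ∀ v, L v = M.mulVec v) :
    IsUnit L ↔ M.det ≠ 0 := by
  have h1 : L = Module.End.toContinuousLinearMap (Fin n → ℂ) (Matrix.toLinAlgEquiv' M) := by
    ext v
    rw [hL]
    rfl
  rw [h1]
  rw [MulEquiv.isUnit_map, MulEquiv.isUnit_map, Matrix.isUnit_iff_isUnit_det, isUnit_iff_ne_zero]

/-- Nonzero spectral values of a finite rank operator `∑ aₖ ⊗ bₖ`. -/
theorem mem_spectrum_sum_rk {n : ℕ} (a : Fin n → X) (b : Fin n → StrongDual ℂ X) {z : ℂ}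
    (hz : z ≠ 0) :
    z ∈ spectrum ℂ (∑ k, rk (a k) (b k)) ↔
      (z • (1 : Matrix (Fin n) (Fin n) ℂ) - Matrix.of (fun i j => b i (a j))).det = 0 := by
  set V : X →L[ℂ] (Fin n → ℂ) := ContinuousLinearMap.pi b with hV
  set U : (Fin n → ℂ) →L[ℂ] X :=
    ∑ k, (ContinuousLinearMap.proj (R := ℂ) (φ := fun _ : Fin n => ℂ) k).smulRight (a k) with hU
  have hUV : (∑ k, rk (a k) (b k)) = U ∘L V := by
    ext x
    simp [hU, hV]
  have hVU : ∀ v, (z • (1 : (Fin n → ℂ) →L[ℂ] (Fin n → ℂ)) - V ∘L U) v =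
      (z • (1 : Matrix (Fin n) (Fin n) ℂ) - Matrix.of (fun i j => b i (a j))).mulVec v := by
    intro v
    ext i
    rw [Matrix.sub_mulVec, Matrix.smul_mulVec, Matrix.one_mulVec]
    simp [hU, hV, Matrix.mulVec, dotProduct, mul_comm]
  rw [spectrum.mem_iff, Algebra.algebraMap_eq_smul_one, hUV, isUnit_sub_comp_iff U V hz,
    isUnit_clm_iff_det _ _ hVU, not_not]

end finiteRank

section rankOneComm

variable {X : Type*} [NormedAddCommGroup X] [NormedSpace ℂ X]

/-- The quadratic quantity governing the spectrum of `[T, x ⊗ f]`. -/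
noncomputable def qf (T : X →L[ℂ] X) (x : X) (f : StrongDual ℂ X) : ℂ :=
  (f (T x)) ^ 2 - f x * f (T (T x))

theorem mem_spectrum_comm_rk (T : X →L[ℂ] X) (x : X) (f : StrongDual ℂ X) {z : ℂ} (hz : z ≠ 0) :
    z ∈ spectrum ℂ (T * rk x f - rk x f * T) ↔ z ^ 2 = qf T x f := by
  have h1 : T * rk x f - rk x f * T = ∑ k : Fin 2, rk (![T x, -x] k) (![f, f.comp T] k) := by
    ext y
    simp [Fin.sum_univ_two, rk, sub_eq_add_neg]
  rw [h1, mem_spectrum_sum_rk _ _ hz, Matrix.det_fin_two]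
  simp [qf]
  constructor
  · intro h
    linear_combination h
  · intro h
    linear_combination h

theorem mem_spectrum_comm_smul_add_rk (T : X →L[ℂ] X) (c : ℂ) (x : X) (f : StrongDual ℂ X)
    {z : ℂ} (hz : z ≠ 0) :
    z ∈ spectrum ℂ (T * (c • 1 + rk x f) - (c • 1 + rk x f) * T) ↔ z ^ 2 = qf T x f := by
  rw [← mem_spectrum_comm_rk T x f hz]
  have : T * (c • 1 + rk x f) - (c • 1 + rk x f) * T = T * rk x f - rk x f * T := by
    simp [mul_add, add_mul]
  rw [this]

theorem qf_of_apply_eq_zero (T : X →L[ℂ] X) (x : X) (f : StrongDual ℂ X) (h : f x = 0) :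
    qf T x f = (f (T x)) ^ 2 := by
  simp [qf, h]

end rankOneComm

section linePoly

variable {E : Type*} [AddCommGroup E] [Module ℂ E]

/-- A function that is polynomial along every line. -/
def LinePoly (p : E → ℂ) : Prop :=
  ∀ a b : E, ∃ P : Polynomial ℂ, ∀ z : ℂ, p (a + z • b) = P.eval z

theorem LinePoly.const (c : ℂ) : LinePoly (fun _ : E => c) :=
  fun _ _ => ⟨Polynomial.C c, fun z => by simp⟩

theorem LinePoly.linear (f : E →ₗ[ℂ] ℂ) : LinePoly (fun v => f v) :=
  fun a b => ⟨Polynomial.C (f a) + Polynomial.X * Polynomial.C (f b), fun z => by simp; ring⟩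

theorem LinePoly.add {p q : E → ℂ} (hp : LinePoly p) (hq : LinePoly q) :
    LinePoly (fun v => p v + q v) := fun a b => by
  obtain ⟨P, hP⟩ := hp a b
  obtain ⟨Q, hQ⟩ := hq a b
  exact ⟨P + Q, fun z => by simp [hP, hQ]⟩

theorem LinePoly.sub {p q : E → ℂ} (hp : LinePoly p) (hq : LinePoly q) :
    LinePoly (fun v => p v - q v) := fun a b => by
  obtain ⟨P, hP⟩ := hp a b
  obtain ⟨Q, hQ⟩ := hq a b
  exact ⟨P - Q, fun z => by simp [hP, hQ]⟩

theorem LinePoly.mul {p q : E → ℂ} (hp : LinePoly p) (hq : LinePoly q) :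
    LinePoly (fun v => p v * q v) := fun a b => by
  obtain ⟨P, hP⟩ := hp a b
  obtain ⟨Q, hQ⟩ := hq a b
  exact ⟨P * Q, fun z => by simp [hP, hQ]⟩

theorem LinePoly.exists_ne_zero {p q : E → ℂ} (hp : LinePoly p) (hq : LinePoly q)
    (hp0 : ∃ a, p a ≠ 0) (hq0 : ∃ b, q b ≠ 0) : ∃ v, p v ≠ 0 ∧ q v ≠ 0 := by
  obtain ⟨a, ha⟩ := hp0
  obtain ⟨b, hb⟩ := hq0
  obtain ⟨P, hP⟩ := hp a (b - a)
  obtain ⟨Q, hQ⟩ := hq a (b - a)
  have hP0 : P ≠ 0 := by
    rintro rfl
    have := hP 0
    simp at this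
    exact ha this
  have hQ0 : Q ≠ 0 := by
    rintro rfl
    have := hQ 1
    simp at this
    exact hb this
  by_contra hcon
  have : P * Q = 0 := by
    apply Polynomial.funext
    intro z
    rw [Polynomial.eval_mul, ← hP, ← hQ, Polynomial.eval_zero]
    by_contra h
    exact hcon ⟨_, left_ne_zero_of_mul h, right_ne_zero_of_mul h⟩
  rcases mul_eq_zero.mp this with h | h
  · exact hP0 h
  · exact hQ0 h

theorem LinePoly.exists_forall_ne_zero {ι : Type*} (s : Finset ι) (p : ι → E → ℂ)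
    (hp : ∀ i ∈ s, LinePoly (p i)) (hp0 : ∀ i ∈ s, ∃ a, p i a ≠ 0) :
    ∃ v, ∀ i ∈ s, p i v ≠ 0 := by
  classical
  suffices h : LinePoly (fun v => ∏ i ∈ s, p i v) ∧ ∃ v, ∏ i ∈ s, p i v ≠ 0 by
    obtain ⟨-, v, hv⟩ := h
    exact ⟨v, fun i hi => Finset.prod_ne_zero_iff.mp hv i hi⟩
  induction s using Finset.induction_on with
  | empty => exact ⟨by simpa using LinePoly.const (E := E) 1, 0, by simp⟩
  | insert i s his ih =>
    obtain ⟨h1, h2⟩ := ih (fun j hj => hp j (Finset.mem_insert_of_mem hj))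
      (fun j hj => hp0 j (Finset.mem_insert_of_mem hj))
    have h3 := hp i (Finset.mem_insert_self i s)
    have h4 := hp0 i (Finset.mem_insert_self i s)
    refine ⟨?_, ?_⟩
    · simp_rw [Finset.prod_insert his]
      exact h3.mul h1
    · obtain ⟨v, hv1, hv2⟩ := LinePoly.exists_ne_zero h3 h1 h4 h2
      exact ⟨v, by rw [Finset.prod_insert his]; exact mul_ne_zero hv1 hv2⟩

end linePoly

section separation

variable {X : Type*} [NormedAddCommGroup X] [NormedSpace ℂ X]

theorem exists_sep (S : Submodule ℂ X) [FiniteDimensional ℂ S] {c : X} (hc : c ∉ S) :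
    ∃ f : StrongDual ℂ X, (∀ s ∈ S, f s = 0) ∧ f c = 1 := by
  have : IsClosed (S : Set X) := S.closed_of_finiteDimensional
  have hne : (Submodule.Quotient.mk c : X ⧸ S) ≠ 0 := by
    simpa [Submodule.Quotient.mk_eq_zero] using hc
  obtain ⟨g, hg⟩ := SeparatingDual.exists_eq_one (R := ℂ) hne
  refine ⟨g.comp S.mkQL, fun s hs => ?_, ?_⟩
  · have : S.mkQL s = 0 := by
      simpa [Submodule.Quotient.mk_eq_zero] using hs
    simp [this]
  · simpa using hg

theorem exists_functional {n : ℕ} (v : Fin n → X) (hv : LinearIndependent ℂ v) (c : Fin n → ℂ) :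
    ∃ f : StrongDual ℂ X, ∀ i, f (v i) = c i := by
  have hinj : Function.Injective (Fintype.linearCombination ℂ v) :=
    LinearMap.ker_eq_bot.mp (by
      rw [LinearMap.ker_eq_bot']
      intro m hm
      rw [Fintype.linearCombination_apply] at hm
      exact funext (Fintype.linearIndependent_iff.mp hv m hm))
  have := (SeparatingDual.dualMap_surjective_iff (R := ℂ) (V := X)
    (f := Fintype.linearCombination ℂ v)).mpr hinj
  obtain ⟨f, hf⟩ := this (Fintype.linearCombination ℂ c)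
  refine ⟨f, fun i => ?_⟩
  classical
  have := congrArg (fun L => L (Pi.single i 1)) hf
  simpa [Fintype.linearCombination_apply, Pi.single_apply] using this

/-- If `D y` is never outside `ℂ y` then `D` is scalar. -/
theorem exists_eq_smul_one (D : X →L[ℂ] X) (h : ∀ y, ∃ c : ℂ, D y = c • y) :
    ∃ c : ℂ, D = c • 1 := by
  obtain ⟨a, ha⟩ := LinearMap.exists_eq_smul_id_of_forall_notLinearIndependent
    (f := (D : X →ₗ[ℂ] X)) (fun v => by
      obtain ⟨c, hc⟩ := h v
      intro hli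
      rw [LinearIndependent.pair_iff] at hli
      have := hli c (-1) (by simp [hc])
      exact one_ne_zero (neg_eq_zero.mp this.2))
  refine ⟨a, ?_⟩
  ext y
  have := congrArg (fun L : X →ₗ[ℂ] X => L y) ha
  simpa using this

/-- Main separation lemma: if for all `y, g` with `g y = 0` the product of the
`g (D i y)` vanishes, then some `D i` is scalar. -/
theorem exists_scalar_of_prod_eq_zero {n : ℕ} (D : Fin n → X →L[ℂ] X)
    (h : ∀ (y : X) (g : StrongDual ℂ X), g y = 0 → ∏ i, g (D i y) = 0) :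
    ∃ i, ∃ c : ℂ, D i = c • 1 := by
  by_contra hcon
  push Not at hcon
  -- each `D i` moves some vector off its line
  have h1 : ∀ i, ∃ y : X, ∀ c : ℂ, D i y ≠ c • y := by
    intro i
    by_contra hi
    push Not at hi
    obtain ⟨c, hc⟩ := exists_eq_smul_one (D i) hi
    exact hcon i c hc
  -- functionals detecting this
  have h2 : ∀ i, ∃ (y : X) (p r : StrongDual ℂ X), p y * r (D i y) - p (D i y) * r y ≠ 0 := by
    intro i
    obtain ⟨y, hy⟩ := h1 i
    have hy0 : y ≠ 0 := by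
      rintro rfl
      exact hy 0 (by simp)
    have hli : LinearIndependent ℂ ![y, D i y] := by
      rw [LinearIndependent.pair_iff' hy0]
      intro c hc
      exact hy c hc.symm
    obtain ⟨p, hp⟩ := exists_functional _ hli ![1, 0]
    obtain ⟨r, hr⟩ := exists_functional _ hli ![0, 1]
    have p0 := hp 0
    have p1 := hp 1
    have r0 := hr 0
    have r1 := hr 1
    simp at p0 p1 r0 r1
    exact ⟨y, p, r, by rw [p0, p1, r0, r1]; norm_num⟩
  choose y0 p r hpr using h2
  obtain ⟨y, hy⟩ := LinePoly.exists_forall_ne_zero (E := X) Finset.univ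
    (fun i y => p i y * r i (D i y) - p i (D i y) * r i y)
    (fun i _ => by
      have e1 := LinePoly.linear ((p i : StrongDual ℂ X) : X →ₗ[ℂ] ℂ)
      have e2 := LinePoly.linear (((r i).comp (D i) : StrongDual ℂ X) : X →ₗ[ℂ] ℂ)
      have e3 := LinePoly.linear (((p i).comp (D i) : StrongDual ℂ X) : X →ₗ[ℂ] ℂ)
      have e4 := LinePoly.linear ((r i : StrongDual ℂ X) : X →ₗ[ℂ] ℂ)
      exact (e1.mul e2).sub (e3.mul e4))
    (fun i _ => ⟨y0 i, hpr i⟩)
  have hy' : ∀ i, ∀ c : ℂ, D i y ≠ c • y := by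
    intro i c hc
    apply hy i (Finset.mem_univ i)
    rw [hc]
    simp
    ring
  have hy0 : ∀ i : Fin n, y ≠ 0 := by
    rintro i rfl
    exact hy' i 0 (by simp)
  -- now find `g`
  let K : Submodule ℂ (StrongDual ℂ X) :=
    LinearMap.ker (((ContinuousLinearMap.apply ℂ ℂ) y : StrongDual ℂ X →L[ℂ] ℂ) :
      StrongDual ℂ X →ₗ[ℂ] ℂ)
  obtain ⟨g, hg⟩ := LinePoly.exists_forall_ne_zero (E := K) Finset.univ
    (fun i g => (g : StrongDual ℂ X) (D i y))
    (fun i _ => by
      have e := LinePoly.linear (E := K)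
        ((((ContinuousLinearMap.apply ℂ ℂ) (D i y) : StrongDual ℂ X →L[ℂ] ℂ) :
          StrongDual ℂ X →ₗ[ℂ] ℂ).comp K.subtype)
      simpa using e)
    (fun i _ => by
      have hli : LinearIndependent ℂ ![y, D i y] := by
        rw [LinearIndependent.pair_iff' (hy0 i)]
        intro c hc
        exact hy' i c hc.symm
      obtain ⟨p, hp⟩ := exists_functional _ hli ![0, 1]
      have p0 := hp 0
      have p1 := hp 1
      simp at p0 p1
      exact ⟨⟨p, by simpa [K] using p0⟩, by simp [p1]⟩)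
  have hgy : (g : StrongDual ℂ X) y = 0 := g.2
  have := h y g hgy
  exact (Finset.prod_ne_zero_iff.mpr (fun i hi => hg i hi)) this

end separation

end Pool.Agent.Lib0bd5b4
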