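import Pool.Agent.Lib_0bd5b4.RankOne

open ContinuousLinearMap Filter Topology

namespace Pool.Agent.Lib0bd5b4

variable {X : Type*} [NormedAddCommGroup X] [NormedSpace ℂ X]

/-- Some vector has degree at least three. -/
def NQ (T : X →L[ℂ] X) : Prop := ∃ x, LI3 x (T x) (T (T x))

/-- `T` satisfies a monic quadratic equation. -/
def IsQuad (T : X →L[ℂ] X) : Prop := ∃ p q : ℂ, T * T = p • T + q • 1

theorem mem_of_not_li3 {V : Type*} [AddCommGroup V] [Module ℂ V] {u v w : V} (h : LI2 u v)
    (h3 : ¬ LI3 u v w) : ∃ a b : ℂ, w = a • u + b • v := by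
  by_contra hcon
  apply h3
  apply li3_of_not_mem h
  intro hmem
  obtain ⟨a, b, hab⟩ := Submodule.mem_span_pair.mp hmem
  exact hcon ⟨a, b, hab.symm⟩

theorem det3_zero {a b c d e f g h i x y z : ℂ} (e1 : a * x + b * y + c * z = 0)
    (e2 : d * x + e * y + f * z = 0) (e3 : g * x + h * y + i * z = 0)
    (hne : ¬ (x = 0 ∧ y = 0 ∧ z = 0)) :
    a * (e * i - f * h) - b * (d * i - f * g) + c * (d * h - e * g) = 0 := by
  by_contra hD
  apply hne
  refine ⟨?_, ?_, ?_⟩
  · apply mul_left_cancel₀ hD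
    linear_combination (e * i - f * h) * e1 + (c * h - b * i) * e2 + (b * f - c * e) * e3
  · apply mul_left_cancel₀ hD
    linear_combination (f * g - d * i) * e1 + (a * i - c * g) * e2 + (c * d - a * f) * e3
  · apply mul_left_cancel₀ hD
    linear_combination (d * h - e * g) * e1 + (b * g - a * h) * e2 + (a * e - b * d) * e3

theorem not_NQ_quad {T : X →L[ℂ] X} (h : ¬ NQ T) : IsQuad T := by
  by_cases hsc : ∀ y, ∃ c : ℂ, T y = c • y
  · obtain ⟨c, rfl⟩ := exists_eq_smul_one T hsc
    exact ⟨c, 0, by ext v; simp⟩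
  push Not at hsc
  obtain ⟨x, hx⟩ := hsc
  have hx0 : x ≠ 0 := by
    rintro rfl
    exact hx 0 (by simp)
  have hli : LI2 x (T x) := li2_of_forall_ne hx0 hx
  have hnot : ∀ w, ¬ LI3 w (T w) (T (T w)) := fun w hw => h ⟨w, hw⟩
  obtain ⟨q, p, hpq⟩ := mem_of_not_li3 hli (hnot x)
  refine ⟨p, q, ?_⟩
  ext y
  rw [mul_apply_eq_comp, add_apply, smul_apply, smul_apply, one_apply_eq_self]
  by_cases hy : ∃ a b : ℂ, y = a • x + b • T x
  · obtain ⟨a, b, rfl⟩ := hy
    simp only [map_add, map_smul, hpq]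
    module
  have hli3 : LI3 x (T x) y := by
    by_contra hcon
    exact hy (mem_of_not_li3 hli hcon)
  by_cases hTy : ∃ a b c : ℂ, T y = a • x + b • T x + c • y
  · obtain ⟨a, b, c, hTy⟩ := hTy
    have hTT : T (T y) = p • T y + q • y +
        (((c - p) * a + b * q) • x + (c * b + a) • T x + (c ^ 2 - p * c - q) • y) := by
      have e : T (T y) = a • T x + b • T (T x) + c • T y := by
        conv_lhs => rw [hTy]
        simp only [map_add, map_smul]
      rw [e, hpq]
      linear_combination (norm := module) (c - p) • hTy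
    have hg : ∀ z : ℂ, z ≠ 0 → 1 * ((1 + z * b) * (c ^ 2 - p * c - q) - (c * b + a) * (z * c)) -
        (z * a) * (0 * (c ^ 2 - p * c - q) - (c * b + a) * z) +
        ((c - p) * a + b * q) * (0 * (z * c) - (1 + z * b) * z) = 0 := by
      intro z hz
      have hw := hnot (x + z • y)
      unfold LI3 at hw
      push Not at hw
      obtain ⟨α, β, γ, h1, h2⟩ := hw
      simp only [map_add, map_smul, hpq, hTT] at h1
      have h3 := hli3 (1 * (α + γ * q) + (z * a) * (β + γ * p) + ((c - p) * a + b * q) * (γ * z))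
        (0 * (α + γ * q) + (1 + z * b) * (β + γ * p) + (c * b + a) * (γ * z))
        (z * (α + γ * q) + (z * c) * (β + γ * p) + (c ^ 2 - p * c - q) * (γ * z))
        (by
          linear_combination (norm := module) h1 - (z * (β + γ * p)) • hTy)
      refine det3_zero h3.1 h3.2.1 h3.2.2 ?_
      rintro ⟨e1, e2, e3⟩
      have hγ : γ = 0 := (mul_eq_zero.mp e3).resolve_right hz
      subst hγ
      have hα : α = 0 := by simpa using e1
      have hβ : β = 0 := by simpa using e2
      exact h2 hα hβ rfl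
    have g1 := hg 1 one_ne_zero
    have g2 := hg (-1) (by norm_num)
    have g3 := hg 2 (by norm_num)
    have hP3 : c ^ 2 - p * c - q = 0 := by
      linear_combination g1 + (1 / 3 : ℂ) * g2 - (1 / 3 : ℂ) * g3
    have hP1 : ((c - p) * a + b * q) = - c * (c * b + a) := by
      linear_combination (-1 / 2 : ℂ) * g1 + (1 / 2 : ℂ) * g2 + b * hP3
    have hP2 : (c * b + a) ^ 2 = 0 := by
      linear_combination (1 / 2 : ℂ) * g1 + (1 / 2 : ℂ) * g2 - hP3 + b * hP1
    have hP2' : c * b + a = 0 := by simpa using hP2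
    rw [hTT, hP1, hP3, hP2']
    module
  · have hli4 : ∀ α β γ δ : ℂ, α • x + β • T x + γ • y + δ • T y = 0 →
        α = 0 ∧ β = 0 ∧ γ = 0 ∧ δ = 0 := by
      intro α β γ δ h0
      have hδ : δ = 0 := by
        by_contra hδ
        apply hTy
        refine ⟨-(δ⁻¹ * α), -(δ⁻¹ * β), -(δ⁻¹ * γ), ?_⟩
        have : T y = δ⁻¹ • (δ • T y) := by rw [smul_smul, inv_mul_cancel₀ hδ, one_smul]
        rw [this]
        linear_combination (norm := module) δ⁻¹ • h0
      subst hδ
      rw [zero_smul, add_zero] at h0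
      obtain ⟨h1, h2, h3⟩ := hli3 _ _ _ h0
      exact ⟨h1, h2, h3, rfl⟩
    have hliy : LI2 y (T y) := by
      intro α β h0
      obtain ⟨-, -, h3, h4⟩ := hli4 0 0 α β (by linear_combination (norm := module) h0)
      exact ⟨h3, h4⟩
    obtain ⟨q', p', hpq'⟩ := mem_of_not_li3 hliy (hnot y)
    have hw := hnot (x + y)
    unfold LI3 at hw
    push Not at hw
    obtain ⟨α, β, γ, h1, h2⟩ := hw
    simp only [map_add, hpq, hpq'] at h1
    obtain ⟨k1, k2, k3, k4⟩ := hli4 (α + γ * q) (β + γ * p) (α + γ * q') (β + γ * p')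
      (by linear_combination (norm := module) h1)
    have hγ : γ ≠ 0 := by
      rintro rfl
      exact h2 (by simpa using k1) (by simpa using k2) rfl
    have e1 : q' = q := by
      apply mul_left_cancel₀ hγ
      linear_combination k3 - k1
    have e2 : p' = p := by
      apply mul_left_cancel₀ hγ
      linear_combination k4 - k2
    rw [hpq', e1, e2]
    abel

end Pool.Agent.Lib0bd5b4
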