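import Pool.Agent.Lib_0bd5b4.Basic

open ContinuousLinearMap Filter Topology

namespace Pool.Agent.Lib0bd5b4

section algebra

variable {R : Type*} [Ring R] [Algebra ℂ R]

/-- if an invertible element anticommutes with `C` then the spectrum is symmetric -/
theorem symm_of_anti {N C : R} (hN : IsUnit N) (h : N * C = -(C * N)) {z : ℂ}
    (hz : z ∈ spectrum ℂ C) : -z ∈ spectrum ℂ C := by
  rw [spectrum.mem_iff, Algebra.algebraMap_eq_smul_one] at hz ⊢
  intro hu
  apply hz
  have e : N * (-z • 1 - C) = -((z • 1 - C) * N) := by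
    rw [mul_sub, sub_mul, h, mul_smul_comm, smul_mul_assoc, mul_one, one_mul]
    module
  have h2 : IsUnit ((z • 1 - C) * N) := by
    rw [← IsUnit.neg_iff, ← e]
    exact hN.mul hu
  exact (hN.unit.isUnit_mul_units _).mp (by simpa using h2)

/-- the square-zero case -/
theorem symm_of_sq_zero {N M : R} (hN : N * N = 0) (hM : M * M = 0) {z : ℂ}
    (hz : z ∈ spectrum ℂ (N * M - M * N)) : -z ∈ spectrum ℂ (N * M - M * N) := by
  by_cases hz0 : z = 0
  · subst hz0
    simpa using hz
  rw [spectrum.mem_iff, Algebra.algebraMap_eq_smul_one] at hz ⊢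
  intro hu
  apply hz
  obtain ⟨W, hW1, hW2⟩ := isUnit_iff_exists.mp hu
  -- `W` inverts `-z - C`
  obtain ⟨C, hC⟩ : ∃ C, C = N * M - M * N := ⟨_, rfl⟩
  rw [← hC] at hu hW1 hW2 ⊢
  set D := N + M with hD
  have hDC : D * C = -(C * D) := by
    rw [hD, hC]
    have e1 : (N + M) * (N * M - M * N) =
      N * N * M - N * M * N + (M * N * M - M * M * N) := by noncomm_ring
    have e2 : (N * M - M * N) * (N + M) =
      N * M * N + N * (M * M) - M * (N * N) - M * N * M := by noncomm_ring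
    rw [e1, e2, hN, hM]
    noncomm_ring
  have hDD : (D * D) * (D * D) = C * C := by
    rw [hD, hC]
    have e1 : (N + M) * (N + M) = N * N + N * M + M * N + M * M := by noncomm_ring
    rw [e1, hN, hM]
    have e2 : (N * M - M * N) * (N * M - M * N) =
      N * M * N * M - N * (M * M) * N - M * (N * N) * M + M * N * M * N := by noncomm_ring
    have e3 : (0 + N * M + M * N + 0) * (0 + N * M + M * N + 0) =
      N * M * N * M + N * (M * M) * N + M * (N * N) * M + M * N * M * N := by noncomm_ring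
    rw [e2, e3, hN, hM]
    noncomm_ring
  have hCK : C * (D * D) = (D * D) * C := by
    rw [mul_assoc D D C, hDC, mul_neg, ← mul_assoc D C D, hDC, neg_mul, neg_neg, mul_assoc]
  -- `G = -z - C`, `H = z - C`
  have hG1 : (-z • 1 - C) * W = 1 := hW1
  have hG2 : W * (-z • 1 - C) = 1 := hW2
  have a1 : D * (-z • 1 - C) = -((z • 1 - C) * D) := by
    rw [mul_sub, sub_mul, hDC, mul_smul_comm, smul_mul_assoc, mul_one, one_mul]
    module
  have a2 : (-z • 1 - C) * D = -(D * (z • 1 - C)) := by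
    rw [mul_sub, sub_mul, hDC, mul_smul_comm, smul_mul_assoc, mul_one, one_mul]
    module
  -- `(z - C) * (D W D) = - D D`
  have b1 : (z • 1 - C) * (D * W * D) = -(D * D) := by
    have : (z • 1 - C) * (D * W * D) = ((z • 1 - C) * D) * W * D := by noncomm_ring
    rw [this]
    have e : (z • 1 - C) * D = -(D * (-z • 1 - C)) := by rw [a1, neg_neg]
    rw [e, neg_mul, mul_assoc D, hG1, mul_one, neg_mul]
  have b2 : (D * W * D) * (z • 1 - C) = -(D * D) := by
    have e : D * (z • 1 - C) = -((-z • 1 - C) * D) := by rw [a2, neg_neg]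
    rw [mul_assoc (D * W), e, mul_neg, mul_assoc D W, ← mul_assoc W, hG2, one_mul]
  have hz2 : (z ^ 2) ≠ 0 := pow_ne_zero _ hz0
  have hcc : (z • 1 - C) * (z • 1 + C) = z ^ 2 • 1 - C * C := by
    simp only [sub_mul, mul_add, smul_mul_assoc, mul_smul_comm, one_mul, mul_one]
    module
  have hcc' : (z • 1 + C) * (z • 1 - C) = z ^ 2 • 1 - C * C := by
    simp only [add_mul, mul_sub, smul_mul_assoc, mul_smul_comm, one_mul, mul_one]
    module
  have hKH : (D * D) * (z • 1 - C) = (z • 1 - C) * (D * D) := by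
    rw [mul_sub, sub_mul, hCK, mul_smul_comm, smul_mul_assoc, mul_one, one_mul]
  refine isUnit_iff_exists.mpr ⟨(z ^ 2)⁻¹ • ((z • 1 + C) - (D * W * D) * (D * D)), ?_, ?_⟩
  · rw [mul_smul_comm, mul_sub, hcc, ← mul_assoc, b1, neg_mul, hDD]
    rw [show z ^ 2 • (1 : R) - C * C - -(C * C) = z ^ 2 • 1 by abel, smul_smul,
      inv_mul_cancel₀ hz2, one_smul]
  · rw [smul_mul_assoc, sub_mul, hcc', mul_assoc (D * W * D), hKH, ← mul_assoc (D * W * D), b2,
      neg_mul, hDD]
    rw [show z ^ 2 • (1 : R) - C * C - -(C * C) = z ^ 2 • 1 by abel, smul_smul,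
      inv_mul_cancel₀ hz2, one_smul]

theorem quad_shift {T : R} {p q : ℂ} (h : T * T = p • T + q • 1) :
    (T - (p / 2) • 1) * (T - (p / 2) • 1) = (p ^ 2 / 4 + q) • 1 := by
  rw [sub_mul, mul_sub, h, smul_mul_assoc, mul_smul_comm, mul_one, one_mul]
  module

theorem comm_shift (T S : R) (a b : ℂ) :
    (T - a • 1) * (S - b • 1) - (S - b • 1) * (T - a • 1) = T * S - S * T := by
  simp only [sub_mul, mul_sub, smul_mul_assoc, mul_smul_comm, mul_one, one_mul]
  module

theorem isUnit_of_sq {N : R} {δ : ℂ} (hδ : δ ≠ 0) (h : N * N = δ • 1) : IsUnit N :=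
  isUnit_iff_exists.mpr ⟨δ⁻¹ • N, by rw [mul_smul_comm, h, smul_smul, inv_mul_cancel₀ hδ, one_smul],
    by rw [smul_mul_assoc, h, smul_smul, inv_mul_cancel₀ hδ, one_smul]⟩

theorem symm_of_sq_ne {N M : R} {δ : ℂ} (hδ : δ ≠ 0) (hN : N * N = δ • 1) {z : ℂ}
    (hz : z ∈ spectrum ℂ (N * M - M * N)) : -z ∈ spectrum ℂ (N * M - M * N) := by
  apply symm_of_anti (isUnit_of_sq hδ hN) _ hz
  have e1 : N * (N * M - M * N) = (N * N) * M - N * M * N := by noncomm_ring
  have e2 : (N * M - M * N) * N = N * M * N - M * (N * N) := by noncomm_ring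
  rw [e1, e2, hN, smul_mul_assoc, mul_smul_comm, one_mul, mul_one]
  abel

/-- The commutator of two quadratic elements has symmetric spectrum. -/
theorem symm_of_quad {T S : R} {p q p' q' : ℂ} (hT : T * T = p • T + q • 1)
    (hS : S * S = p' • S + q' • 1) {z : ℂ} (hz : z ∈ spectrum ℂ (T * S - S * T)) :
    -z ∈ spectrum ℂ (T * S - S * T) := by
  have h1 := quad_shift hT
  have h2 := quad_shift hS
  rw [← comm_shift T S (p / 2) (p' / 2)] at hz ⊢
  by_cases hδ : p ^ 2 / 4 + q = 0
  · by_cases hδ' : p' ^ 2 / 4 + q' = 0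
    · rw [hδ, zero_smul] at h1
      rw [hδ', zero_smul] at h2
      exact symm_of_sq_zero h1 h2 hz
    · have e : ∀ A B : R, A * B - B * A = -(B * A - A * B) := fun A B => by abel
      rw [e, ← spectrum.neg_eq, Set.mem_neg] at hz ⊢
      exact symm_of_sq_ne hδ' h2 hz
  · exact symm_of_sq_ne hδ h1 hz

end algebra

end Pool.Agent.Lib0bd5b4
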