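import Pool.Agent.Lib_0bd5b4.Forms

open ContinuousLinearMap Filter Topology

namespace Pool.Agent.Lib0bd5b4

section conj

variable {E : Type*} [NormedAddCommGroup E] [NormedSpace ℂ E]
  {Y : Type*} [NormedAddCommGroup Y] [NormedSpace ℂ Y]

theorem conj_mul (A : E ≃L[ℂ] Y) (T S : E →L[ℂ] E) : conj A (T * S) = conj A T * conj A S := by
  ext y
  simp [conj_apply]

theorem conj_sub (A : E ≃L[ℂ] Y) (T S : E →L[ℂ] E) : conj A (T - S) = conj A T - conj A S := by
  ext y
  simp [conj_apply]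

theorem conj_smul (A : E ≃L[ℂ] Y) (c : ℂ) (T : E →L[ℂ] E) : conj A (c • T) = c • conj A T := by
  ext y
  simp [conj_apply]

theorem conj_one (A : E ≃L[ℂ] Y) : conj A (1 : E →L[ℂ] E) = 1 := by
  ext y
  simp [conj_apply]

theorem conj_symm_conj (A : E ≃L[ℂ] Y) (T : E →L[ℂ] E) : conj A.symm (conj A T) = T := by
  ext y
  simp [conj_apply]

theorem isUnit_conj (A : E ≃L[ℂ] Y) {T : E →L[ℂ] E} (h : IsUnit T) : IsUnit (conj A T) := by
  obtain ⟨W, h1, h2⟩ := isUnit_iff_exists.mp h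
  exact isUnit_iff_exists.mpr ⟨conj A W, by rw [← conj_mul, h1, conj_one],
    by rw [← conj_mul, h2, conj_one]⟩

theorem isUnit_conj_iff (A : E ≃L[ℂ] Y) {T : E →L[ℂ] E} : IsUnit (conj A T) ↔ IsUnit T := by
  refine ⟨fun h => ?_, isUnit_conj A⟩
  have := isUnit_conj A.symm h
  rwa [conj_symm_conj] at this

theorem spectrum_conj (A : E ≃L[ℂ] Y) (T : E →L[ℂ] E) :
    spectrum ℂ (conj A T) = spectrum ℂ T := by
  ext z
  rw [spectrum.mem_iff, spectrum.mem_iff, Algebra.algebraMap_eq_smul_one,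
    Algebra.algebraMap_eq_smul_one, ← isUnit_conj_iff A, conj_sub, conj_smul, conj_one]

end conj

section adjoint

variable {X : Type*} [NormedAddCommGroup X] [NormedSpace ℂ X]

theorem adj_mul (T S : X →L[ℂ] X) : adj (T * S) = adj S * adj T := rfl

theorem adj_one : adj (1 : X →L[ℂ] X) = 1 := rfl

theorem adj_sub (T S : X →L[ℂ] X) : adj (T - S) = adj T - adj S := by
  ext f x
  simp [adj]

theorem adj_smul (c : ℂ) (T : X →L[ℂ] X) : adj (c • T) = c • adj T := by
  ext f x
  simp [adj]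

theorem exists_sep_closed (S : Submodule ℂ X) (hS : IsClosed (S : Set X)) {c : X} (hc : c ∉ S) :
    ∃ f : StrongDual ℂ X, (∀ s ∈ S, f s = 0) ∧ f c = 1 := by
  have : IsClosed (S : Set X) := hS
  have hne : (Submodule.Quotient.mk c : X ⧸ S) ≠ 0 := by
    simpa [Submodule.Quotient.mk_eq_zero] using hc
  obtain ⟨g, hg⟩ := SeparatingDual.exists_eq_one (R := ℂ) hne
  refine ⟨g.comp S.mkQL, fun s hs => ?_, ?_⟩
  · have : S.mkQL s = 0 := by
      simpa [Submodule.Quotient.mk_eq_zero] using hs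
    simp [this]
  · simpa using hg

theorem isUnit_adj_iff [CompleteSpace X] (T : X →L[ℂ] X) : IsUnit (adj T) ↔ IsUnit T := by
  constructor
  · intro h
    obtain ⟨W, h1, h2⟩ := isUnit_iff_exists.mp h
    have hW1 : ∀ f, adj T (W f) = f := fun f => congrArg (fun L => L f) h1
    have hW2 : ∀ f, W (adj T f) = f := fun f => congrArg (fun L => L f) h2
    -- bounded below
    have hbd : ∀ x, ‖x‖ ≤ ‖W‖ * ‖T x‖ := by
      intro x
      obtain ⟨f, hf1, hf2⟩ := exists_dual_vector'' ℂ x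
      have e1 : f x = (W f) (T x) := by
        conv_lhs => rw [← hW1 f]
        rfl
      have e2 : ‖x‖ = ‖f x‖ := by rw [hf2]; simp
      rw [e2, e1]
      calc ‖(W f) (T x)‖ ≤ ‖W f‖ * ‖T x‖ := (W f).le_opNorm _
        _ ≤ (‖W‖ * ‖f‖) * ‖T x‖ := by
            gcongr
            exact W.le_opNorm f
        _ ≤ (‖W‖ * 1) * ‖T x‖ := by gcongr
        _ = ‖W‖ * ‖T x‖ := by ring
    have hanti : AntilipschitzWith ‖W‖₊ T := by
      apply ContinuousLinearMap.antilipschitz_of_bound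
      intro x
      exact hbd x
    have hcl : IsClosed (Set.range T) := hanti.isClosed_range T.uniformContinuous
    have hsurj : Function.Surjective T := by
      intro v
      by_contra hv
      have hv' : v ∉ LinearMap.range (T : X →ₗ[ℂ] X) := by
        rintro ⟨w, hw⟩
        exact hv ⟨w, hw⟩
      obtain ⟨f, hf1, hf2⟩ := exists_sep_closed (LinearMap.range (T : X →ₗ[ℂ] X))
        (by
          have e : ((LinearMap.range (T : X →ₗ[ℂ] X) : Submodule ℂ X) : Set X) = Set.range T := by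
            ext w
            constructor
            · rintro ⟨u, hu⟩
              exact ⟨u, hu⟩
            · rintro ⟨u, hu⟩
              exact ⟨u, hu⟩
          rw [e]
          exact hcl) hv'
      have : adj T f = 0 := by
        ext x
        exact hf1 (T x) ⟨x, rfl⟩
      have h3 := hW2 f
      rw [this, map_zero] at h3
      rw [← h3] at hf2
      simp at hf2
    rw [ContinuousLinearMap.isUnit_iff_bijective]
    exact ⟨hanti.injective, hsurj⟩
  · intro h
    obtain ⟨W, h1, h2⟩ := isUnit_iff_exists.mp h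
    exact isUnit_iff_exists.mpr ⟨adj W, by rw [← adj_mul, h2, adj_one],
      by rw [← adj_mul, h1, adj_one]⟩

theorem spectrum_adj [CompleteSpace X] (T : X →L[ℂ] X) :
    spectrum ℂ (adj T) = spectrum ℂ T := by
  ext z
  rw [spectrum.mem_iff, spectrum.mem_iff, Algebra.algebraMap_eq_smul_one,
    Algebra.algebraMap_eq_smul_one, ← isUnit_adj_iff (z • 1 - T), adj_sub, adj_smul, adj_one]

end adjoint

section signs

variable {X : Type*} [NormedAddCommGroup X] [NormedSpace ℂ X]

/-- `T` is commutator-symmetric: the spectrum of every commutator `[T,S]` is symmetric. -/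
def CommSymm (T : X →L[ℂ] X) : Prop :=
  ∀ S : X →L[ℂ] X, ∀ z ∈ spectrum ℂ (T * S - S * T), -z ∈ spectrum ℂ (T * S - S * T)

theorem neg_mem_spectrum_neg {A : X →L[ℂ] X} {z : ℂ} :
    -z ∈ spectrum ℂ (-A) ↔ z ∈ spectrum ℂ A := by
  rw [← spectrum.neg_eq, Set.mem_neg, neg_neg]

/-- if the spectrum of `A` is symmetric then multiplying by a sign does not change it -/
theorem spectrum_sign_smul {A : X →L[ℂ] X} (h : ∀ z ∈ spectrum ℂ A, -z ∈ spectrum ℂ A)
    {s : ℂ} (hs : s * s = 1) : spectrum ℂ (s • A) = spectrum ℂ A := by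
  rcases sign_cases hs with rfl | rfl
  · rw [one_smul]
  · rw [neg_one_smul]
    ext z
    constructor
    · intro hz
      have := neg_mem_spectrum_neg.mp (by rwa [neg_neg] : -(-z) ∈ spectrum ℂ (-A))
      simpa using h _ this
    · intro hz
      have := neg_mem_spectrum_neg.mpr (h z hz)
      simpa using this

theorem CommSymm.swap {T S : X →L[ℂ] X} (h : CommSymm S) :
    ∀ z ∈ spectrum ℂ (T * S - S * T), -z ∈ spectrum ℂ (T * S - S * T) := by
  intro z hz
  rw [mem_spectrum_comm_swap] at hz ⊢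
  exact h T _ hz

/-- conclusion from a nonsymmetric commutator -/
theorem sign_eq_one_of_spectrum {A : X →L[ℂ] X} {s : ℂ} (hs : s * s = 1)
    (h : spectrum ℂ (s • A) = spectrum ℂ A) (hA : ∃ z ∈ spectrum ℂ A, -z ∉ spectrum ℂ A) :
    s = 1 := by
  rcases sign_cases hs with hs' | hs'
  · exact hs'
  · exfalso
    obtain ⟨z, hz1, hz2⟩ := hA
    apply hz2
    rw [hs', neg_one_smul] at h
    rw [← h]
    exact neg_mem_spectrum_neg.mpr hz1

/-- In dimension at least three there is a nonsymmetric commutator. -/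
theorem Dim3.exists_edge' (h : Dim3 X) : ∃ T S : X →L[ℂ] X,
    (1 : ℂ) ∈ spectrum ℂ (T * S - S * T) ∧ (-1 : ℂ) ∉ spectrum ℂ (T * S - S * T) ∧
      (-2 : ℂ) ∈ spectrum ℂ (T * S - S * T) := by
  obtain ⟨e0, e1, e2, hli⟩ := h.exists_li3
  obtain ⟨h0, hh0⟩ := exists_functional _ hli.linearIndependent ![1, 0, 0]
  obtain ⟨h1, hh1⟩ := exists_functional _ hli.linearIndependent ![0, 1, 0]
  obtain ⟨h2, hh2⟩ := exists_functional _ hli.linearIndependent ![0, 0, 1]
  have a0 := hh0 0
  have a1 := hh0 1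
  have a2 := hh0 2
  have b0 := hh1 0
  have b1 := hh1 1
  have b2 := hh1 2
  have c0 := hh2 0
  have c1 := hh2 1
  have c2 := hh2 2
  simp at a0 a1 a2 b0 b1 b2 c0 c1 c2
  set T : X →L[ℂ] X := rk e1 h0 + rk e2 h1 with hT
  set S : X →L[ℂ] X := (-1 : ℂ) • rk e0 h1 + (-2 : ℂ) • rk e1 h2 with hS
  have hC : T * S - S * T =
      ∑ k : Fin 3, rk (![e0, e1, (-2 : ℂ) • e2] k) (![h0, h1, h2] k) := by
    ext v
    simp [hT, hS, Fin.sum_univ_three, a0, a1, b0, b1, b2, c1, c2]
    module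
  refine ⟨T, S, ?_, ?_, ?_⟩
  · rw [hC, mem_spectrum_sum_rk _ _ one_ne_zero, Matrix.det_fin_three]
    simp [a0, a1, a2, b0, b1, b2, c0, c1, c2]
  · rw [hC, mem_spectrum_sum_rk _ _ (by norm_num), Matrix.det_fin_three]
    simp [a0, a1, a2, b0, b1, b2, c0, c1, c2]
    norm_num
  · rw [hC, mem_spectrum_sum_rk _ _ (by norm_num), Matrix.det_fin_three]
    simp [a0, a1, a2, b0, b1, b2, c0, c1, c2]

theorem Dim3.exists_edge (h : Dim3 X) : ∃ T S : X →L[ℂ] X,
    ∃ z ∈ spectrum ℂ (T * S - S * T), -z ∉ spectrum ℂ (T * S - S * T) := by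
  obtain ⟨T, S, h1, h2, -⟩ := h.exists_edge'
  exact ⟨T, S, 1, h1, h2⟩

theorem Dim3.exists_not_P2 (h : Dim3 X) : ∃ T : X →L[ℂ] X, ¬ P2 T := by
  obtain ⟨T, S, h1, -, h3⟩ := h.exists_edge'
  refine ⟨T, fun hP => ?_⟩
  have := hP S 1 (-2) h1 h3 one_ne_zero (by norm_num)
  norm_num at this

/-- In dimension at most two, every operator is scalar plus rank one. -/
theorem P2_of_not_dim3 (h : ¬ Dim3 X) (T : X →L[ℂ] X) : P2 T := by
  by_cases hsc : ∀ y, ∃ c : ℂ, T y = c • y
  · obtain ⟨c, rfl⟩ := exists_eq_smul_one T hsc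
    have : c • (1 : X →L[ℂ] X) = c • 1 + rk 0 0 := by rw [rk_zero_left, add_zero]
    rw [this]
    exact P2_of_rk _ _ _
  push Not at hsc
  obtain ⟨y, hy⟩ := hsc
  have hy0 : y ≠ 0 := by
    rintro rfl
    exact hy 0 (by simp)
  have hli : LI2 y (T y) := li2_of_forall_ne hy0 hy
  have hspan : ∀ v : X, ∃ a b : ℂ, a • y + b • T y = v := by
    unfold Dim3 at h
    push Not at h
    obtain ⟨a, b, hab⟩ := h
    by_contra hcon
    push Not at hcon
    obtain ⟨v, hv⟩ := hcon
    have hli3 : LI3 y (T y) v := by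
      apply li3_of_not_mem hli
      intro hmem
      obtain ⟨p, q, hpq⟩ := Submodule.mem_span_pair.mp hmem
      exact hv p q hpq
    obtain ⟨c, hc⟩ := not_mem_span_pair_of_li3 hli3 a b
    exact hc (hab c)
  obtain ⟨q, p, hpq⟩ := hspan (T (T y))
  -- a root of `z^2 - p z - q`
  obtain ⟨r, hr⟩ := IsAlgClosed.exists_pow_nat_eq (p ^ 2 + 4 * q) (n := 2) (by norm_num)
  set c := (p + r) / 2 with hc
  set c' := (p - r) / 2 with hc'
  have e1 : c + c' = p := by rw [hc, hc']; ring
  have e2 : c * c' = -q := by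
    rw [hc, hc']
    linear_combination (-1 / 4 : ℂ) * hr
  obtain ⟨g, hg⟩ := exists_functional _ hli.linearIndependent ![1, c']
  have g0 := hg 0
  have g1 := hg 1
  simp at g0 g1
  have hT : T = c • 1 + rk (T y - c • y) g := by
    ext v
    obtain ⟨a, b, rfl⟩ := hspan v
    simp only [map_add, map_smul, add_apply, smul_apply, one_apply_eq_self, rk_apply, g0, g1,
      smul_eq_mul]
    rw [← hpq, ← e1]
    have : q = -(c * c') := by rw [e2, neg_neg]
    rw [this]
    module
  rw [hT]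
  exact P2_of_rk _ _ _

end signs

end Pool.Agent.Lib0bd5b4
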