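import Pool.Agent.Lib_0bd5b4.Conn1
import Pool.Agent.Lib_0bd5b4.Conn2
import Pool.Agent.Lib_0bd5b4.Spec

open ContinuousLinearMap Filter Topology

namespace Pool.Agent.Lib0bd5b4

section linePoly

variable {E : Type*} [AddCommGroup E] [Module ℂ E]

theorem LinePoly.sum {ι : Type*} (s : Finset ι) (p : ι → E → ℂ) (hp : ∀ i ∈ s, LinePoly (p i)) :
    LinePoly (fun v => ∑ i ∈ s, p i v) := by
  classical
  induction s using Finset.induction_on with
  | empty => simpa using LinePoly.const (E := E) 0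
  | insert i s his ih =>
    simp_rw [Finset.sum_insert his]
    exact (hp i (Finset.mem_insert_self i s)).add
      (ih (fun j hj => hp j (Finset.mem_insert_of_mem hj)))

theorem LinePoly.prod {ι : Type*} (s : Finset ι) (p : ι → E → ℂ) (hp : ∀ i ∈ s, LinePoly (p i)) :
    LinePoly (fun v => ∏ i ∈ s, p i v) := by
  classical
  induction s using Finset.induction_on with
  | empty => simpa using LinePoly.const (E := E) 1
  | insert i s his ih =>
    simp_rw [Finset.prod_insert his]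
    exact (hp i (Finset.mem_insert_self i s)).mul
      (ih (fun j hj => hp j (Finset.mem_insert_of_mem hj)))

theorem LinePoly.det {n : ℕ} (M : E → Matrix (Fin n) (Fin n) ℂ)
    (h : ∀ i j, LinePoly (fun v => M v i j)) : LinePoly (fun v => (M v).det) := by
  simp_rw [Matrix.det_apply']
  exact LinePoly.sum _ _ (fun σ _ => (LinePoly.const _).mul (LinePoly.prod _ _ (fun i _ => h _ _)))

end linePoly

variable {X : Type*} [NormedAddCommGroup X] [NormedSpace ℂ X]

theorem LinePoly.pair {E : Type*} [AddCommGroup E] [Module ℂ E] (α : E →ₗ[ℂ] X)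
    (β : E →ₗ[ℂ] StrongDual ℂ X) (T : X →L[ℂ] X) : LinePoly (fun v => (β v) (T (α v))) := by
  intro a b
  refine ⟨Polynomial.C ((β a) (T (α a))) + Polynomial.X * Polynomial.C ((β a) (T (α b)) +
    (β b) (T (α a))) + Polynomial.X ^ 2 * Polynomial.C ((β b) (T (α b))), fun z => ?_⟩
  simp
  ring

/-- The test space. -/
abbrev TS (X : Type*) [NormedAddCommGroup X] [NormedSpace ℂ X] :=
  (X × X) × (StrongDual ℂ X × StrongDual ℂ X)

/-- The `4 × 4` matrix whose characteristic polynomial governs the spectrum of `[T,S]`. -/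
noncomputable def tm (T : X →L[ℂ] X) (u : TS X) : Matrix (Fin 4) (Fin 4) ℂ :=
  Matrix.of fun i j => (![u.2.1, u.2.2, u.2.1.comp T, u.2.2.comp T] i)
    (![T u.1.1, T u.1.2, -u.1.1, -u.1.2] j)

noncomputable def op (u : TS X) : X →L[ℂ] X := rk u.1.1 u.2.1 + rk u.1.2 u.2.2

theorem comm_op (T : X →L[ℂ] X) (u : TS X) :
    T * op u - op u * T = ∑ k : Fin 4, rk (![T u.1.1, T u.1.2, -u.1.1, -u.1.2] k)
      (![u.2.1, u.2.2, u.2.1.comp T, u.2.2.comp T] k) := by
  ext v
  simp [op, Fin.sum_univ_four]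
  abel

theorem mem_spectrum_comm_op (T : X →L[ℂ] X) (u : TS X) {z : ℂ} (hz : z ≠ 0) :
    z ∈ spectrum ℂ (T * op u - op u * T) ↔ (tm T u).charpoly.eval z = 0 := by
  rw [comm_op, mem_spectrum_sum_rk _ _ hz, Matrix.eval_charpoly]
  have : z • (1 : Matrix (Fin 4) (Fin 4) ℂ) = Matrix.scalar (Fin 4) z := by
    rw [Matrix.scalar_apply]
    ext i j
    simp [Matrix.one_apply, Matrix.diagonal_apply]
  rw [this]
  rfl

theorem tm_trace (T : X →L[ℂ] X) (u : TS X) : (tm T u).trace = 0 := by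
  simp [Matrix.trace, Fin.sum_univ_four, tm]

theorem eval_tm (T : X →L[ℂ] X) (u : TS X) (z : ℂ) : (tm T u).charpoly.eval z =
    z ^ 4 + (tm T u).charpoly.coeff 2 * z ^ 2 + (tm T u).charpoly.coeff 1 * z +
      (tm T u).charpoly.coeff 0 := by
  have hd : (tm T u).charpoly.natDegree = 4 := by
    rw [Matrix.charpoly_natDegree_eq_dim]
    simp
  have h4 : (tm T u).charpoly.coeff 4 = 1 := by
    have := (Matrix.charpoly_monic (tm T u)).coeff_natDegree
    rwa [hd] at this
  have h3 : (tm T u).charpoly.coeff 3 = 0 := by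
    have := Matrix.trace_eq_neg_charpoly_coeff (tm T u)
    rw [tm_trace] at this
    simpa using this.symm
  rw [Polynomial.eval_eq_sum_range, hd]
  simp [Finset.sum_range_succ, h4, h3]
  ring

/-- the odd coefficient -/
noncomputable def oddc (T : X →L[ℂ] X) (u : TS X) : ℂ :=
  (Matrix.scalar (Fin 4) (1 : ℂ) - tm T u).det - (Matrix.scalar (Fin 4) (-1 : ℂ) - tm T u).det

theorem oddc_eq (T : X →L[ℂ] X) (u : TS X) : oddc T u = 2 * (tm T u).charpoly.coeff 1 := by
  rw [oddc, ← Matrix.eval_charpoly, ← Matrix.eval_charpoly, eval_tm, eval_tm]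
  ring

theorem oddc_eq_zero_of_symm (T : X →L[ℂ] X) (u : TS X)
    (h : ∀ z ∈ spectrum ℂ (T * op u - op u * T), -z ∈ spectrum ℂ (T * op u - op u * T)) :
    oddc T u = 0 := by
  rw [oddc_eq]
  by_contra hc
  have hc1 : (tm T u).charpoly.coeff 1 ≠ 0 := fun h => hc (by rw [h, mul_zero])
  set c2 := (tm T u).charpoly.coeff 2
  set c1 := (tm T u).charpoly.coeff 1
  set c0 := (tm T u).charpoly.coeff 0
  have hev : ∀ z, (tm T u).charpoly.eval z = z ^ 4 + c2 * z ^ 2 + c1 * z + c0 := eval_tm T u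
  obtain ⟨z, hz0, hz⟩ : ∃ z : ℂ, z ≠ 0 ∧ z ^ 4 + c2 * z ^ 2 + c1 * z + c0 = 0 := by
    by_cases h0 : c0 = 0
    · have hdeg : (Polynomial.X ^ 3 + (Polynomial.C c2 * Polynomial.X + Polynomial.C c1) :
          Polynomial ℂ).degree ≠ 0 := by
        have h1 : (Polynomial.C c2 * Polynomial.X + Polynomial.C c1 : Polynomial ℂ).degree < 3 :=
          lt_of_le_of_lt Polynomial.degree_linear_le (by norm_num)
        rw [Polynomial.degree_add_eq_left_of_degree_lt (by rw [Polynomial.degree_X_pow]; exact h1),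
          Polynomial.degree_X_pow]
        norm_num
      obtain ⟨z, hz⟩ := IsAlgClosed.exists_root _ hdeg
      have hz' : z ^ 3 + (c2 * z + c1) = 0 := by simpa [Polynomial.IsRoot] using hz
      refine ⟨z, ?_, ?_⟩
      · rintro rfl
        apply hc1
        simpa using hz'
      · rw [h0]
        linear_combination z * hz'
    · have hdeg : ((tm T u).charpoly).degree ≠ 0 := by
        rw [Matrix.charpoly_degree_eq_dim]
        simp
      obtain ⟨z, hz⟩ := IsAlgClosed.exists_root _ hdeg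
      have hz' : z ^ 4 + c2 * z ^ 2 + c1 * z + c0 = 0 := by rw [← hev]; exact hz
      refine ⟨z, ?_, hz'⟩
      rintro rfl
      apply h0
      simpa using hz'
  have m1 : z ∈ spectrum ℂ (T * op u - op u * T) := by
    rw [mem_spectrum_comm_op T u hz0, hev]
    exact hz
  have m2 := h z m1
  rw [mem_spectrum_comm_op T u (neg_ne_zero.mpr hz0), hev] at m2
  have : c1 * z = 0 := by linear_combination (1 / 2 : ℂ) * hz - (1 / 2 : ℂ) * m2
  exact (mul_ne_zero hc1 hz0) this

theorem linePoly_tm (T : X →L[ℂ] X) (i j : Fin 4) : LinePoly (fun u : TS X => tm T u i j) := by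
  have key : ∀ (α : TS X →ₗ[ℂ] X) (β : TS X →ₗ[ℂ] StrongDual ℂ X) (S : X →L[ℂ] X),
    LinePoly (fun v => (β v) (S (α v))) := fun α β S => LinePoly.pair α β S
  let α1 : TS X →ₗ[ℂ] X := (LinearMap.fst ℂ X X).comp (LinearMap.fst ℂ _ _)
  let α2 : TS X →ₗ[ℂ] X := (LinearMap.snd ℂ X X).comp (LinearMap.fst ℂ _ _)
  let β1 : TS X →ₗ[ℂ] StrongDual ℂ X :=
    (LinearMap.fst ℂ (StrongDual ℂ X) (StrongDual ℂ X)).comp (LinearMap.snd ℂ _ _)
  let β2 : TS X →ₗ[ℂ] StrongDual ℂ X :=
    (LinearMap.snd ℂ (StrongDual ℂ X) (StrongDual ℂ X)).comp (LinearMap.snd ℂ _ _)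
  fin_cases i <;> fin_cases j
  · exact key α1 β1 T
  · exact key α2 β1 T
  · simpa [tm, α1, α2, β1, β2] using key α1 β1 (-1)
  · simpa [tm, α1, α2, β1, β2] using key α2 β1 (-1)
  · exact key α1 β2 T
  · exact key α2 β2 T
  · simpa [tm, α1, α2, β1, β2] using key α1 β2 (-1)
  · simpa [tm, α1, α2, β1, β2] using key α2 β2 (-1)
  · exact key α1 β1 (T * T)
  · exact key α2 β1 (T * T)
  · simpa [tm, α1, α2, β1, β2] using key α1 β1 (-T)
  · simpa [tm, α1, α2, β1, β2] using key α2 β1 (-T)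
  · exact key α1 β2 (T * T)
  · exact key α2 β2 (T * T)
  · simpa [tm, α1, α2, β1, β2] using key α1 β2 (-T)
  · simpa [tm, α1, α2, β1, β2] using key α2 β2 (-T)

theorem linePoly_oddc (T : X →L[ℂ] X) : LinePoly (fun u : TS X => oddc T u) := by
  unfold oddc
  apply LinePoly.sub
  · apply LinePoly.det (fun u : TS X => Matrix.scalar (Fin 4) (1 : ℂ) - tm T u)
    intro i j
    exact (LinePoly.const _).sub (linePoly_tm T i j)
  · apply LinePoly.det (fun u : TS X => Matrix.scalar (Fin 4) (-1 : ℂ) - tm T u)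
    intro i j
    exact (LinePoly.const _).sub (linePoly_tm T i j)

theorem NQ.exists_oddc {T : X →L[ℂ] X} (h : NQ T) : ∃ u : TS X, oddc T u ≠ 0 := by
  obtain ⟨x, hx⟩ := h
  obtain ⟨h1, hh1⟩ := exists_functional _ hx.linearIndependent ![0, 1, 0]
  obtain ⟨h2, hh2⟩ := exists_functional _ hx.linearIndependent ![0, 0, 1]
  have a0 := hh1 0
  have a1 := hh1 1
  have a2 := hh1 2
  have b0 := hh2 0
  have b1 := hh2 1
  have b2 := hh2 2
  simp at a0 a1 a2 b0 b1 b2
  refine ⟨((-x, (-2 : ℂ) • T x), (h1, h2)), ?_⟩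
  have e : ∀ z : ℂ, (Matrix.scalar (Fin 4) z - tm T ((-x, (-2 : ℂ) • T x), (h1, h2))).det =
      (z + 2) * ((z - 1) * (z ^ 2 - z)) := by
    intro z
    rw [Matrix.det_succ_row_zero]
    simp [Fin.sum_univ_succ, Matrix.det_fin_three, tm, a0, a1, a2, b0, b1, b2,
      Fin.succAbove, Matrix.submatrix]
    ring
  rw [oddc, e, e]
  norm_num

/-- Any two non-quadratic operators have a common partner with nonsymmetric commutators. -/
theorem exists_common {T1 T2 : X →L[ℂ] X} (h1 : NQ T1) (h2 : NQ T2) : ∃ S : X →L[ℂ] X,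
    (∃ z ∈ spectrum ℂ (T1 * S - S * T1), -z ∉ spectrum ℂ (T1 * S - S * T1)) ∧
    (∃ z ∈ spectrum ℂ (T2 * S - S * T2), -z ∉ spectrum ℂ (T2 * S - S * T2)) := by
  obtain ⟨u, hu1, hu2⟩ := LinePoly.exists_ne_zero (linePoly_oddc T1) (linePoly_oddc T2)
    h1.exists_oddc h2.exists_oddc
  refine ⟨op u, ?_, ?_⟩
  · by_contra hcon
    push Not at hcon
    exact hu1 (oddc_eq_zero_of_symm T1 u hcon)
  · by_contra hcon
    push Not at hcon
    exact hu2 (oddc_eq_zero_of_symm T2 u hcon)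

/-- the sign is constant off the commutator-symmetric operators -/
theorem sign_const {ε : (X →L[ℂ] X) → ℂ} (hε : ∀ T, ε T * ε T = 1)
    (h : ∀ T S, (∃ z ∈ spectrum ℂ (T * S - S * T), -z ∉ spectrum ℂ (T * S - S * T)) →
        ε T * ε S = 1) (T S : X →L[ℂ] X) (hT : ¬ CommSymm T) (hS : ¬ CommSymm S) : ε T = ε S := by
  have key : ∀ A B, (∃ z ∈ spectrum ℂ (A * B - B * A), -z ∉ spectrum ℂ (A * B - B * A)) →
      ε A = ε B := by
    intro A B hAB
    have h1 := h A B hAB
    linear_combination (-ε A) * hε B + ε B * h1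
  have hNQ : ∀ A B, NQ A → NQ B → ε A = ε B := by
    intro A B hA hB
    obtain ⟨C, h1, h2⟩ := exists_common hA hB
    rw [key A C h1, key B C h2]
  have hred : ∀ A, ¬ CommSymm A → ∃ B, NQ B ∧ ε A = ε B := by
    intro A hA
    by_cases hA' : NQ A
    · exact ⟨A, hA', rfl⟩
    · unfold CommSymm at hA
      push Not at hA
      obtain ⟨B, z, hz1, hz2⟩ := hA
      refine ⟨B, ?_, key A B ⟨z, hz1, hz2⟩⟩
      by_contra hB
      obtain ⟨p, q, hpq⟩ := not_NQ_quad hA'
      obtain ⟨p', q', hpq'⟩ := not_NQ_quad hB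
      exact hz2 (symm_of_quad hpq hpq' hz1)
  obtain ⟨B1, hB1, e1⟩ := hred T hT
  obtain ⟨B2, hB2, e2⟩ := hred S hS
  rw [e1, e2, hNQ B1 B2 hB1 hB2]

theorem CommSymm.isQuad {T : X →L[ℂ] X} (h : CommSymm T) : IsQuad T := by
  apply not_NQ_quad
  intro hN
  obtain ⟨u, hu⟩ := hN.exists_oddc
  exact hu (oddc_eq_zero_of_symm T u (h (op u)))

theorem commSymm_of_quad_ne {T : X →L[ℂ] X} {p q : ℂ} (h : T * T = p • T + q • 1)
    (hne : p ^ 2 / 4 + q ≠ 0) : CommSymm T := by
  intro S z hz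
  have h1 := quad_shift h
  have e : T * S - S * T = (T - (p / 2) • 1) * S - S * (T - (p / 2) • 1) := by
    simp only [sub_mul, mul_sub, smul_mul_assoc, mul_smul_comm, mul_one, one_mul]
    abel
  rw [e] at hz ⊢
  exact symm_of_sq_ne hne h1 hz

end Pool.Agent.Lib0bd5b4
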