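import Pool.Agent.Lib_0bd5b4.Spec

open ContinuousLinearMap Filter Topology

namespace Pool.Agent.Lib0bd5b4

variable {X : Type*} [NormedAddCommGroup X] [NormedSpace ℂ X] [CompleteSpace X]

theorem symm_of_compact_sq_zero {N : X →L[ℂ] X} (hN : N * N = 0) (hc : IsCompactOperator N)
    (S : X →L[ℂ] X) {z : ℂ} (hz : z ∈ spectrum ℂ (N * S - S * N)) :
    -z ∈ spectrum ℂ (N * S - S * N) := by
  by_cases hz0 : z = 0
  · subst hz0
    simpa using hz
  have hC : IsCompactOperator (N * S - S * N : X →L[ℂ] X) := by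
    have h1 : IsCompactOperator (N ∘ S) := hc.comp_clm S
    have h2 : IsCompactOperator (S ∘ N) := hc.clm_comp S
    exact h1.sub h2
  obtain ⟨C, hCdef⟩ : ∃ C, C = N * S - S * N := ⟨_, rfl⟩
  rw [← hCdef] at hz hC ⊢
  have hNN : ∀ v, N (N v) = 0 := fun v => congrArg (fun L => L v) hN
  have hCv : ∀ v, C v = N (S v) - S (N v) := by
    intro v
    rw [hCdef]
    rfl
  have hanti : ∀ v, N (C v) = -C (N v) := by
    intro v
    rw [hCv, hCv, map_sub, hNN, hNN, map_zero]
    abel
  have hev : Module.End.HasEigenvalue (C : X →ₗ[ℂ] X) z :=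
    (hC.hasEigenvalue_iff_mem_spectrum hz0).mpr hz
  obtain ⟨x, hx⟩ := hev.exists_hasEigenvector
  have hx0 : x ≠ 0 := hx.2
  have hCx : C x = z • x := hx.apply_eq_smul
  by_cases hNx : N x = 0
  · -- Fredholm alternative on the kernel of `N`
    by_contra hcon
    have hu : IsUnit ((-z) • (1 : X →L[ℂ] X) - C) := by
      rw [spectrum.mem_iff, Algebra.algebraMap_eq_smul_one, not_not] at hcon
      exact hcon
    obtain ⟨W, hW1, hW2⟩ := isUnit_iff_exists.mp hu
    have hinj : ∀ v, (-z) • v - C v = 0 → v = 0 := by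
      intro v hv
      have h1 : W (((-z) • (1 : X →L[ℂ] X) - C) v) = v := congrArg (fun L => L v) hW2
      have h2 : ((-z) • (1 : X →L[ℂ] X) - C) v = 0 := hv
      rw [h2, map_zero] at h1
      exact h1.symm
    let K : Submodule ℂ X := LinearMap.ker (N : X →ₗ[ℂ] X)
    have hKmem : ∀ v, v ∈ K ↔ N v = 0 := fun v => LinearMap.mem_ker
    have hKcl : IsClosed (K : Set X) := N.isClosed_ker
    have : CompleteSpace K := hKcl.completeSpace_coe
    have hCK : ∀ v : K, C v ∈ K := by
      intro v
      rw [hKmem, hanti, (hKmem _).mp v.2, map_zero, neg_zero]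
    let CK : K →L[ℂ] K := (C.comp K.subtypeL).codRestrict K hCK
    have hCKc : IsCompactOperator CK := (hC.comp_clm K.subtypeL).codRestrict hCK hKcl
    rcases hCKc.hasEigenvalue_or_mem_resolventSet (neg_ne_zero.mpr hz0) with hE | hE
    · obtain ⟨v, hv⟩ := hE.exists_hasEigenvector
      apply hv.2
      have h1 : CK v = (-z) • v := hv.apply_eq_smul
      have h2 : C (v : X) = (-z) • (v : X) := congrArg (fun w : K => (w : X)) h1
      apply Subtype.ext
      apply hinj
      rw [h2, sub_self]
    · rw [spectrum.mem_resolventSet_iff, Algebra.algebraMap_eq_smul_one] at hE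
      obtain ⟨V, hV1, -⟩ := isUnit_iff_exists.mp hE
      -- `x = N w`
      set w : X := z⁻¹ • S x with hw
      have hxw : N w = x := by
        have e := hCv x
        rw [hCx, hNx, map_zero, sub_zero] at e
        rw [hw, map_smul, ← e, smul_smul, inv_mul_cancel₀ hz0, one_smul]
      have hmem : (-z) • w - C w ∈ K := by
        rw [hKmem, map_sub, map_smul, hanti, hxw, hCx]
        module
      set k : K := V ⟨(-z) • w - C w, hmem⟩ with hk
      have h1 : ((-z) • (1 : K →L[ℂ] K) - CK) k = ⟨(-z) • w - C w, hmem⟩ :=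
        congrArg (fun L => L ⟨(-z) • w - C w, hmem⟩) hV1
      have h2 : (-z) • (k : X) - C (k : X) = (-z) • w - C w :=
        congrArg (fun u : K => (u : X)) h1
      have h3 : w - k = 0 := by
        apply hinj
        rw [map_sub]
        linear_combination (norm := module) (-1 : ℂ) • h2
      apply hx0
      rw [← hxw, sub_eq_zero.mp h3]
      exact (hKmem _).mp k.2
  · apply mem_spectrum_of_eigen hNx
    have e := hanti x
    rw [hCx, map_smul] at e
    rw [neg_smul, e, neg_neg]

theorem commSymm_of_compact {T : X →L[ℂ] X} {a : ℂ} (h : (T - a • 1) * (T - a • 1) = 0)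
    (hc : IsCompactOperator (T - a • 1 : X →L[ℂ] X)) : CommSymm T := by
  intro S z hz
  have e : T * S - S * T = (T - a • 1) * S - S * (T - a • 1) := by
    simp only [sub_mul, mul_sub, smul_mul_assoc, mul_smul_comm, mul_one, one_mul]
    abel
  rw [e] at hz ⊢
  exact symm_of_compact_sq_zero h hc S hz

end Pool.Agent.Lib0bd5b4
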