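import Pool.Agent.Lib_0bd5b4.SignLin

open ContinuousLinearMap Filter Topology

namespace Pool.Agent.Lib0bd5b4

section algebra

/-- squared norm (minus determinant) of a traceless `2 × 2` matrix in coordinates -/
def nn (v : ℂ × ℂ × ℂ) : ℂ := v.1 ^ 2 + v.2.1 * v.2.2

/-- minus the determinant of the commutator -/
def ff (v w : ℂ × ℂ × ℂ) : ℂ := (v.2.1 * w.2.2 - w.2.1 * v.2.2) ^ 2 +
  4 * (v.1 * w.2.1 - w.1 * v.2.1) * (v.2.2 * w.1 - w.2.2 * v.1)

structure RRel (R : ℂ × ℂ × ℂ → ℂ × ℂ × ℂ → Prop) : Prop where
  left : ∀ v, ∃ w, R v w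
  right : ∀ w, ∃ v, R v w
  pres : ∀ v w v' w', R v w → R v' w' → ff v v' = ff w w'

theorem exists_two_of_nn_ne {w : ℂ × ℂ × ℂ} (h : nn w ≠ 0) :
    ∃ w1 w2, ff w w1 = 0 ∧ ff w w2 = 0 ∧ ff w1 w2 ≠ 0 := by
  obtain ⟨a, b, c⟩ := w
  simp only [nn] at h
  obtain ⟨r, hr⟩ := IsAlgClosed.exists_pow_nat_eq (a ^ 2 + b * c) (n := 2) (by norm_num)
  have hr0 : r ≠ 0 := by
    rintro rfl
    apply h
    rw [← hr]
    norm_num
  by_cases hb : b = 0
  · subst hb
    by_cases hc : c = 0
    · subst hc
      exact ⟨(0, 1, 0), (0, 0, 1), by simp [ff], by simp [ff], by simp [ff]⟩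
    · have ha : a ≠ 0 := by
        rintro rfl
        apply h
        ring
      refine ⟨(-c * (r - a), -(r - a) ^ 2, c ^ 2), (c * (r + a), -(r + a) ^ 2, c ^ 2), ?_, ?_, ?_⟩
      · simp only [ff]
        have h1 : r ^ 2 = a ^ 2 := by rw [hr]; ring
        have h2 : (r - a) * (r + a) = 0 := by linear_combination h1
        rcases mul_eq_zero.mp h2 with h3 | h3
        · have : r = a := by linear_combination h3
          subst this
          ring
        · have : r = -a := by linear_combination h3
          subst this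
          ring
      · simp only [ff]
        have h1 : r ^ 2 = a ^ 2 := by rw [hr]; ring
        have h2 : (r - a) * (r + a) = 0 := by linear_combination h1
        rcases mul_eq_zero.mp h2 with h3 | h3
        · have : r = a := by linear_combination h3
          subst this
          ring
        · have : r = -a := by linear_combination h3
          subst this
          ring
      · simp only [ff]
        have h1 : r ^ 2 = a ^ 2 := by rw [hr]; ring
        have h2 : (r - a) * (r + a) = 0 := by linear_combination h1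
        rcases mul_eq_zero.mp h2 with h3 | h3
        · have : r = a := by linear_combination h3
          subst this
          have : (16 : ℂ) * (r ^ 4 * c ^ 4) ≠ 0 := by
            apply mul_ne_zero (by norm_num)
            exact mul_ne_zero (pow_ne_zero _ hr0) (pow_ne_zero _ hc)
          intro h4
          apply this
          linear_combination h4
        · have : r = -a := by linear_combination h3
          subst this
          have : (16 : ℂ) * (a ^ 4 * c ^ 4) ≠ 0 := by
            apply mul_ne_zero (by norm_num)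
            exact mul_ne_zero (pow_ne_zero _ ha) (pow_ne_zero _ hc)
          intro h4
          apply this
          linear_combination h4
  · have hc : c = (r ^ 2 - a ^ 2) / b := by
      rw [hr]
      field_simp
      ring
    subst hc
    refine ⟨(-b * (r - a), b ^ 2, -(r - a) ^ 2), (b * (r + a), b ^ 2, -(r + a) ^ 2), ?_, ?_, ?_⟩
    · simp only [ff]
      field_simp
      ring
    · simp only [ff]
      field_simp
      ring
    · simp only [ff]
      have : (16 : ℂ) * (b ^ 4 * r ^ 4) ≠ 0 := by
        apply mul_ne_zero (by norm_num)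
        exact mul_ne_zero (pow_ne_zero _ hb) (pow_ne_zero _ hr0)
      intro h4
      apply this
      linear_combination h4

theorem ff_eq_of_nn {v v1 : ℂ × ℂ × ℂ} (h : nn v = 0) :
    ff v v1 = (2 * v.1 * v1.1 + v.2.1 * v1.2.2 + v.2.2 * v1.2.1) ^ 2 := by
  obtain ⟨a, b, c⟩ := v
  obtain ⟨a1, b1, c1⟩ := v1
  simp only [nn] at h
  simp only [ff]
  linear_combination (-4 * a1 ^ 2 - 4 * b1 * c1) * h

theorem ff_zero_of_nn {v v1 v2 : ℂ × ℂ × ℂ} (h : nn v = 0) (hv : v ≠ 0) (h1 : ff v v1 = 0)
    (h2 : ff v v2 = 0) : ff v1 v2 = 0 := by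
  rw [ff_eq_of_nn h] at h1 h2
  have h1' := pow_eq_zero_iff (two_ne_zero) |>.mp h1
  have h2' := pow_eq_zero_iff (two_ne_zero) |>.mp h2
  obtain ⟨a, b, c⟩ := v
  obtain ⟨a1, b1, c1⟩ := v1
  obtain ⟨a2, b2, c2⟩ := v2
  simp only [nn] at h h1' h2'
  simp only [ff]
  by_cases hb : b = 0
  · subst hb
    have ha : a = 0 := by
      have : a ^ 2 = 0 := by linear_combination h
      simpa using this
    subst ha
    have hc : c ≠ 0 := by
      rintro rfl
      exact hv rfl
    have e1 : b1 = 0 := by
      apply mul_left_cancel₀ hc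
      linear_combination h1'
    have e2 : b2 = 0 := by
      apply mul_left_cancel₀ hc
      linear_combination h2'
    subst e1
    subst e2
    ring
  · have ec : c = -a ^ 2 / b := by
      field_simp
      linear_combination h
    subst ec
    have e1 : c1 = a * (a * b1 - 2 * b * a1) / b ^ 2 := by
      field_simp
      field_simp at h1'
      linear_combination h1'
    have e2 : c2 = a * (a * b2 - 2 * b * a2) / b ^ 2 := by
      field_simp
      field_simp at h2'
      linear_combination h2'
    subst e1
    subst e2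
    field_simp
    ring

theorem RRel.nn_eq {R : ℂ × ℂ × ℂ → ℂ × ℂ × ℂ → Prop} (hR : RRel R) {v w : ℂ × ℂ × ℂ}
    (h : R v w) (hv : v ≠ 0) (hn : nn v = 0) : nn w = 0 := by
  by_contra hw
  obtain ⟨w1, w2, h1, h2, h3⟩ := exists_two_of_nn_ne hw
  obtain ⟨v1, r1⟩ := hR.right w1
  obtain ⟨v2, r2⟩ := hR.right w2
  apply h3
  rw [← hR.pres _ _ _ _ r1 r2]
  apply ff_zero_of_nn hn hv
  · rw [hR.pres _ _ _ _ h r1, h1]
  · rw [hR.pres _ _ _ _ h r2, h2]

theorem ff_smul_left (s : ℂ) (v w : ℂ × ℂ × ℂ) : ff (s • v) w = s ^ 2 * ff v w := by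
  simp only [ff, Prod.smul_fst, Prod.smul_snd, smul_eq_mul]
  ring

theorem ff_smul_right (s : ℂ) (v w : ℂ × ℂ × ℂ) : ff v (s • w) = s ^ 2 * ff v w := by
  simp only [ff, Prod.smul_fst, Prod.smul_snd, smul_eq_mul]
  ring

theorem n2_aux {w : ℂ × ℂ × ℂ} (hn : nn w = 0) (hb : w.2.1 ^ 2 = 1) (hc : w.2.2 ^ 2 = 16)
    (hg : (2 * w.1 + w.2.2 - w.2.1) ^ 2 = 1) : w = (2, 1, -4) ∨ w = -(2, 1, -4) := by
  obtain ⟨a, b, c⟩ := w
  simp only [nn] at hn hb hc hg
  have hb' : (b - 1) * (b + 1) = 0 := by linear_combination hb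
  have hc' : (c - 4) * (c + 4) = 0 := by linear_combination hc
  rcases mul_eq_zero.mp hb' with h1 | h1 <;> rcases mul_eq_zero.mp hc' with h2 | h2
  · exfalso
    have eb : b = 1 := by linear_combination h1
    have ec : c = 4 := by linear_combination h2
    subst eb
    subst ec
    have h3 : a = 2 / 3 := by linear_combination (1 / 12 : ℂ) * hg - (1 / 3 : ℂ) * hn
    rw [h3] at hn
    norm_num at hn
  · have eb : b = 1 := by linear_combination h1
    have ec : c = -4 := by linear_combination h2
    subst eb
    subst ec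
    have h3 : a = 2 := by linear_combination (-1 / 20 : ℂ) * hg + (1 / 5 : ℂ) * hn
    left
    rw [h3]
  · have eb : b = -1 := by linear_combination h1
    have ec : c = 4 := by linear_combination h2
    subst eb
    subst ec
    have h3 : a = -2 := by linear_combination (1 / 20 : ℂ) * hg - (1 / 5 : ℂ) * hn
    right
    rw [h3]
    simp
  · exfalso
    have eb : b = -1 := by linear_combination h1
    have ec : c = -4 := by linear_combination h2
    subst eb
    subst ec
    have h3 : a = -2 / 3 := by linear_combination (-1 / 12 : ℂ) * hg + (1 / 3 : ℂ) * hn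
    rw [h3] at hn
    norm_num at hn

theorem n3_aux {w : ℂ × ℂ × ℂ} (hn : nn w = 0) (hb : w.2.1 ^ 2 = 1) (hc : w.2.2 ^ 2 = 81)
    (hg : (2 * w.1 + w.2.2 - w.2.1) ^ 2 = 16) : w = (3, 1, -9) ∨ w = -(3, 1, -9) := by
  obtain ⟨a, b, c⟩ := w
  simp only [nn] at hn hb hc hg
  have hb' : (b - 1) * (b + 1) = 0 := by linear_combination hb
  have hc' : (c - 9) * (c + 9) = 0 := by linear_combination hc
  rcases mul_eq_zero.mp hb' with h1 | h1 <;> rcases mul_eq_zero.mp hc' with h2 | h2
  · exfalso
    have eb : b = 1 := by linear_combination h1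
    have ec : c = 9 := by linear_combination h2
    subst eb
    subst ec
    have h3 : a = -3 / 8 := by linear_combination (1 / 32 : ℂ) * hg - (1 / 8 : ℂ) * hn
    rw [h3] at hn
    norm_num at hn
  · have eb : b = 1 := by linear_combination h1
    have ec : c = -9 := by linear_combination h2
    subst eb
    subst ec
    have h3 : a = 3 := by linear_combination (-1 / 40 : ℂ) * hg + (1 / 10 : ℂ) * hn
    left
    rw [h3]
  · have eb : b = -1 := by linear_combination h1
    have ec : c = 9 := by linear_combination h2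
    subst eb
    subst ec
    have h3 : a = -3 := by linear_combination (1 / 40 : ℂ) * hg - (1 / 10 : ℂ) * hn
    right
    rw [h3]
    simp
  · exfalso
    have eb : b = -1 := by linear_combination h1
    have ec : c = -9 := by linear_combination h2
    subst eb
    subst ec
    have h3 : a = 3 / 8 := by linear_combination (-1 / 32 : ℂ) * hg + (1 / 8 : ℂ) * hn
    rw [h3] at hn
    norm_num at hn

theorem final_sign {R : ℂ × ℂ × ℂ → ℂ × ℂ × ℂ → Prop} (hR : RRel R)
    (he : ∀ v w, R v w → w.2.1 ^ 2 = v.2.1 ^ 2 ∧ w.2.2 ^ 2 = v.2.2 ^ 2 ∧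
      (2 * w.1 + w.2.2 - w.2.1) ^ 2 = (2 * v.1 + v.2.2 - v.2.1) ^ 2) {v w : ℂ × ℂ × ℂ}
    (h : R v w) : w = v ∨ w = -v := by
  have key2 : ff (2, 1, -4) v = ff (2, 1, -4) w := by
    obtain ⟨u, hu⟩ := hR.left (2, 1, -4)
    have hn := hR.nn_eq hu (by simp) (by simp only [nn]; norm_num)
    obtain ⟨e1, e2, e3⟩ := he _ _ hu
    rw [hR.pres _ _ _ _ hu h]
    rcases n2_aux hn (by rw [e1]; norm_num) (by rw [e2]; norm_num) (by rw [e3]; norm_num)
      with h' | h'
    · rw [h']
    · rw [h', ← neg_one_smul ℂ, ff_smul_left]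
      ring
  have key3 : ff (3, 1, -9) v = ff (3, 1, -9) w := by
    obtain ⟨u, hu⟩ := hR.left (3, 1, -9)
    have hn := hR.nn_eq hu (by simp) (by simp only [nn]; norm_num)
    obtain ⟨e1, e2, e3⟩ := he _ _ hu
    rw [hR.pres _ _ _ _ hu h]
    rcases n3_aux hn (by rw [e1]; norm_num) (by rw [e2]; norm_num) (by rw [e3]; norm_num)
      with h' | h'
    · rw [h']
    · rw [h', ← neg_one_smul ℂ, ff_smul_left]
      ring
  obtain ⟨e1, e2, e3⟩ := he _ _ h
  rw [ff_eq_of_nn (by simp only [nn]; norm_num), ff_eq_of_nn (by simp only [nn]; norm_num)]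
    at key2 key3
  obtain ⟨a, b, c⟩ := v
  obtain ⟨a', b', c'⟩ := w
  simp only at e1 e2 e3 key2 key3
  have d3 : a' * b' = a * b := by
    linear_combination (-1 / 8 : ℂ) * (e3 - e2 - e1) + (1 / 8 : ℂ) * (-key2 - e2 - 16 * e1)
      - (1 / 24 : ℂ) * (-key3 - e2 - 81 * e1)
  have d1 : a' * c' = a * c := by
    linear_combination (3 / 4 : ℂ) * (e3 - e2 - e1) - (3 / 8 : ℂ) * (-key2 - e2 - 16 * e1)
      + (1 / 12 : ℂ) * (-key3 - e2 - 81 * e1)
  have d2 : 4 * a' ^ 2 - 2 * b' * c' = 4 * a ^ 2 - 2 * b * c := by
    linear_combination e3 - e2 - e1 - 4 * d1 + 4 * d3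
  have hs : ∃ s : ℂ, s * s = 1 ∧ a' = s * a ∧ b' = s * b ∧ c' = s * c := by
    by_cases hb : b = 0
    · subst hb
      have hb' : b' = 0 := by simpa using e1
      subst hb'
      by_cases hc : c = 0
      · subst hc
        have hc' : c' = 0 := by simpa using e2
        subst hc'
        have ha : (a' - a) * (a' + a) = 0 := by linear_combination (1 / 4 : ℂ) * d2
        rcases mul_eq_zero.mp ha with h1 | h1
        · exact ⟨1, by ring, by linear_combination h1, by ring, by ring⟩
        · exact ⟨-1, by ring, by linear_combination h1, by ring, by ring⟩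
      · have hc' : (c' - c) * (c' + c) = 0 := by linear_combination e2
        rcases mul_eq_zero.mp hc' with h1 | h1
        · have h2 : c' = c := by linear_combination h1
          subst h2
          exact ⟨1, by ring, by apply mul_right_cancel₀ hc; linear_combination d1, by ring,
            by ring⟩
        · have h2 : c' = -c := by linear_combination h1
          subst h2
          exact ⟨-1, by ring, by apply mul_right_cancel₀ hc; linear_combination -d1, by ring,
            by ring⟩
    · have hb' : (b' - b) * (b' + b) = 0 := by linear_combination e1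
      rcases mul_eq_zero.mp hb' with h1 | h1
      · have h2 : b' = b := by linear_combination h1
        subst h2
        have h3 : a' = a := by apply mul_right_cancel₀ hb; linear_combination d3
        subst h3
        refine ⟨1, by ring, by ring, by ring, ?_⟩
        apply mul_left_cancel₀ hb
        linear_combination (-1 / 2 : ℂ) * d2
      · have h2 : b' = -b := by linear_combination h1
        subst h2
        have h3 : a' = -a := by apply mul_right_cancel₀ hb; linear_combination -d3
        subst h3
        refine ⟨-1, by ring, by ring, by ring, ?_⟩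
        apply mul_left_cancel₀ hb
        linear_combination (1 / 2 : ℂ) * d2
  obtain ⟨s, hs, h1, h2, h3⟩ := hs
  rcases sign_cases hs with rfl | rfl
  · left
    rw [h1, h2, h3]
    simp
  · right
    rw [h1, h2, h3]
    simp

end algebra

end Pool.Agent.Lib0bd5b4
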