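import Pool.Agent.Lib_0bd5b4.Struct2

open ContinuousLinearMap

namespace Pool.Agent.Lib0bd5b4

section bil

variable {X : Type*} [NormedAddCommGroup X] [NormedSpace ℂ X]
  {Y : Type*} [NormedAddCommGroup Y] [NormedSpace ℂ Y]

theorem rk_zero_left (f : StrongDual ℂ X) : rk 0 f = 0 := by ext; simp

theorem rk_zero_right (x : X) : rk x (0 : StrongDual ℂ X) = 0 := by ext; simp

theorem RkEquiv.exists_bilinear (hY : Dim3 Y) {ψ : Qt X ≃ₗ[ℂ] Qt Y}
    (hψ : RkEquiv ψ) :
    ∃ Ψ : X →ₗ[ℂ] StrongDual ℂ X →ₗ[ℂ] (Y →L[ℂ] Y),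
      (∀ x f, cl (Ψ x f) = ψ (cl (rk x f))) ∧ (∀ x f, ∃ y g, Ψ x f = rk y g) := by
  have hex : ∀ (x : X) (f : StrongDual ℂ X), ∃ R : Y →L[ℂ] Y, (∃ y g, R = rk y g) ∧
      cl R = ψ (cl (rk x f)) := by
    intro x f
    obtain ⟨y, g, h⟩ := hψ.fwd x f
    exact ⟨rk y g, ⟨y, g, rfl⟩, h.symm⟩
  choose P hP1 hP2 using hex
  have uniq : ∀ (x : X) (f : StrongDual ℂ X) (R : Y →L[ℂ] Y), (∃ y g, R = rk y g) →
      cl R = ψ (cl (rk x f)) → P x f = R := by
    rintro x f R ⟨y, g, rfl⟩ h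
    obtain ⟨y', g', h'⟩ := hP1 x f
    rw [h']
    apply rk_unique hY
    rw [← h', hP2, h]
  have smulf : ∀ (c : ℂ) (x : X) (f : StrongDual ℂ X), P x (c • f) = c • P x f := by
    intro c x f
    apply uniq
    · obtain ⟨y, g, h⟩ := hP1 x f
      exact ⟨c • y, g, by rw [h, smul_rk]⟩
    · rw [map_smul, hP2, rk_smul, map_smul, map_smul]
  have smulx : ∀ (c : ℂ) (x : X) (f : StrongDual ℂ X), P (c • x) f = c • P x f := by
    intro c x f
    apply uniq
    · obtain ⟨y, g, h⟩ := hP1 x f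
      exact ⟨c • y, g, by rw [h, smul_rk]⟩
    · rw [map_smul, hP2, ← smul_rk, map_smul, map_smul]
  -- additivity when one term is nilpotent
  have addgen : ∀ (x1 x2 x3 : X) (f1 f2 f3 : StrongDual ℂ X), rk x1 f1 + rk x2 f2 = rk x3 f3 →
      (f1 x1 = 0 ∨ f2 x2 = 0 ∨ f3 x3 = 0) → P x3 f3 = P x1 f1 + P x2 f2 := by
    intro x1 x2 x3 f1 f2 f3 he hn
    obtain ⟨y1, g1, h1⟩ := hP1 x1 f1
    obtain ⟨y2, g2, h2⟩ := hP1 x2 f2
    obtain ⟨y3, g3, h3⟩ := hP1 x3 f3
    have n1 := hψ.nil x1 f1 y1 g1 (by rw [← hP2, h1])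
    have n2 := hψ.nil x2 f2 y2 g2 (by rw [← hP2, h2])
    have n3 := hψ.nil x3 f3 y3 g3 (by rw [← hP2, h3])
    rw [h1, h2, h3]
    refine (tri hY ?_ ?_).symm
    · rw [← h1, ← h2, ← h3, hP2, hP2, hP2, ← map_add, ← map_add, he]
    · rw [← n1, ← n2, ← n3]
      exact hn
  have addf : ∀ (x : X) (f f' : StrongDual ℂ X), P x (f + f') = P x f + P x f' := by
    intro x f f'
    by_cases hx : x = 0
    · subst hx
      exact addgen _ _ _ _ _ _ (by rw [rk_add]) (Or.inl (by simp))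
    obtain ⟨f1, hf1⟩ := SeparatingDual.exists_eq_one (R := ℂ) hx
    have e1 : ∀ (g : StrongDual ℂ X), P x g = P x (g - g x • f1) + g x • P x f1 := by
      intro g
      rw [← smulf]
      apply addgen
      · rw [← rk_add, sub_add_cancel]
      · left
        rw [sub_apply, smul_apply, hf1, smul_eq_mul, mul_one, sub_self]
    rw [e1 f, e1 f', e1 (f + f')]
    have e2 : f + f' - (f + f') x • f1 = (f - f x • f1) + (f' - f' x • f1) := by
      ext v
      simp
      ring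
    have e3 : P x (f + f' - (f + f') x • f1) = P x (f - f x • f1) + P x (f' - f' x • f1) := by
      rw [e2]
      apply addgen
      · rw [rk_add]
      · left
        rw [sub_apply, smul_apply, hf1, smul_eq_mul, mul_one, sub_self]
    rw [e3, add_apply]
    module
  have addx : ∀ (x x' : X) (f : StrongDual ℂ X), P (x + x') f = P x f + P x' f := by
    intro x x' f
    by_cases hf : ∀ v, f v = 0
    · exact addgen _ _ _ _ _ _ (by rw [add_rk]) (Or.inl (hf x))
    push Not at hf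
    obtain ⟨v, hv⟩ := hf
    have e1 : ∀ (u : X), P u f = P (u - (f u / f v) • v) f + (f u / f v) • P v f := by
      intro u
      rw [← smulx]
      apply addgen
      · rw [← add_rk, sub_add_cancel]
      · left
        rw [map_sub, map_smul, smul_eq_mul, div_mul_cancel₀ _ hv, sub_self]
    rw [e1 x, e1 x', e1 (x + x')]
    have e2 : x + x' - (f (x + x') / f v) • v = (x - (f x / f v) • v) + (x' - (f x' / f v) • v) := by
      rw [map_add, add_div]
      module
    have e3 : P (x + x' - (f (x + x') / f v) • v) f =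
        P (x - (f x / f v) • v) f + P (x' - (f x' / f v) • v) f := by
      rw [e2]
      apply addgen
      · rw [add_rk]
      · left
        rw [map_sub, map_smul, smul_eq_mul, div_mul_cancel₀ _ hv, sub_self]
    rw [e3, map_add, add_div]
    module
  refine ⟨LinearMap.mk₂ ℂ P addx smulx addf smulf, ?_, ?_⟩
  · intro x f
    exact hP2 x f
  · intro x f
    exact hP1 x f

theorem RkEquiv.factor (hX : Dim3 X) (hY : Dim3 Y) {ψ : Qt X ≃ₗ[ℂ] Qt Y} (hψ : RkEquiv ψ) :
    (∃ (A : X →ₗ[ℂ] Y) (C : StrongDual ℂ X →ₗ[ℂ] StrongDual ℂ Y),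
      ∀ x f, ψ (cl (rk x f)) = cl (rk (A x) (C f))) ∨
    (∃ (B : StrongDual ℂ X →ₗ[ℂ] Y) (D : X →ₗ[ℂ] StrongDual ℂ Y),
      ∀ x f, ψ (cl (rk x f)) = cl (rk (B f) (D x))) := by
  obtain ⟨Ψ, h1, h2⟩ := hψ.exists_bilinear hY
  have hinj : ∀ x f, Ψ x f = 0 → x = 0 ∨ f = 0 := by
    intro x f h
    have : ψ (cl (rk x f)) = 0 := by rw [← h1, h, map_zero]
    rw [LinearEquiv.map_eq_zero_iff] at this
    have h0 : cl (rk x f) = cl (rk (0 : X) (0 : StrongDual ℂ X)) := by
      rw [this, rk_zero_left, map_zero]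
    have h3 := rk_unique hX h0
    rw [rk_zero_left] at h3
    exact rk_eq_zero h3
  -- nonzero vectors and functionals
  obtain ⟨x0, hx0⟩ : ∃ x : X, x ≠ 0 := by
    obtain ⟨c, hc⟩ := hX 0 0
    exact ⟨c, fun h => hc (by rw [h]; exact Submodule.zero_mem _)⟩
  obtain ⟨f0, hf0⟩ := SeparatingDual.exists_eq_one (R := ℂ) hx0
  have hf0ne : f0 ≠ 0 := by
    rintro rfl
    simp at hf0
  -- the four types
  let TY : X → Prop := fun x => ∃ y, ∀ f, ∃ g, Ψ x f = rk y g
  let TG : X → Prop := fun x => ∃ g, ∀ f, ∃ y, Ψ x f = rk y g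
  let UY : StrongDual ℂ X → Prop := fun f => ∃ y, ∀ x, ∃ g, Ψ x f = rk y g
  let UG : StrongDual ℂ X → Prop := fun f => ∃ g, ∀ x, ∃ y, Ψ x f = rk y g
  have hT : ∀ x, TY x ∨ TG x := fun x => rank_one_space (Ψ x) (h2 x)
  have hU : ∀ f, UY f ∨ UG f := fun f => rank_one_space (Ψ.flip f) (fun x => h2 x f)
  -- no rank two operator goes to a rank one operator
  have hno : ∀ (x x' : X) (f f' : StrongDual ℂ X) (y : Y) (g : StrongDual ℂ Y), x ≠ 0 → f' x = 0 →
      f x' = 0 → f' x' = 1 → f ≠ 0 → Ψ x f' + Ψ x' f = rk y g → False := by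
    intro x x' f f' y g hx e1 e2 e3 hf he
    obtain ⟨x'', f'', h3⟩ := hψ.bwd y g
    rw [← he, map_add, h1, h1, ← map_add, ψ.injective.eq_iff] at h3
    have h4 := tri hX h3.symm (Or.inl e1)
    have hli : LI2 x x' := by
      apply li2_of_forall_ne hx
      intro c hc
      rw [hc, map_smul, e1, smul_zero] at e3
      exact zero_ne_one e3
    obtain ⟨w, hw⟩ : ∃ w, f w ≠ 0 := by
      by_contra hcon
      push Not at hcon
      exact hf (ContinuousLinearMap.ext hcon)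
    -- `v` with `f' v = 1`, `f v = 0` is `x'`; `w'` with `f' w' = 0`, `f w' ≠ 0`
    refine rk_add_ne (y1 := x) (y2 := x') (g1 := f') (g2 := f) hli (v := x')
      (w := w - f' w • x') ?_ e2 ?_ ?_ h4
    · rw [e3]; exact one_ne_zero
    · rw [map_sub, map_smul, e3, smul_eq_mul, mul_one, sub_self]
    · rw [map_sub, map_smul, e2, smul_zero, sub_zero]
      exact hw
  have hTU1 : ∀ x f, x ≠ 0 → f ≠ 0 → TY x → UY f → False := by
    rintro x f hx hf ⟨y, hy⟩ ⟨y', hy'⟩
    obtain ⟨g, hg⟩ := hy f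
    obtain ⟨g', hg'⟩ := hy' x
    have hne : Ψ x f ≠ 0 := fun h => by
      rcases hinj _ _ h with h | h
      · exact hx h
      · exact hf h
    -- `y'` is a multiple of `y`
    have hpar : ∃ c : ℂ, y' = c • y := by
      rw [hg] at hg'
      have hg'ne : g' ≠ 0 := by
        rintro rfl
        apply hne
        rw [hg, hg', rk_zero_right]
      obtain ⟨v, hv⟩ : ∃ v, g' v ≠ 0 := by
        by_contra hcon
        push Not at hcon
        exact hg'ne (ContinuousLinearMap.ext hcon)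
      have := congrArg (fun L : Y →L[ℂ] Y => L v) hg'
      simp at this
      exact ⟨(g' v)⁻¹ * g v, by rw [mul_smul, this, smul_smul, inv_mul_cancel₀ hv, one_smul]⟩
    obtain ⟨c, rfl⟩ := hpar
    obtain ⟨f', v, e1, e2, e3⟩ := hX.exists_functional_pair f hx hf
    obtain ⟨g1, hg1⟩ := hy f'
    obtain ⟨g2, hg2⟩ := hy' v
    refine hno x v f f' y (g1 + c • g2) hx e1 e3 e2 hf ?_
    rw [hg1, hg2, rk_add, rk_smul, smul_rk]
  have hTU2 : ∀ x f, x ≠ 0 → f ≠ 0 → TG x → UG f → False := by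
    rintro x f hx hf ⟨g, hg⟩ ⟨g', hg'⟩
    obtain ⟨y, hy⟩ := hg f
    obtain ⟨y', hy'⟩ := hg' x
    have hne : Ψ x f ≠ 0 := fun h => by
      rcases hinj _ _ h with h | h
      · exact hx h
      · exact hf h
    have hpar : ∃ c : ℂ, g' = c • g := by
      rw [hy] at hy'
      have hy'ne : y' ≠ 0 := by
        rintro rfl
        apply hne
        rw [hy, hy', rk_zero_left]
      obtain ⟨h, hh⟩ := SeparatingDual.exists_eq_one (R := ℂ) hy'ne
      refine ⟨h y, ?_⟩
      ext v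
      have := congrArg (fun L : Y →L[ℂ] Y => h (L v)) hy'
      simp [hh] at this
      rw [smul_apply, smul_eq_mul, ← this, mul_comm]
    obtain ⟨c, rfl⟩ := hpar
    obtain ⟨f', v, e1, e2, e3⟩ := hX.exists_functional_pair f hx hf
    obtain ⟨y1, hy1⟩ := hg f'
    obtain ⟨y2, hy2⟩ := hg' v
    refine hno x v f f' (y1 + c • y2) g hx e1 e3 e2 hf ?_
    rw [hy1, hy2, add_rk, rk_smul, smul_rk]
  by_cases hTY : TY x0
  · left
    have hUG : ∀ f, f ≠ 0 → UG f := fun f hf => (hU f).resolve_left (hTU1 x0 f hx0 hf hTY)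
    have hTYall : ∀ x, x ≠ 0 → TY x := fun x hx =>
      (hT x).resolve_right (fun h => hTU2 x f0 hx hf0ne h (hUG f0 hf0ne))
    obtain ⟨A, C, hAC⟩ := tensor_factor Ψ hinj hTYall hUG ⟨x0, hx0⟩ ⟨f0, hf0ne⟩
    exact ⟨A, C, fun x f => by rw [← h1, hAC]⟩
  · right
    have hTG : TG x0 := (hT x0).resolve_left hTY
    have hUY : ∀ f, f ≠ 0 → UY f := fun f hf => (hU f).resolve_right (hTU2 x0 f hx0 hf hTG)
    have hTGall : ∀ x, x ≠ 0 → TG x := fun x hx =>
      (hT x).resolve_left (fun h => hTU1 x f0 hx hf0ne h (hUY f0 hf0ne))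
    obtain ⟨B, D, hBD⟩ := tensor_factor Ψ.flip
      (fun f x h => (hinj x f h).symm) (fun f hf => hUY f hf) (fun x hx => hTGall x hx)
      ⟨f0, hf0ne⟩ ⟨x0, hx0⟩
    exact ⟨B, D, fun x f => by rw [← h1]; exact congrArg cl (hBD f x)⟩

end bil

end Pool.Agent.Lib0bd5b4
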