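import Pool.Agent.Lib_0bd5b4.Dim2a
import Pool.Agent.Lib_0bd5b4.Struct3

open ContinuousLinearMap Filter Topology

namespace Pool.Agent.Lib0bd5b4

/-- A basis of a two-dimensional space together with its dual basis. -/
structure Frame (X : Type*) [NormedAddCommGroup X] [NormedSpace ℂ X] where
  x1 : X
  x2 : X
  h1 : StrongDual ℂ X
  h2 : StrongDual ℂ X
  e11 : h1 x1 = 1
  e12 : h1 x2 = 0
  e21 : h2 x1 = 0
  e22 : h2 x2 = 1
  span : ∀ v, h1 v • x1 + h2 v • x2 = v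

variable {X : Type*} [NormedAddCommGroup X] [NormedSpace ℂ X]

theorem span_of_not_dim3 (h : ¬ Dim3 X) {y z : X} (hli : LI2 y z) :
    ∀ v : X, ∃ a b : ℂ, a • y + b • z = v := by
  unfold Dim3 at h
  push Not at h
  obtain ⟨a, b, hab⟩ := h
  by_contra hcon
  push Not at hcon
  obtain ⟨v, hv⟩ := hcon
  have hli3 : LI3 y z v := by
    apply li3_of_not_mem hli
    intro hmem
    obtain ⟨p, q, hpq⟩ := Submodule.mem_span_pair.mp hmem
    exact hv p q hpq
  obtain ⟨c, hc⟩ := not_mem_span_pair_of_li3 hli3 a b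
  exact hc (hab c)

/-- build a frame in a two-dimensional space -/
noncomputable def Frame.mk' (h : ¬ Dim3 X) (x1 x2 : X) (h1 h2 : StrongDual ℂ X)
    (e11 : h1 x1 = 1) (e12 : h1 x2 = 0) (e21 : h2 x1 = 0) (e22 : h2 x2 = 1) : Frame X where
  x1 := x1
  x2 := x2
  h1 := h1
  h2 := h2
  e11 := e11
  e12 := e12
  e21 := e21
  e22 := e22
  span := by
    have hli : LI2 x1 x2 := by
      intro a b hab
      have k1 := congrArg h1 hab
      have k2 := congrArg h2 hab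
      simp [e11, e12, e21, e22] at k1 k2
      exact ⟨k1, k2⟩
    intro v
    obtain ⟨a, b, rfl⟩ := span_of_not_dim3 h hli v
    simp [e11, e12, e21, e22]

theorem exists_frame (h : ¬ Dim3 X) {y z : X} (hli : LI2 y z) : Nonempty (Frame X) := by
  obtain ⟨h1, hh1⟩ := exists_functional _ hli.linearIndependent ![1, 0]
  obtain ⟨h2, hh2⟩ := exists_functional _ hli.linearIndependent ![0, 1]
  have a0 := hh1 0
  have a1 := hh1 1
  have b0 := hh2 0
  have b1 := hh2 1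
  simp at a0 a1 b0 b1
  exact ⟨Frame.mk' h y z h1 h2 a0 a1 b0 b1⟩

/-- in dimension at most two every operator is scalar plus rank one -/
theorem exists_rk_of_not_dim3 (h : ¬ Dim3 X) (T : X →L[ℂ] X) :
    ∃ (c : ℂ) (x : X) (f : StrongDual ℂ X), T = c • 1 + rk x f := by
  by_cases hsc : ∀ y, ∃ c : ℂ, T y = c • y
  · obtain ⟨c, rfl⟩ := exists_eq_smul_one T hsc
    exact ⟨c, 0, 0, by rw [rk_zero_left, add_zero]⟩
  push Not at hsc
  obtain ⟨y, hy⟩ := hsc
  have hy0 : y ≠ 0 := by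
    rintro rfl
    exact hy 0 (by simp)
  have hli : LI2 y (T y) := li2_of_forall_ne hy0 hy
  have hspan := span_of_not_dim3 h hli
  obtain ⟨q, p, hpq⟩ := hspan (T (T y))
  obtain ⟨r, hr⟩ := IsAlgClosed.exists_pow_nat_eq (p ^ 2 + 4 * q) (n := 2) (by norm_num)
  set c := (p + r) / 2 with hc
  set c' := (p - r) / 2 with hc'
  have e1 : c + c' = p := by rw [hc, hc']; ring
  have e2 : c * c' = -q := by
    rw [hc, hc']
    linear_combination (-1 / 4 : ℂ) * hr
  obtain ⟨g, hg⟩ := exists_functional _ hli.linearIndependent ![1, c']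
  have g0 := hg 0
  have g1 := hg 1
  simp at g0 g1
  refine ⟨c, T y - c • y, g, ?_⟩
  ext v
  obtain ⟨a, b, rfl⟩ := hspan v
  simp only [map_add, map_smul, add_apply, smul_apply, one_apply_eq_self, rk_apply, g0, g1]
  rw [← hpq, ← e1]
  have : q = -(c * c') := by rw [e2, neg_neg]
  rw [this]
  module

namespace Frame

variable (F : Frame X)

theorem ext_op {T S : X →L[ℂ] X} (h1 : T F.x1 = S F.x1) (h2 : T F.x2 = S F.x2) : T = S := by
  ext v
  rw [← F.span v]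
  simp [h1, h2]

theorem x1_ne : F.x1 ≠ 0 := by
  intro h
  have := F.e11
  rw [h, map_zero] at this
  exact zero_ne_one this

/-- coordinates of the traceless part -/
noncomputable def co (T : X →L[ℂ] X) : ℂ × ℂ × ℂ :=
  ((F.h1 (T F.x1) - F.h2 (T F.x2)) / 2, F.h1 (T F.x2), F.h2 (T F.x1))

theorem co_surj (v : ℂ × ℂ × ℂ) : ∃ T, F.co T = v := by
  obtain ⟨a, b, c⟩ := v
  refine ⟨a • rk F.x1 F.h1 - a • rk F.x2 F.h2 + b • rk F.x1 F.h2 + c • rk F.x2 F.h1, ?_⟩
  simp [co, F.e11, F.e12, F.e21, F.e22]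

theorem comm_sq (T S : X →L[ℂ] X) :
    (T * S - S * T) * (T * S - S * T) = ff (F.co T) (F.co S) • 1 := by
  have t1 := F.span (T F.x1)
  have t2 := F.span (T F.x2)
  have s1 := F.span (S F.x1)
  have s2 := F.span (S F.x2)
  obtain ⟨t11, h11⟩ : ∃ a, a = F.h1 (T F.x1) := ⟨_, rfl⟩
  obtain ⟨t12, h12⟩ : ∃ a, a = F.h1 (T F.x2) := ⟨_, rfl⟩
  obtain ⟨t21, h21⟩ : ∃ a, a = F.h2 (T F.x1) := ⟨_, rfl⟩
  obtain ⟨t22, h22⟩ : ∃ a, a = F.h2 (T F.x2) := ⟨_, rfl⟩
  obtain ⟨s11, k11⟩ : ∃ a, a = F.h1 (S F.x1) := ⟨_, rfl⟩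
  obtain ⟨s12, k12⟩ : ∃ a, a = F.h1 (S F.x2) := ⟨_, rfl⟩
  obtain ⟨s21, k21⟩ : ∃ a, a = F.h2 (S F.x1) := ⟨_, rfl⟩
  obtain ⟨s22, k22⟩ : ∃ a, a = F.h2 (S F.x2) := ⟨_, rfl⟩
  have hco : ff (F.co T) (F.co S) = (t12 * s21 - s12 * t21) ^ 2 +
      4 * ((t11 - t22) / 2 * s12 - (s11 - s22) / 2 * t12) *
        (t21 * ((s11 - s22) / 2) - s21 * ((t11 - t22) / 2)) := by
    simp only [ff, co, h11, h12, h21, h22, k11, k12, k21, k22]
  rw [← h11, ← h21] at t1
  rw [← h12, ← h22] at t2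
  rw [← k11, ← k21] at s1
  rw [← k12, ← k22] at s2
  rw [hco]
  have c1 : (T * S - S * T) F.x1 = (t12 * s21 - s12 * t21) • F.x1 +
      (t21 * (s11 - s22) - s21 * (t11 - t22)) • F.x2 := by
    simp only [sub_apply, mul_apply_eq_comp, ← t1, ← s1, map_add, map_smul, ← t2, ← s2]
    module
  have c2 : (T * S - S * T) F.x2 = ((t11 - t22) * s12 - (s11 - s22) * t12) • F.x1 -
      (t12 * s21 - s12 * t21) • F.x2 := by
    simp only [sub_apply, mul_apply_eq_comp, ← t1, ← s1, map_add, map_smul, ← t2, ← s2]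
    module
  apply F.ext_op
  · rw [mul_apply_eq_comp, c1, map_add, map_smul, map_smul, c1, c2, smul_apply, one_apply_eq_self]
    module
  · rw [mul_apply_eq_comp, c2, map_sub, map_smul, map_smul, c1, c2, smul_apply, one_apply_eq_self]
    module

theorem comm_trace (T S : X →L[ℂ] X) :
    F.h1 ((T * S - S * T) F.x1) + F.h2 ((T * S - S * T) F.x2) = 0 := by
  have t1 := F.span (T F.x1)
  have t2 := F.span (T F.x2)
  have s1 := F.span (S F.x1)
  have s2 := F.span (S F.x2)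
  have a1 : F.h1 (T (S F.x1)) = F.h1 (S F.x1) * F.h1 (T F.x1) + F.h2 (S F.x1) * F.h1 (T F.x2) := by
    conv_lhs => rw [← s1]
    simp
  have a2 : F.h2 (T (S F.x2)) = F.h1 (S F.x2) * F.h2 (T F.x1) + F.h2 (S F.x2) * F.h2 (T F.x2) := by
    conv_lhs => rw [← s2]
    simp
  have a3 : F.h1 (S (T F.x1)) = F.h1 (T F.x1) * F.h1 (S F.x1) + F.h2 (T F.x1) * F.h1 (S F.x2) := by
    conv_lhs => rw [← t1]
    simp
  have a4 : F.h2 (S (T F.x2)) = F.h1 (T F.x2) * F.h2 (S F.x1) + F.h2 (T F.x2) * F.h2 (S F.x2) := by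
    conv_lhs => rw [← t2]
    simp
  simp only [sub_apply, mul_apply_eq_comp, map_sub, a1, a2, a3, a4]
  ring

theorem mem_spectrum_comm (T S : X →L[ℂ] X) (z : ℂ) :
    z ∈ spectrum ℂ (T * S - S * T) ↔ z ^ 2 = ff (F.co T) (F.co S) := by
  have hsq := F.comm_sq T S
  have htr := F.comm_trace T S
  obtain ⟨C, hC⟩ : ∃ C, C = T * S - S * T := ⟨_, rfl⟩
  obtain ⟨w, hw⟩ : ∃ w, w = ff (F.co T) (F.co S) := ⟨_, rfl⟩
  rw [← hC] at hsq htr ⊢
  rw [← hw] at hsq ⊢
  rw [spectrum.mem_iff, Algebra.algebraMap_eq_smul_one]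
  have p1 : (z • 1 - C) * (z • 1 + C) = (z ^ 2 - w) • (1 : X →L[ℂ] X) := by
    simp only [sub_mul, mul_add, smul_mul_assoc, mul_smul_comm, one_mul, mul_one, hsq]
    module
  have p2 : (z • 1 + C) * (z • 1 - C) = (z ^ 2 - w) • (1 : X →L[ℂ] X) := by
    simp only [add_mul, mul_sub, smul_mul_assoc, mul_smul_comm, one_mul, mul_one, hsq]
    module
  constructor
  · intro h
    by_contra hne
    have hne' : z ^ 2 - w ≠ 0 := sub_ne_zero.mpr hne
    apply h
    refine isUnit_iff_exists.mpr ⟨(z ^ 2 - w)⁻¹ • (z • 1 + C), ?_, ?_⟩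
    · rw [mul_smul_comm, p1, smul_smul, inv_mul_cancel₀ hne', one_smul]
    · rw [smul_mul_assoc, p2, smul_smul, inv_mul_cancel₀ hne', one_smul]
  · intro h hu
    rw [h, sub_self, zero_smul] at p1
    have h1 : z • 1 + C = 0 := by
      obtain ⟨W, -, hW⟩ := isUnit_iff_exists.mp hu
      calc z • 1 + C = (W * (z • 1 - C)) * (z • 1 + C) := by rw [hW, one_mul]
        _ = 0 := by rw [mul_assoc, p1, mul_zero]
    have h2 : C = (-z) • 1 := by
      rw [neg_smul]
      exact eq_neg_of_add_eq_zero_right h1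
    rw [h2] at htr
    simp [F.e11, F.e22] at htr
    have hz : z = 0 := htr
    rw [h2, hz] at hu
    simp only [zero_smul, neg_zero, sub_zero] at hu
    obtain ⟨W, -, hW⟩ := isUnit_iff_exists.mp hu
    have : F.x1 = 0 := by
      have := congrArg (fun L : X →L[ℂ] X => L F.x1) hW
      simpa using this.symm
    exact F.x1_ne this

theorem eq_of_co {T S : X →L[ℂ] X} {s : ℂ} (h : F.co T = s • F.co S) :
    ∃ c : ℂ, T = s • S + c • 1 := by
  simp only [co, Prod.smul_mk, Prod.mk.injEq, smul_eq_mul] at h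
  obtain ⟨h1, h2, h3⟩ := h
  refine ⟨F.h1 (T F.x1) - s * F.h1 (S F.x1), F.ext_op ?_ ?_⟩
  · rw [add_apply, smul_apply, smul_apply, one_apply_eq_self]
    linear_combination (norm := module) (-1 : ℂ) • F.span (T F.x1) + s • F.span (S F.x1)
      + h3 • F.x2
  · rw [add_apply, smul_apply, smul_apply, one_apply_eq_self]
    have : F.h2 (T F.x2) = s * F.h2 (S F.x2) + (F.h1 (T F.x1) - s * F.h1 (S F.x1)) := by
      linear_combination (-2 : ℂ) * h1
    linear_combination (norm := module) (-1 : ℂ) • F.span (T F.x2) + s • F.span (S F.x2)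
      + h2 • F.x1 + this • F.x2

end Frame

end Pool.Agent.Lib0bd5b4
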