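import Pool.Agent.Lib_0bd5b4.Struct3

open ContinuousLinearMap Filter Topology

namespace Pool.Agent.Lib0bd5b4

section cont

variable {E : Type*} [NormedAddCommGroup E] [NormedSpace ℂ E] [CompleteSpace E]
  {Y : Type*} [NormedAddCommGroup Y] [NormedSpace ℂ Y] [CompleteSpace Y]

theorem continuous_of_forall_dual (A : E →ₗ[ℂ] Y)
    (h : ∀ g : StrongDual ℂ Y, ∃ b : StrongDual ℂ E, ∀ e, g (A e) = b e) : Continuous A := by
  apply LinearMap.continuous_of_seq_closed_graph
  intro u x y hu hAu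
  rw [SeparatingDual.eq_iff_forall_dual_eq (R := ℂ)]
  intro g
  obtain ⟨b, hb⟩ := h g
  have h1 : Tendsto (fun n => g (A (u n))) atTop (𝓝 (g y)) :=
    (g.continuous.tendsto y).comp hAu
  have h2 : Tendsto (fun n => g (A (u n))) atTop (𝓝 (g (A x))) := by
    simp_rw [hb]
    exact (b.continuous.tendsto x).comp hu
  exact tendsto_nhds_unique h1 h2

theorem exists_clequiv (A : E →ₗ[ℂ] Y)
    (h : ∀ g : StrongDual ℂ Y, ∃ b : StrongDual ℂ E, ∀ e, g (A e) = b e)
    (hinj : ∀ e, A e = 0 → e = 0) (hsurj : Function.Surjective A) :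
    ∃ A' : E ≃L[ℂ] Y, ∀ e, A' e = A e := by
  have hinj' : Function.Injective A := (injective_iff_map_eq_zero A).mpr hinj
  let e := LinearEquiv.ofBijective A ⟨hinj', hsurj⟩
  exact ⟨e.toContinuousLinearEquivOfContinuous (continuous_of_forall_dual A h), fun _ => rfl⟩

end cont

section pairing

variable {X : Type*} [NormedAddCommGroup X] [NormedSpace ℂ X]
  {Y : Type*} [NormedAddCommGroup Y] [NormedSpace ℂ Y]

/-- A bilinear form on `X × X*` vanishing where the canonical pairing vanishes is a multiple of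
it. -/
theorem exists_pairing_const (β : X →ₗ[ℂ] StrongDual ℂ X →ₗ[ℂ] ℂ)
    (h : ∀ x f, f x = 0 → β x f = 0) {x0 : X} {f0 : StrongDual ℂ X} (h0 : f0 x0 = 1) :
    ∀ x f, β x f = β x0 f0 * f x := by
  have s1 : ∀ (x x' : X) (f : StrongDual ℂ X), β x f * f x' = β x' f * f x := by
    intro x x' f
    have := h (f x' • x - f x • x') f (by simp; ring)
    rw [map_sub, map_smul, map_smul, LinearMap.sub_apply, LinearMap.smul_apply,
      LinearMap.smul_apply, smul_eq_mul, smul_eq_mul] at this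
    linear_combination this
  have s2 : ∀ (x : X) (f f' : StrongDual ℂ X), β x f * f' x = β x f' * f x := by
    intro x f f'
    have := h x (f' x • f - f x • f') (by simp; ring)
    rw [map_sub, map_smul, map_smul, smul_eq_mul, smul_eq_mul] at this
    linear_combination this
  have s3 : ∀ x', β x' f0 = β x0 f0 * f0 x' := by
    intro x'
    have := s1 x' x0 f0
    rw [h0, mul_one] at this
    exact this
  intro x f
  by_cases hf : ∀ v, f v = 0
  · rw [hf x, mul_zero]
    exact h x f (hf x)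
  push Not at hf
  obtain ⟨x1, hx1⟩ := hf
  obtain ⟨x', e1, e2⟩ : ∃ x', f0 x' ≠ 0 ∧ f x' ≠ 0 := by
    by_cases a : f x0 = 0
    · by_cases b : f0 x1 = 0
      · refine ⟨x0 + x1, ?_, ?_⟩
        · rw [map_add, h0, b, add_zero]; exact one_ne_zero
        · rw [map_add, a, zero_add]; exact hx1
      · exact ⟨x1, b, hx1⟩
    · exact ⟨x0, by rw [h0]; exact one_ne_zero, a⟩
  have t1 : β x' f * f0 x' = β x0 f0 * f0 x' * f x' := by
    rw [s2 x' f f0, s3 x']
  have t2 : β x' f = β x0 f0 * f x' := by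
    apply mul_right_cancel₀ e1
    linear_combination t1
  have t3 := s1 x x' f
  rw [t2] at t3
  apply mul_right_cancel₀ e2
  linear_combination t3

theorem CRel.sq_eq {Γ : (X →L[ℂ] X) → (Y →L[ℂ] Y) → Prop} (h : CRel Γ)
    {ψ : Qt X ≃ₗ[ℂ] Qt Y}
    (hψ : ∀ T T', Γ T T' → ∃ s : ℂ, s * s = 1 ∧ cl T' = s • ψ (cl T))
    {x : X} {f : StrongDual ℂ X} {y : Y} {g : StrongDual ℂ Y}
    (hxy : ψ (cl (rk x f)) = cl (rk y g)) (hfx : f x = 0) (hgy : g y = 0)
    {T : X →L[ℂ] X} {T' : Y →L[ℂ] Y} (hT : Γ T T') : (g (T' y)) ^ 2 = (f (T x)) ^ 2 := by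
  obtain ⟨R', hR'⟩ := h.left (rk x f)
  obtain ⟨s, hs, e⟩ := hψ _ _ hR'
  rw [hxy, ← map_smul, cl_eq_iff] at e
  obtain ⟨c, hc⟩ := e
  have hG : G1 Γ x f (s • y) g := by
    refine ⟨0, c, ?_⟩
    rw [zero_smul, zero_add, ← smul_rk, add_comm, ← hc]
    exact hR'
  have := h.qf_eq hG hT
  rw [qf_of_apply_eq_zero _ _ _ hfx, qf_of_apply_eq_zero _ _ _ (by rw [map_smul, hgy, smul_zero]),
    map_smul, map_smul, smul_eq_mul] at this
  rw [this]
  linear_combination (-(g (T' y)) ^ 2) * hs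

end pairing

section forms

variable {X : Type*} [NormedAddCommGroup X] [NormedSpace ℂ X] [CompleteSpace X]
  {Y : Type*} [NormedAddCommGroup Y] [NormedSpace ℂ Y] [CompleteSpace Y]

/-- The Banach space adjoint, `f ↦ f ∘ T`. -/
noncomputable abbrev adj (T : X →L[ℂ] X) : StrongDual ℂ X →L[ℂ] StrongDual ℂ X :=
  ContinuousLinearMap.precomp ℂ T

omit [CompleteSpace X] in
theorem adj_apply (T : X →L[ℂ] X) (f : StrongDual ℂ X) (x : X) : adj T f x = f (T x) := rfl

/-- conjugation -/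
noncomputable def conj {E : Type*} [NormedAddCommGroup E] [NormedSpace ℂ E] (A : E ≃L[ℂ] Y)
    (T : E →L[ℂ] E) : Y →L[ℂ] Y :=
  (A : E →L[ℂ] Y) ∘L T ∘L (A.symm : Y →L[ℂ] E)

omit [CompleteSpace Y] in
theorem conj_apply {E : Type*} [NormedAddCommGroup E] [NormedSpace ℂ E] (A : E ≃L[ℂ] Y)
    (T : E →L[ℂ] E) (y : Y) : conj A T y = A (T (A.symm y)) := rfl

theorem CRel.forms {Γ : (X →L[ℂ] X) → (Y →L[ℂ] Y) → Prop} (h : CRel Γ)
    (hX : Dim3 X) (hY : Dim3 Y) :
    (∃ (A : X ≃L[ℂ] Y) (κ : ℂ), (κ ^ 2) ^ 2 = 1 ∧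
      ∀ T T', Γ T T' → ∃ s c : ℂ, s * s = 1 ∧ T' = s • (κ • conj A T) + c • 1) ∨
    (∃ (A : StrongDual ℂ X ≃L[ℂ] Y) (κ : ℂ), (κ ^ 2) ^ 2 = 1 ∧
      ∀ T T', Γ T T' → ∃ s c : ℂ, s * s = 1 ∧ T' = s • (κ • conj A (adj T)) + c • 1) := by
  obtain ⟨ψ, hψ⟩ := h.exists_equiv hX hY
  have hR := h.rkEquiv hX hY hψ
  -- base data
  obtain ⟨x0, hx0⟩ : ∃ x : X, x ≠ 0 := by
    obtain ⟨c, hc⟩ := hX 0 0
    exact ⟨c, fun h => hc (by rw [h]; exact Submodule.zero_mem _)⟩
  obtain ⟨f0, hf0⟩ := SeparatingDual.exists_eq_one (R := ℂ) hx0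
  have hf0ne : f0 ≠ 0 := by
    rintro rfl
    simp at hf0
  obtain ⟨y0, hy0⟩ : ∃ y : Y, y ≠ 0 := by
    obtain ⟨c, hc⟩ := hY 0 0
    exact ⟨c, fun h => hc (by rw [h]; exact Submodule.zero_mem _)⟩
  obtain ⟨g0, hg0⟩ := SeparatingDual.exists_eq_one (R := ℂ) hy0
  -- a nonzero nilpotent pair
  obtain ⟨fn, vn, n1, n2, -⟩ := hX.exists_functional_pair f0 hx0 hf0ne
  have hinj : ∀ x f, ψ (cl (rk x f)) = 0 → x = 0 ∨ f = 0 := by
    intro x f h
    rw [LinearEquiv.map_eq_zero_iff] at h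
    have h0 : cl (rk x f) = cl (rk (0 : X) (0 : StrongDual ℂ X)) := by
      rw [h, rk_zero_left, map_zero]
    have h3 := rk_unique hX h0
    rw [rk_zero_left] at h3
    exact rk_eq_zero h3
  have hfnne : fn ≠ 0 := by
    rintro rfl
    simp at n2
  rcases hR.factor hX hY with ⟨A, C, hAC⟩ | ⟨B, D, hBD⟩
  · left
    -- constant
    let β : X →ₗ[ℂ] StrongDual ℂ X →ₗ[ℂ] ℂ :=
      LinearMap.mk₂ ℂ (fun x f => C f (A x)) (by intros; simp) (by intros; simp)
        (by intros; simp) (by intros; simp)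
    have hβ : ∀ x f, β x f = C f (A x) := fun x f => rfl
    have hβ0 : ∀ x f, f x = 0 → β x f = 0 := fun x f hfx => (hR.nil _ _ _ _ (hAC x f)).mp hfx
    set c0 := C f0 (A x0) with hc0
    have hc : ∀ x f, C f (A x) = c0 * f x := exists_pairing_const β hβ0 hf0
    have hc0ne : c0 ≠ 0 := by
      intro h0
      have := (hR.nil _ _ _ _ (hAC x0 f0)).mpr h0
      rw [hf0] at this
      exact one_ne_zero this
    have hAsurj : Function.Surjective A := by
      intro y
      obtain ⟨x, f, hxf⟩ := hR.bwd y g0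
      rw [hAC] at hxf
      have := rk_unique hY hxf
      have := congrArg (fun L : Y →L[ℂ] Y => L y0) this
      simp [hg0] at this
      exact ⟨(C f y0) • x, by rw [map_smul, this]⟩
    have hCsurj : Function.Surjective C := by
      intro g
      obtain ⟨x, f, hxf⟩ := hR.bwd y0 g
      rw [hAC] at hxf
      have := rk_unique hY hxf
      refine ⟨(g0 (A x)) • f, ?_⟩
      ext v
      have := congrArg (fun L : Y →L[ℂ] Y => g0 (L v)) this
      simp [hg0] at this
      rw [map_smul, smul_apply, smul_eq_mul, ← this, mul_comm]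
    have hAinj : ∀ x, A x = 0 → x = 0 := by
      intro x hx
      have : ψ (cl (rk x f0)) = 0 := by rw [hAC, hx, rk_zero_left, map_zero]
      exact (hinj _ _ this).resolve_right hf0ne
    obtain ⟨A', hA'⟩ := exists_clequiv A (fun g => by
      obtain ⟨f, rfl⟩ := hCsurj g
      exact ⟨c0 • f, fun e => by rw [hc]; simp⟩) hAinj hAsurj
    -- the form up to sign
    have hform : ∀ T T', Γ T T' → ∃ s c : ℂ, s * s = 1 ∧ T' = s • (c0⁻¹ • conj A' T) + c • 1 := by
      intro T T' hT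
      apply eq_of_sq_eq
      intro y g hgy
      obtain ⟨x, rfl⟩ := hAsurj y
      obtain ⟨f, rfl⟩ := hCsurj g
      have hfx : f x = 0 := by
        rw [hc] at hgy
        exact (mul_eq_zero.mp hgy).resolve_left hc0ne
      rw [h.sq_eq hψ (hAC x f) hfx hgy hT]
      have : (c0⁻¹ • conj A' T) (A x) = c0⁻¹ • A (T x) := by
        rw [smul_apply, conj_apply, ← hA' x, ContinuousLinearEquiv.symm_apply_apply, hA']
      rw [this, map_smul, hc, smul_eq_mul, ← mul_assoc, inv_mul_cancel₀ hc0ne, one_mul]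
    refine ⟨A', c0⁻¹, ?_, hform⟩
    -- `c0 ^ 4 = 1`
    obtain ⟨T', hT'⟩ := h.left (rk x0 fn)
    obtain ⟨s, c, hs, e1⟩ := hform _ _ hT'
    obtain ⟨t, ht, e2⟩ := hψ _ _ hT'
    rw [hAC] at e2
    have e3 : rk (A x0) (C fn) = c0 • conj A' (rk x0 fn) := by
      ext y
      obtain ⟨x, rfl⟩ := hAsurj y
      rw [rk_apply, hc, smul_apply, conj_apply, ← hA' x, ContinuousLinearEquiv.symm_apply_apply,
        rk_apply, map_smul, hA', smul_smul]
    have e4 : cl (conj A' (rk x0 fn)) ≠ 0 := by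
      intro h0
      have : ψ (cl (rk x0 fn)) = 0 := by rw [hAC, e3, map_smul, h0, smul_zero]
      rcases hinj _ _ this with h | h
      · exact hx0 h
      · exact hfnne h
    rw [e1, e3, map_add, cl_smul_one, add_zero, map_smul, map_smul, map_smul, smul_smul,
      smul_smul] at e2
    have e5 : (s * c0⁻¹ - t * c0) • cl (conj A' (rk x0 fn)) = 0 := by
      rw [sub_smul, e2, sub_self]
    have e6 := (smul_eq_zero.mp e5).resolve_right e4
    have e7 : s = t * c0 ^ 2 := by
      field_simp at e6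
      linear_combination e6
    have e8 : (c0 ^ 2) ^ 2 = 1 := by
      have h1 : (t * c0 ^ 2) * (t * c0 ^ 2) = 1 := by rw [← e7]; exact hs
      linear_combination h1 - (c0 ^ 2) ^ 2 * ht
    rw [inv_pow, inv_pow, e8, inv_one]
  · right
    let β : X →ₗ[ℂ] StrongDual ℂ X →ₗ[ℂ] ℂ :=
      LinearMap.mk₂ ℂ (fun x f => D x (B f)) (by intros; simp) (by intros; simp)
        (by intros; simp) (by intros; simp)
    have hβ : ∀ x f, β x f = D x (B f) := fun x f => rfl
    have hβ0 : ∀ x f, f x = 0 → β x f = 0 := fun x f hfx => (hR.nil _ _ _ _ (hBD x f)).mp hfx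
    set c0 := D x0 (B f0) with hc0
    have hc : ∀ x f, D x (B f) = c0 * f x := exists_pairing_const β hβ0 hf0
    have hc0ne : c0 ≠ 0 := by
      intro h0
      have := (hR.nil _ _ _ _ (hBD x0 f0)).mpr h0
      rw [hf0] at this
      exact one_ne_zero this
    have hBsurj : Function.Surjective B := by
      intro y
      obtain ⟨x, f, hxf⟩ := hR.bwd y g0
      rw [hBD] at hxf
      have := rk_unique hY hxf
      have := congrArg (fun L : Y →L[ℂ] Y => L y0) this
      simp [hg0] at this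
      exact ⟨(D x y0) • f, by rw [map_smul, this]⟩
    have hDsurj : Function.Surjective D := by
      intro g
      obtain ⟨x, f, hxf⟩ := hR.bwd y0 g
      rw [hBD] at hxf
      have := rk_unique hY hxf
      refine ⟨(g0 (B f)) • x, ?_⟩
      ext v
      have := congrArg (fun L : Y →L[ℂ] Y => g0 (L v)) this
      simp [hg0] at this
      rw [map_smul, smul_apply, smul_eq_mul, ← this, mul_comm]
    have hBinj : ∀ f, B f = 0 → f = 0 := by
      intro f hf
      have : ψ (cl (rk x0 f)) = 0 := by rw [hBD, hf, rk_zero_left, map_zero]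
      exact (hinj _ _ this).resolve_left hx0
    obtain ⟨B', hB'⟩ := exists_clequiv B (fun g => by
      obtain ⟨x, rfl⟩ := hDsurj g
      exact ⟨c0 • ContinuousLinearMap.apply ℂ ℂ x, fun e => by rw [hc]; simp⟩) hBinj hBsurj
    have hform : ∀ T T', Γ T T' →
        ∃ s c : ℂ, s * s = 1 ∧ T' = s • (c0⁻¹ • conj B' (adj T)) + c • 1 := by
      intro T T' hT
      apply eq_of_sq_eq
      intro y g hgy
      obtain ⟨f, rfl⟩ := hBsurj y
      obtain ⟨x, rfl⟩ := hDsurj g
      have hfx : f x = 0 := by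
        rw [hc] at hgy
        exact (mul_eq_zero.mp hgy).resolve_left hc0ne
      rw [h.sq_eq hψ (hBD x f) hfx hgy hT]
      have : (c0⁻¹ • conj B' (adj T)) (B f) = c0⁻¹ • B (adj T f) := by
        rw [smul_apply, conj_apply, ← hB' f, ContinuousLinearEquiv.symm_apply_apply, hB']
      rw [this, map_smul, hc, smul_eq_mul, ← mul_assoc, inv_mul_cancel₀ hc0ne, one_mul, adj_apply]
    refine ⟨B', c0⁻¹, ?_, hform⟩
    obtain ⟨T', hT'⟩ := h.left (rk x0 fn)
    obtain ⟨s, c, hs, e1⟩ := hform _ _ hT'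
    obtain ⟨t, ht, e2⟩ := hψ _ _ hT'
    rw [hBD] at e2
    have e3 : rk (B fn) (D x0) = c0 • conj B' (adj (rk x0 fn)) := by
      ext y
      obtain ⟨f, rfl⟩ := hBsurj y
      have e4 : adj (rk x0 fn) f = f x0 • fn := by
        ext v
        rw [adj_apply, rk_apply, map_smul, smul_apply, smul_eq_mul, smul_eq_mul, mul_comm]
      rw [rk_apply, hc, smul_apply, conj_apply, ← hB' f, ContinuousLinearEquiv.symm_apply_apply,
        e4, map_smul, hB', smul_smul]
    have e4 : cl (conj B' (adj (rk x0 fn))) ≠ 0 := by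
      intro h0
      have : ψ (cl (rk x0 fn)) = 0 := by rw [hBD, e3, map_smul, h0, smul_zero]
      rcases hinj _ _ this with h | h
      · exact hx0 h
      · exact hfnne h
    rw [e1, e3, map_add, cl_smul_one, add_zero, map_smul, map_smul, map_smul, smul_smul,
      smul_smul] at e2
    have e5 : (s * c0⁻¹ - t * c0) • cl (conj B' (adj (rk x0 fn))) = 0 := by
      rw [sub_smul, e2, sub_self]
    have e6 := (smul_eq_zero.mp e5).resolve_right e4
    have e7 : s = t * c0 ^ 2 := by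
      field_simp at e6
      linear_combination e6
    have e8 : (c0 ^ 2) ^ 2 = 1 := by
      have h1 : (t * c0 ^ 2) * (t * c0 ^ 2) = 1 := by rw [← e7]; exact hs
      linear_combination h1 - (c0 ^ 2) ^ 2 * ht
    rw [inv_pow, inv_pow, e8, inv_one]

end forms

end Pool.Agent.Lib0bd5b4
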