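import Pool.Agent.Lib_0bd5b4.Dim2a
import Pool.Agent.Lib_0bd5b4.Dim2b
import Pool.Agent.Lib_0bd5b4.Forms

open ContinuousLinearMap Filter Topology

namespace Pool.Agent.Lib0bd5b4

variable {X : Type*} [NormedAddCommGroup X] [NormedSpace ℂ X]
  {Y : Type*} [NormedAddCommGroup Y] [NormedSpace ℂ Y]

namespace Frame

/-- the equivalence matching two frames -/
noncomputable def equiv (F : Frame X) (G : Frame Y) : X ≃L[ℂ] Y :=
  ContinuousLinearEquiv.equivOfInverse (F.h1.smulRight G.x1 + F.h2.smulRight G.x2)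
    (G.h1.smulRight F.x1 + G.h2.smulRight F.x2)
    (fun v => by
      simp [G.e11, G.e12, G.e21, G.e22, F.span])
    (fun v => by
      simp [F.e11, F.e12, F.e21, F.e22, G.span])

theorem equiv_symm_x1 (F : Frame X) (G : Frame Y) : (F.equiv G).symm G.x1 = F.x1 := by
  change (G.h1.smulRight F.x1 + G.h2.smulRight F.x2) G.x1 = F.x1
  simp [G.e11, G.e21]

theorem equiv_symm_x2 (F : Frame X) (G : Frame Y) : (F.equiv G).symm G.x2 = F.x2 := by
  change (G.h1.smulRight F.x1 + G.h2.smulRight F.x2) G.x2 = F.x2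
  simp [G.e12, G.e22]

theorem h1_equiv (F : Frame X) (G : Frame Y) (v : X) : G.h1 (F.equiv G v) = F.h1 v := by
  change G.h1 ((F.h1.smulRight G.x1 + F.h2.smulRight G.x2) v) = F.h1 v
  simp [G.e11, G.e12]

theorem h2_equiv (F : Frame X) (G : Frame Y) (v : X) : G.h2 (F.equiv G v) = F.h2 v := by
  change G.h2 ((F.h1.smulRight G.x1 + F.h2.smulRight G.x2) v) = F.h2 v
  simp [G.e21, G.e22]

theorem co_conj (F : Frame X) (G : Frame Y) (T : X →L[ℂ] X) :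
    G.co (conj (F.equiv G) T) = F.co T := by
  simp only [co, conj_apply, equiv_symm_x1, equiv_symm_x2, h1_equiv, h2_equiv]

/-- the rotated dual frame -/
noncomputable def dual (F : Frame X) : Frame (StrongDual ℂ X) where
  x1 := F.h2
  x2 := -F.h1
  h1 := ContinuousLinearMap.apply ℂ ℂ F.x2
  h2 := -ContinuousLinearMap.apply ℂ ℂ F.x1
  e11 := by simp [F.e22]
  e12 := by simp [F.e12]
  e21 := by simp [F.e21]
  e22 := by simp [F.e11]
  span := by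
    intro φ
    ext v
    have := congrArg φ (F.span v)
    rw [map_add, map_smul, map_smul] at this
    simp at this ⊢
    linear_combination this

theorem co_dual (F : Frame X) (T : X →L[ℂ] X) : F.dual.co (adj T) = -F.co T := by
  simp only [co, dual, Prod.neg_mk, Prod.mk.injEq]
  refine ⟨?_, ?_, ?_⟩
  · simp
    ring
  · simp
  · simp

theorem nn_co_rk (F : Frame X) (c : ℂ) (u : X) (h : StrongDual ℂ X) :
    nn (F.co (c • 1 + rk u h)) = (h u / 2) ^ 2 := by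
  have e := congrArg h (F.span u)
  simp only [map_add, map_smul, smul_eq_mul] at e
  rw [← e]
  simp [nn, co, F.e11, F.e12, F.e21, F.e22]
  ring

/-- rescaled frame -/
noncomputable def rescale (F : Frame X) (τ : ℂ) (hτ : τ ≠ 0) : Frame X where
  x1 := F.x1
  x2 := τ • F.x2
  h1 := F.h1
  h2 := τ⁻¹ • F.h2
  e11 := F.e11
  e12 := by simp [F.e12]
  e21 := by simp [F.e21]
  e22 := by simp [F.e22, hτ]
  span := by
    intro v
    rw [smul_apply, smul_smul, smul_eq_mul]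
    rw [show τ⁻¹ * F.h2 v * τ = F.h2 v by field_simp]
    exact F.span v

theorem co_rescale (F : Frame X) (τ : ℂ) (hτ : τ ≠ 0) (T : X →L[ℂ] X) :
    (F.rescale τ hτ).co T = ((F.co T).1, τ * (F.co T).2.1, τ⁻¹ * (F.co T).2.2) := by
  simp only [co, rescale, map_smul, smul_apply, smul_eq_mul, Prod.mk.injEq, and_true]
  field_simp

end Frame

theorem CRel.ff_eq {Γ : (X →L[ℂ] X) → (Y →L[ℂ] Y) → Prop} (h : CRel Γ) (F : Frame X)
    (G : Frame Y) {T S : X →L[ℂ] X} {T' S' : Y →L[ℂ] Y} (hT : Γ T T') (hS : Γ S S') :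
    ff (F.co T) (F.co S) = ff (G.co T') (G.co S') := by
  obtain ⟨z, hz⟩ := IsAlgClosed.exists_pow_nat_eq (ff (F.co T) (F.co S)) (n := 2) (by norm_num)
  have h1 := (F.mem_spectrum_comm T S z).mpr hz
  rw [h.spec _ _ _ _ hT hS, G.mem_spectrum_comm] at h1
  rw [← hz, h1]

theorem CRel.rrel {Γ : (X →L[ℂ] X) → (Y →L[ℂ] Y) → Prop} (h : CRel Γ) (F : Frame X)
    (G : Frame Y) {ω : ℂ} (hω : ω ^ 4 = 1) :
    RRel (fun v w => ∃ T T', Γ T T' ∧ F.co T = v ∧ ω • G.co T' = w) := by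
  have hω0 : ω ≠ 0 := by
    rintro rfl
    norm_num at hω
  refine ⟨?_, ?_, ?_⟩
  · intro v
    obtain ⟨T, hT⟩ := F.co_surj v
    obtain ⟨T', hT'⟩ := h.left T
    exact ⟨_, T, T', hT', hT, rfl⟩
  · intro w
    obtain ⟨T', hT'⟩ := G.co_surj (ω⁻¹ • w)
    obtain ⟨T, hT⟩ := h.right T'
    exact ⟨_, T, T', hT, rfl, by rw [hT', smul_smul, mul_inv_cancel₀ hω0, one_smul]⟩
  · rintro v w v' w' ⟨T, T', hT, rfl, rfl⟩ ⟨S, S', hS, rfl, rfl⟩
    rw [ff_smul_left, ff_smul_right, h.ff_eq F G hT hS]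
    linear_combination (-ff (G.co T') (G.co S')) * hω

theorem CRel.frame2 {Γ : (X →L[ℂ] X) → (Y →L[ℂ] Y) → Prop} (h : CRel Γ)
    (hY : ¬ Dim3 Y) (F : Frame X) (G0 : Frame Y) :
    ∃ (G : Frame Y) (ω : ℂ), ω ^ 4 = 1 ∧ ∀ T T', Γ T T' →
      ω • G.co T' = F.co T ∨ ω • G.co T' = -F.co T := by
  have hR0 := h.rrel F G0 (ω := 1) (by norm_num)
  -- partner of `e`
  obtain ⟨E', hE⟩ := h.left ((0 : ℂ) • 1 + rk F.x1 F.h2)
  obtain ⟨c, u, k, rfl⟩ := exists_rk_of_not_dim3 hY E'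
  have hcoE : F.co ((0 : ℂ) • 1 + rk F.x1 F.h2) = (0, 1, 0) := by
    simp [Frame.co, F.e11, F.e21, F.e22]
  have hku : k u = 0 := by
    have := hR0.nn_eq ⟨_, _, hE, hcoE, rfl⟩ (by simp) (by simp [nn])
    rw [one_smul, G0.nn_co_rk] at this
    simpa using this
  -- partner of `f`
  obtain ⟨E2, hF⟩ := h.left ((0 : ℂ) • 1 + rk F.x2 F.h1)
  obtain ⟨d, w, g, rfl⟩ := exists_rk_of_not_dim3 hY E2
  have hcoF : F.co ((0 : ℂ) • 1 + rk F.x2 F.h1) = (0, 0, 1) := by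
    simp [Frame.co, F.e11, F.e12, F.e22]
  have hgw : g w = 0 := by
    have := hR0.nn_eq ⟨_, _, hF, hcoF, rfl⟩ (by simp) (by simp [nn])
    rw [one_smul, G0.nn_co_rk] at this
    simpa using this
  have hs : (k w * g u) ^ 2 = 1 := by
    have := h.qf_eq ⟨0, d, hF⟩ hE
    simp [qf, F.e11, F.e12, F.e22, hgw, hku] at this
    rw [← this]
  have hkw : k w ≠ 0 := by
    intro h0
    rw [h0] at hs
    norm_num at hs
  have hgu : g u ≠ 0 := by
    intro h0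
    rw [h0] at hs
    norm_num at hs
  obtain ⟨G1, hG1⟩ : ∃ G1 : Frame Y, G1.x1 = k w • u ∧ G1.x2 = w ∧
      G1.h1 = (k w * g u)⁻¹ • g ∧ G1.h2 = (k w)⁻¹ • k :=
    ⟨Frame.mk' hY (k w • u) w ((k w * g u)⁻¹ • g) ((k w)⁻¹ • k)
      (by simp; field_simp) (by simp [hgw]) (by simp [hku]) (by simp [hkw]), rfl, rfl, rfl, rfl⟩
  obtain ⟨g1, g2, g3, g4⟩ := hG1
  have hcoE' : G1.co (c • 1 + rk u k) = (0, 1, 0) := by
    simp [Frame.co, g1, g2, g3, g4, hku, hgw]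
    constructor
    · field_simp
      ring
    · field_simp
  have hcoF' : G1.co (d • 1 + rk w g) = (0, 0, k w * g u) := by
    simp [Frame.co, g1, g2, g3, g4, hku, hgw]
    constructor
    · field_simp
      ring
    · field_simp
  -- partner of `g`
  obtain ⟨E3, hE3⟩ := h.left (rk (F.x1 - F.x2) (F.h1 + F.h2))
  have hco3 : F.co (rk (F.x1 - F.x2) (F.h1 + F.h2)) = (1, 1, -1) := by
    simp [Frame.co, F.e11, F.e12, F.e21, F.e22]
  have hR1 := h.rrel F G1 (ω := 1) (by norm_num)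
  have hnn := hR1.nn_eq ⟨_, _, hE3, hco3, rfl⟩ (by simp) (by simp [nn])
  have i1 := h.ff_eq F G1 hE hE3
  have i2 := h.ff_eq F G1 hF hE3
  rw [hcoE, hco3, hcoE'] at i1
  rw [hcoF, hco3, hcoF'] at i2
  rw [one_smul] at hnn
  obtain ⟨a, ha⟩ : ∃ a, a = (G1.co E3).1 := ⟨_, rfl⟩
  obtain ⟨b, hb⟩ : ∃ b, b = (G1.co E3).2.1 := ⟨_, rfl⟩
  obtain ⟨e, he⟩ : ∃ e, e = (G1.co E3).2.2 := ⟨_, rfl⟩
  simp only [nn, ff, ← ha, ← hb, ← he] at hnn i1 i2
  have he2 : e ^ 2 = 1 := by linear_combination -i1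
  have hb2 : b ^ 2 = 1 := by linear_combination -i2 - b ^ 2 * hs
  have ha4 : a ^ 4 = 1 := by
    have : a ^ 2 = -(b * e) := by linear_combination hnn
    calc a ^ 4 = (a ^ 2) ^ 2 := by ring
      _ = b ^ 2 * e ^ 2 := by rw [this]; ring
      _ = 1 := by rw [hb2, he2]; ring
  have ha0 : a ≠ 0 := by
    rintro rfl
    norm_num at ha4
  have hb0 : b ≠ 0 := by
    rintro rfl
    norm_num at hb2
  refine ⟨G1.rescale (a * b) (mul_ne_zero ha0 hb0), a, ha4, ?_⟩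
  have hR2 := h.rrel F (G1.rescale (a * b) (mul_ne_zero ha0 hb0)) ha4
  intro T T' hT
  refine final_sign hR2 ?_ ⟨T, T', hT, rfl, rfl⟩
  rintro v w ⟨T, T', hT, rfl, rfl⟩
  have j1 := h.ff_eq F (G1.rescale (a * b) (mul_ne_zero ha0 hb0)) hE hT
  have j2 := h.ff_eq F (G1.rescale (a * b) (mul_ne_zero ha0 hb0)) hF hT
  have j3 := h.ff_eq F (G1.rescale (a * b) (mul_ne_zero ha0 hb0)) hE3 hT
  rw [G1.co_rescale _ _ (c • 1 + rk u k), hcoE, hcoE'] at j1
  rw [G1.co_rescale _ _ (d • 1 + rk w g), hcoF, hcoF'] at j2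
  rw [G1.co_rescale _ _ E3, hco3, ← ha, ← hb, ← he] at j3
  have e3 : (a * b)⁻¹ * e = -a := by
    field_simp
    linear_combination b * hnn - e * hb2
  have e2 : a * b * b = a := by linear_combination a * hb2
  rw [e2, e3] at j3
  obtain ⟨t, ht⟩ : ∃ t, t = (a * b)⁻¹ := ⟨_, rfl⟩
  have ht1 : t * (a * b) = 1 := by
    rw [ht]
    exact inv_mul_cancel₀ (mul_ne_zero ha0 hb0)
  have ht2 : t ^ 2 = a ^ 2 := by
    have k1 : t ^ 2 * a ^ 2 = 1 := by
      linear_combination (t * (a * b) + 1) * ht1 - (t ^ 2 * a ^ 2) * hb2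
    linear_combination a ^ 2 * k1 - t ^ 2 * ha4
  rw [← ht] at j1 j2
  simp only [ff] at j1 j2 j3
  simp only [Prod.smul_fst, Prod.smul_snd, smul_eq_mul]
  obtain ⟨A, hA⟩ : ∃ A, A = ((G1.rescale (a * b) (mul_ne_zero ha0 hb0)).co T').1 := ⟨_, rfl⟩
  obtain ⟨B, hB⟩ : ∃ B, B = ((G1.rescale (a * b) (mul_ne_zero ha0 hb0)).co T').2.1 := ⟨_, rfl⟩
  obtain ⟨C, hC⟩ : ∃ C, C = ((G1.rescale (a * b) (mul_ne_zero ha0 hb0)).co T').2.2 := ⟨_, rfl⟩
  rw [← hA, ← hB, ← hC] at j1 j2 j3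
  rw [← hA, ← hB, ← hC]
  refine ⟨?_, ?_, ?_⟩
  · linear_combination (-1 : ℂ) * j2 - (t ^ 2 * B ^ 2) * hs - B ^ 2 * ht2
  · linear_combination (-1 : ℂ) * j1 - (a ^ 2 * C ^ 2) * hb2
  · linear_combination (-1 : ℂ) * j3

/-- The classification in dimension two. -/
theorem CRel.forms2 {Γ : (X →L[ℂ] X) → (Y →L[ℂ] Y) → Prop} (h : CRel Γ)
    (hY : ¬ Dim3 Y) (F : Frame X) (G0 : Frame Y) :
    (∃ A : X ≃L[ℂ] Y, ∀ T T', Γ T T' → ∃ s c : ℂ, s * s = 1 ∧ T' = s • conj A T + c • 1) ∨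
    (∃ A : StrongDual ℂ X ≃L[ℂ] Y, ∀ T T', Γ T T' → ∃ s c : ℂ, s * s = 1 ∧
      T' = (Complex.I * s) • conj A (adj T) + c • 1) := by
  obtain ⟨G, ω, hω, hG⟩ := h.frame2 hY F G0
  have hω0 : ω ≠ 0 := by
    rintro rfl
    norm_num at hω
  have hform : ∀ T T', Γ T T' → ∃ s : ℂ, s * s = 1 ∧ G.co T' = (s * ω⁻¹) • F.co T := by
    intro T T' hT
    have hinv : G.co T' = ω⁻¹ • (ω • G.co T') := by
      rw [smul_smul, inv_mul_cancel₀ hω0, one_smul]
    rcases hG T T' hT with h1 | h1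
    · exact ⟨1, by ring, by rw [hinv, h1, one_mul]⟩
    · exact ⟨-1, by ring, by rw [hinv, h1, ← neg_one_smul ℂ (F.co T), smul_smul, mul_comm]⟩
  have hcase : (ω ^ 2 - 1) * (ω ^ 2 + 1) = 0 := by linear_combination hω
  rcases mul_eq_zero.mp hcase with h2 | h2
  · left
    refine ⟨F.equiv G, fun T T' hT => ?_⟩
    obtain ⟨s, hs, hs'⟩ := hform T T' hT
    rw [← F.co_conj G T] at hs'
    obtain ⟨c, hc⟩ := G.eq_of_co hs'
    have e1 : ω⁻¹ * ω⁻¹ = 1 := by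
      field_simp
      linear_combination -h2
    exact ⟨_, c, sign_mul hs e1, hc⟩
  · right
    refine ⟨F.dual.equiv G, fun T T' hT => ?_⟩
    obtain ⟨s, hs, hs'⟩ := hform T T' hT
    have e0 : F.co T = -G.co (conj (F.dual.equiv G) (adj T)) := by
      rw [F.dual.co_conj, F.co_dual, neg_neg]
    rw [e0, ← neg_one_smul ℂ (G.co _), smul_smul] at hs'
    obtain ⟨c, hc⟩ := G.eq_of_co hs'
    have e1 : ω⁻¹ * ω⁻¹ = -1 := by
      field_simp
      linear_combination h2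
    have hI := Complex.I_mul_I
    refine ⟨Complex.I * (s * ω⁻¹), c, ?_, ?_⟩
    · linear_combination (s * s * (ω⁻¹ * ω⁻¹)) * hI - (s * s) * e1 + hs
    · rw [hc]
      congr 2
      linear_combination (-(s * ω⁻¹)) * hI

end Pool.Agent.Lib0bd5b4
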