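import Pool.Agent.Lib_0bd5b4.Conn3

open ContinuousLinearMap Filter Topology

namespace Pool.Agent.Lib0bd5b4

section lift

variable {X : Type*} [NormedAddCommGroup X] [NormedSpace ℂ X]
  {E : Type*} [NormedAddCommGroup E] [NormedSpace ℂ E]

/-- The block operator `(u,v) ↦ (U u + F v, - U v)`. -/
noncomputable def blk (U F : E →L[ℂ] E) : (E × E) →L[ℂ] (E × E) :=
  (U ∘L ContinuousLinearMap.fst ℂ E E + F ∘L ContinuousLinearMap.snd ℂ E E).prod
    (-(U ∘L ContinuousLinearMap.snd ℂ E E))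

theorem blk_apply (U F : E →L[ℂ] E) (u v : E) : blk U F (u, v) = (U u + F v, -U v) := rfl

theorem lift_example {N : X →L[ℂ] X} (hN : N * N = 0) (j : E →L[ℂ] X) (π : X →L[ℂ] E)
    (hπ : ∀ a, π (N (j a)) = a) (U F : E →L[ℂ] E) {z : ℂ} (hz : z ≠ 0)
    (h1 : z ∈ spectrum ℂ (blk U F)) (h2 : -z ∉ spectrum ℂ (blk U F)) :
    ∃ S : X →L[ℂ] X, z ∈ spectrum ℂ (N * S - S * N) ∧ -z ∉ spectrum ℂ (N * S - S * N) := by
  have hNN : ∀ v, N (N v) = 0 := fun v => congrArg (fun L => L v) hN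
  let Φ : (E × E) →L[ℂ] X := (N ∘L j).coprod j
  let Ψ : X →L[ℂ] (E × E) := (π - (π ∘L j) ∘L (π ∘L N)).prod (π ∘L N)
  let S0 : (E × E) →L[ℂ] (E × E) :=
    (0 : (E × E) →L[ℂ] E).prod (U ∘L ContinuousLinearMap.fst ℂ E E +
      F ∘L ContinuousLinearMap.snd ℂ E E)
  have hΦ : ∀ a b, Φ (a, b) = N (j a) + j b := fun a b => rfl
  have hΨ : ∀ x, Ψ x = (π x - π (j (π (N x))), π (N x)) := fun x => rfl
  have hS0 : ∀ a b, S0 (a, b) = (0, U a + F b) := fun a b => rfl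
  have hΨΦ : Ψ ∘L Φ = 1 := by
    apply ContinuousLinearMap.ext
    rintro ⟨a, b⟩
    rw [ContinuousLinearMap.comp_apply, hΦ, hΨ, one_apply_eq_self]
    simp [hNN, hπ]
  have hC : N * (Φ ∘L S0 ∘L Ψ) - (Φ ∘L S0 ∘L Ψ) * N = Φ ∘L (blk U F ∘L Ψ) := by
    ext x
    rw [sub_apply, mul_apply_eq_comp, mul_apply_eq_comp]
    simp only [ContinuousLinearMap.comp_apply]
    rw [hΨ, hΨ, hS0, hS0, hΦ, hΦ, blk_apply, hΦ]
    simp [hNN]
    abel
  have key : ∀ w : ℂ, w ≠ 0 → (w ∈ spectrum ℂ (Φ ∘L (blk U F ∘L Ψ)) ↔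
      w ∈ spectrum ℂ (blk U F)) := by
    intro w hw
    rw [spectrum.mem_iff, spectrum.mem_iff, Algebra.algebraMap_eq_smul_one,
      Algebra.algebraMap_eq_smul_one, isUnit_sub_comp_iff Φ (blk U F ∘L Ψ) hw,
      ContinuousLinearMap.comp_assoc, hΨΦ]
    rfl
  refine ⟨Φ ∘L S0 ∘L Ψ, ?_, ?_⟩
  · rw [hC, key z hz]
    exact h1
  · rw [hC, key (-z) (neg_ne_zero.mpr hz)]
    exact h2

end lift

section shift

variable {E : Type*} [NormedAddCommGroup E] [NormedSpace ℂ E]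

theorem shift_example (L R : E →L[ℂ] E) (hLR : ∀ v, L (R v) = v) {p : E} (hp : p ≠ 0)
    (hLp : L p = 0) (V W : E →L[ℂ] E) (hV1 : ∀ v, (2 : ℂ) • V v - L (V v) = v)
    (hV2 : ∀ v, V ((2 : ℂ) • v - L v) = v) (hW1 : ∀ v, (2 : ℂ) • W v + R (W v) = v)
    (hW2 : ∀ v, W ((2 : ℂ) • v + R v) = v) :
    ∃ U F : (E × E) →L[ℂ] (E × E), (-1 : ℂ) ∈ spectrum ℂ (blk U F) ∧
      (-(-1) : ℂ) ∉ spectrum ℂ (blk U F) := by
  let U : (E × E) →L[ℂ] (E × E) := (1 + R).prodMap (-1 + L)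
  let F : (E × E) →L[ℂ] (E × E) :=
    ((1 - R ∘L L) ∘L ContinuousLinearMap.snd ℂ E E).prod 0
  have hU : ∀ a b, U (a, b) = (a + R a, -b + L b) := fun a b => rfl
  have hF : ∀ a b, F (a, b) = (b - R (L b), 0) := fun a b => rfl
  refine ⟨U, F, ?_, ?_⟩
  · apply mem_spectrum_of_eigen (v := ((0, p), (0, 0)))
    · simp [hp]
    · rw [blk_apply, hU, hF, hU]
      simp [hLp]
  · rw [neg_neg, spectrum.mem_iff, Algebra.algebraMap_eq_smul_one, not_not, one_smul]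
    let fst2 : ((E × E) × (E × E)) →L[ℂ] E :=
      ContinuousLinearMap.fst ℂ E E ∘L ContinuousLinearMap.fst ℂ (E × E) (E × E)
    let snd2 : ((E × E) × (E × E)) →L[ℂ] E :=
      ContinuousLinearMap.snd ℂ E E ∘L ContinuousLinearMap.fst ℂ (E × E) (E × E)
    let trd2 : ((E × E) × (E × E)) →L[ℂ] E :=
      ContinuousLinearMap.fst ℂ E E ∘L ContinuousLinearMap.snd ℂ (E × E) (E × E)
    let fth2 : ((E × E) × (E × E)) →L[ℂ] E :=
      ContinuousLinearMap.snd ℂ E E ∘L ContinuousLinearMap.snd ℂ (E × E) (E × E)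
    let Z : ((E × E) × (E × E)) →L[ℂ] ((E × E) × (E × E)) :=
      ((-(L ∘L fst2)).prod (V ∘L snd2)).prod ((W ∘L trd2).prod (R ∘L fth2 -
        (1 - R ∘L L) ∘L fst2))
    have hZ : ∀ a b c d, Z ((a, b), (c, d)) = ((-L a, V b), (W c, R d - (a - R (L a)))) :=
      fun a b c d => rfl
    refine isUnit_iff_exists.mpr ⟨Z, ?_, ?_⟩
    · apply ContinuousLinearMap.ext
      rintro ⟨⟨a, b⟩, ⟨c, d⟩⟩
      rw [mul_apply_eq_comp, hZ, sub_apply, one_apply_eq_self, one_apply_eq_self, blk_apply, hU,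
        hF, hU]
      have v1 := hV1 b
      have w1 := hW1 c
      simp only [Prod.mk_add_mk, Prod.neg_mk, Prod.mk_sub_mk, Prod.mk.injEq, map_sub, map_neg,
        hLR]
      refine ⟨⟨?_, ?_⟩, ?_, ?_⟩
      · abel
      · linear_combination (norm := module) v1
      · linear_combination (norm := module) w1
      · abel
    · apply ContinuousLinearMap.ext
      rintro ⟨⟨a, b⟩, ⟨c, d⟩⟩
      rw [mul_apply_eq_comp, sub_apply, one_apply_eq_self, blk_apply, hU, hF, hU]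
      have e : (((a, b), (c, d)) : (E × E) × (E × E)) -
          ((a + R a, -b + L b) + (d - R (L d), 0), -(c + R c, -d + L d)) =
          ((-R a - (d - R (L d)), (2 : ℂ) • b - L b), ((2 : ℂ) • c + R c, L d)) := by
        simp only [Prod.mk_add_mk, Prod.neg_mk, Prod.mk_sub_mk, Prod.mk.injEq]
        refine ⟨⟨?_, ?_⟩, ?_, ?_⟩
        · abel
        · module
        · module
        · abel
      rw [e, hZ, hV2, hW2]
      simp only [Prod.mk.injEq, map_sub, map_neg, hLR, and_true, true_and]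
      refine ⟨?_, ?_⟩
      · abel
      · abel

end shift

end Pool.Agent.Lib0bd5b4
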