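import Pool.Agent.Lib_0bd5b4.Conn3

open ContinuousLinearMap Filter Topology

open scoped InnerProductSpace

namespace Pool.Agent.Lib0bd5b4

variable {H : Type*} [NormedAddCommGroup H] [InnerProductSpace ℂ H] [CompleteSpace H]

theorem exists_orth_of_not_compact {N : H →L[ℂ] H} (hN : ¬ IsCompactOperator N) :
    ∃ ε : ℝ, 0 < ε ∧ ∀ F : Submodule ℂ H, FiniteDimensional ℂ F →
      ∃ x ∈ Fᗮ, ‖x‖ = 1 ∧ ε ≤ ‖N x‖ := by
  by_contra hcon
  push Not at hcon
  apply hN
  have hcl := isClosed_setOfPred_isCompactOperator (𝕜₁ := ℂ) (𝕜₂ := ℂ) (σ₁₂ := RingHom.id ℂ)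
    (M₁ := H) (M₂ := H)
  have hmem : N ∈ closure { f : H →L[ℂ] H | IsCompactOperator f } := by
    rw [Metric.mem_closure_iff]
    intro ε hε
    obtain ⟨F, hF, hx⟩ := hcon (ε / 2) (by positivity)
    refine ⟨N ∘L (F.subtypeL ∘L F.orthogonalProjectionOnto), ?_, ?_⟩
    · have h1 : IsCompactOperator (F.orthogonalProjectionOnto : H →L[ℂ] F) :=
        isCompactOperator_of_locallyCompactSpace_dom _
      exact h1.clm_comp (N ∘L F.subtypeL)
    · rw [dist_eq_norm]
      refine lt_of_le_of_lt (ContinuousLinearMap.opNorm_le_bound _ (M := ε / 2) (by positivity) ?_)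
        (by linarith)
      intro v
      have e1 : (N - N ∘L (F.subtypeL ∘L F.orthogonalProjectionOnto)) v =
          N (v - F.starProjection v) := by
        rw [map_sub]
        rfl
      rw [e1]
      set w := v - F.starProjection v with hw
      have hwF : w ∈ Fᗮ := Submodule.sub_starProjection_mem_orthogonal v
      have hwn : ‖w‖ ≤ ‖v‖ := by
        have h2 := Submodule.starProjection_orthogonal_val (K := F) v
        rw [hw, ← h2]
        exact Submodule.norm_starProjection_apply_le _ _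
      have hNw : ‖N w‖ ≤ ε / 2 * ‖w‖ := by
        by_cases hw0 : w = 0
        · rw [hw0]
          simp
        · have hwpos : 0 < ‖w‖ := norm_pos_iff.mpr hw0
          have h3 := hx ((‖w‖⁻¹ : ℂ) • w) (Submodule.smul_mem _ _ hwF) (by
            rw [norm_smul]
            simp [hwpos.ne'])
          rw [map_smul, norm_smul] at h3
          simp only [norm_inv, Complex.norm_real, norm_norm] at h3
          rw [inv_mul_lt_iff₀ hwpos] at h3
          linarith
      calc ‖N w‖ ≤ ε / 2 * ‖w‖ := hNw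
        _ ≤ ε / 2 * ‖v‖ := by gcongr
  rw [hcl.closure_eq] at hmem
  exact hmem

theorem exists_seq_of_not_compact {N : H →L[ℂ] H} (hN : ¬ IsCompactOperator N) :
    ∃ (ε : ℝ) (x : ℕ → H), 0 < ε ∧ Orthonormal ℂ x ∧ (∀ m n, m ≠ n → ⟪N (x m), N (x n)⟫_ℂ = 0) ∧
      ∀ n, ε ≤ ‖N (x n)‖ := by
  obtain ⟨ε, hε, hF⟩ := exists_orth_of_not_compact hN
  obtain ⟨x, hx1, hx2⟩ := exists_seq_of_forall_finset_exists
    (fun x : H => ‖x‖ = 1 ∧ ε ≤ ‖N x‖) (fun x y => ⟪x, y⟫_ℂ = 0 ∧ ⟪N x, N y⟫_ℂ = 0) (by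
      intro s _
      classical
      have hfin : ((s : Set H) ∪ (fun v => ContinuousLinearMap.adjoint N (N v)) '' s).Finite :=
        s.finite_toSet.union (s.finite_toSet.image _)
      obtain ⟨y, hy, hy1, hy2⟩ := hF
        (Submodule.span ℂ ((s : Set H) ∪ (fun v => ContinuousLinearMap.adjoint N (N v)) '' s))
        (FiniteDimensional.span_of_finite ℂ hfin)
      refine ⟨y, ⟨hy1, hy2⟩, ?_⟩
      intro v hv
      rw [Submodule.mem_orthogonal] at hy
      refine ⟨hy v (Submodule.subset_span (Or.inl hv)), ?_⟩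
      have := hy _ (Submodule.subset_span (Or.inr ⟨v, hv, rfl⟩))
      rwa [ContinuousLinearMap.adjoint_inner_left] at this)
  refine ⟨ε, x, hε, ⟨fun n => (hx1 n).1, ?_⟩, ?_, fun n => (hx1 n).2⟩
  · intro m n hmn
    rcases lt_or_gt_of_ne hmn with h | h
    · exact (hx2 m n h).1
    · exact inner_eq_zero_symm.mp (hx2 n m h).1
  · intro m n hmn
    rcases lt_or_gt_of_ne hmn with h | h
    · exact (hx2 m n h).2
    · exact inner_eq_zero_symm.mp (hx2 n m h).2

omit [CompleteSpace H] in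
/-- Pythagoras for finite sums of pairwise orthogonal vectors -/
theorem norm_sq_sum_orth {y : ℕ → H} (hy : ∀ m n, m ≠ n → ⟪y m, y n⟫_ℂ = 0) (s : Finset ℕ)
    (a : ℕ → ℂ) : ‖∑ i ∈ s, a i • y i‖ ^ 2 = ∑ i ∈ s, ‖a i‖ ^ 2 * ‖y i‖ ^ 2 := by
  classical
  induction s using Finset.induction_on with
  | empty => simp
  | insert i s his ih =>
    rw [Finset.sum_insert his, Finset.sum_insert his, ← ih]
    have h0 : ⟪a i • y i, ∑ j ∈ s, a j • y j⟫_ℂ = 0 := by
      rw [inner_sum]
      apply Finset.sum_eq_zero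
      intro j hj
      have hij : i ≠ j := by
        rintro rfl
        exact his hj
      rw [inner_smul_left, inner_smul_right, hy i j hij]
      simp
    have := norm_add_sq_eq_norm_sq_add_norm_sq_of_inner_eq_zero _ _ h0
    rw [sq, this, norm_smul]
    ring

theorem bdd_below_closure {N : H →L[ℂ] H} {ε : ℝ} (hε : 0 < ε) {x : ℕ → H}
    (hx : Orthonormal ℂ x)
    (horth : ∀ m n, m ≠ n → ⟪N (x m), N (x n)⟫_ℂ = 0) (hlow : ∀ n, ε ≤ ‖N (x n)‖) {v : H}
    (hv : v ∈ closure (Submodule.span ℂ (Set.range x) : Set H)) : ε * ‖v‖ ≤ ‖N v‖ := by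
  have hclosed : IsClosed {v : H | ε * ‖v‖ ≤ ‖N v‖} :=
    isClosed_le (by fun_prop) (by fun_prop)
  have hsub : (Submodule.span ℂ (Set.range x) : Set H) ⊆ {v : H | ε * ‖v‖ ≤ ‖N v‖} := by
    intro w hw
    obtain ⟨c, rfl⟩ := (Finsupp.mem_span_range_iff_exists_finsupp).mp hw
    change ε * ‖_‖ ≤ ‖N _‖
    rw [Finsupp.sum, map_sum]
    simp_rw [map_smul]
    have e1 := norm_sq_sum_orth (y := x) (fun m n h => hx.2 h) c.support c
    have e2 := norm_sq_sum_orth (y := fun n => N (x n)) horth c.support c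
    have e3 : (ε * ‖∑ i ∈ c.support, c i • x i‖) ^ 2 ≤ ‖∑ i ∈ c.support, c i • N (x i)‖ ^ 2 := by
      rw [mul_pow, e1, e2, Finset.mul_sum]
      apply Finset.sum_le_sum
      intro i _
      rw [hx.1 i]
      have := hlow i
      have h2 : ε ^ 2 ≤ ‖N (x i)‖ ^ 2 := by gcongr
      nlinarith [sq_nonneg ‖c i‖]
    exact le_of_sq_le_sq e3 (norm_nonneg _)
  exact closure_minimal hsub hclosed hv

end Pool.Agent.Lib0bd5b4
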