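import Pool.Agent.Lib_0bd5b4.Hilb1
import Pool.Agent.Lib_0bd5b4.Hilb2
import Pool.Agent.Lib_0bd5b4.Conn4

open ContinuousLinearMap Filter Topology

open scoped InnerProductSpace

namespace Pool.Agent.Lib0bd5b4

variable {H : Type*} [NormedAddCommGroup H] [InnerProductSpace ℂ H] [CompleteSpace H]

/-- The sequence space. -/
noncomputable abbrev L2 := lp (fun _ : ℕ => ℂ) 2

/-- the isometry attached to an orthonormal sequence -/
noncomputable def isom {x : ℕ → H} (hx : Orthonormal ℂ x) : L2 →ₗᵢ[ℂ] H :=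
  hx.orthogonalFamily.linearIsometry

theorem isom_mem {x : ℕ → H} (hx : Orthonormal ℂ x) (a : L2) :
    isom hx a ∈ closure (Submodule.span ℂ (Set.range x) : Set H) := by
  have h1 := hx.orthogonalFamily.hasSum_linearIsometry a
  refine mem_closure_of_tendsto h1 (Eventually.of_forall ?_)
  intro s
  rw [SetLike.mem_coe]
  refine Submodule.sum_mem _ fun i _ => ?_
  rw [LinearIsometry.toSpanSingleton_apply]
  exact Submodule.smul_mem _ _ (Submodule.subset_span ⟨i, rfl⟩)

omit [CompleteSpace H] in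
theorem inner_closure_zero {x y : ℕ → H} (h : ∀ m n, ⟪x m, y n⟫_ℂ = 0) {u v : H}
    (hu : u ∈ closure (Submodule.span ℂ (Set.range x) : Set H))
    (hv : v ∈ closure (Submodule.span ℂ (Set.range y) : Set H)) : ⟪u, v⟫_ℂ = 0 := by
  have h1 : ∀ n, ⟪u, y n⟫_ℂ = 0 := by
    intro n
    have hcl : IsClosed {w : H | ⟪w, y n⟫_ℂ = 0} := isClosed_eq (by fun_prop) (by fun_prop)
    have hsub : (Submodule.span ℂ (Set.range x) : Set H) ⊆ {w : H | ⟪w, y n⟫_ℂ = 0} := by
      intro w hw
      change ⟪w, y n⟫_ℂ = 0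
      refine Submodule.span_induction ?_ ?_ ?_ ?_ hw
      · rintro _ ⟨m, rfl⟩
        exact h m n
      · simp
      · intro a b _ _ ha hb
        rw [inner_add_left, ha, hb, add_zero]
      · intro c a _ ha
        rw [inner_smul_left, ha, mul_zero]
    exact closure_minimal hsub hcl hu
  have hcl : IsClosed {w : H | ⟪u, w⟫_ℂ = 0} := isClosed_eq (by fun_prop) (by fun_prop)
  have hsub : (Submodule.span ℂ (Set.range y) : Set H) ⊆ {w : H | ⟪u, w⟫_ℂ = 0} := by
    intro w hw
    change ⟪u, w⟫_ℂ = 0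
    refine Submodule.span_induction ?_ ?_ ?_ ?_ hw
    · rintro _ ⟨m, rfl⟩
      exact h1 m
    · simp
    · intro a b _ _ ha hb
      rw [inner_add_right, ha, hb, add_zero]
    · intro c a _ ha
      rw [inner_smul_right, ha, mul_zero]
  exact closure_minimal hsub hcl hv

theorem exists_leftInverse {E : Type*} [NormedAddCommGroup E] [NormedSpace ℂ E] [CompleteSpace E]
    (f : E →L[ℂ] H) {ε : ℝ} (hε : 0 < ε) (hf : ∀ v, ε * ‖v‖ ≤ ‖f v‖) :
    ∃ π : H →L[ℂ] E, ∀ v, π (f v) = v := by
  have hanti : AntilipschitzWith (ε⁻¹).toNNReal f := by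
    apply ContinuousLinearMap.antilipschitz_of_bound
    intro v
    rw [Real.coe_toNNReal _ (by positivity)]
    rw [inv_mul_eq_div, le_div_iff₀ hε, mul_comm]
    exact hf v
  have hcl : IsClosed (Set.range f) := hanti.isClosed_range f.uniformContinuous
  have hcl' : IsClosed ((LinearMap.range (f : E →ₗ[ℂ] H) : Submodule ℂ H) : Set H) := by
    have e : ((LinearMap.range (f : E →ₗ[ℂ] H) : Submodule ℂ H) : Set H) = Set.range f := by
      ext w
      constructor
      · rintro ⟨u, hu⟩
        exact ⟨u, hu⟩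
      · rintro ⟨u, hu⟩
        exact ⟨u, hu⟩
    rw [e]
    exact hcl
  have : CompleteSpace (LinearMap.range (f : E →ₗ[ℂ] H)) := hcl'.completeSpace_coe
  have hcomp : Submodule.ClosedComplemented (LinearMap.range (f : E →ₗ[ℂ] H)) :=
    ⟨(LinearMap.range (f : E →ₗ[ℂ] H)).orthogonalProjectionOnto, fun v =>
      Submodule.orthogonalProjectionOnto_mem_subspace_eq_self v⟩
  obtain ⟨π, hπ⟩ :=
    ContinuousLinearMap.HasLeftInverse.of_injective_of_isClosed_range_of_closedComplement_range
      hanti.injective hcl hcomp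
  exact ⟨π, hπ⟩

theorem exists_shift : ∃ (L R : L2 →L[ℂ] L2) (p : L2), (∀ v, L (R v) = v) ∧ p ≠ 0 ∧ L p = 0 ∧
    ‖L‖ ≤ 1 ∧ ‖R‖ ≤ 1 := by
  classical
  have he : Orthonormal ℂ (fun n : ℕ => (lp.single 2 n (1 : ℂ) : L2)) := by
    rw [orthonormal_iff_ite]
    intro i j
    rw [lp.inner_single_left]
    simp [lp.single_apply, Pi.single_apply]
  have hS : Orthonormal ℂ (fun n : ℕ => (lp.single 2 (n + 1) (1 : ℂ) : L2)) :=
    he.comp (fun n => n + 1) (add_left_injective 1)
  set R : L2 →L[ℂ] L2 := (isom hS).toContinuousLinearMap with hR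
  refine ⟨ContinuousLinearMap.adjoint R, R, lp.single 2 0 1, ?_, ?_, ?_, ?_, ?_⟩
  · intro v
    apply ext_inner_left ℂ
    intro w
    rw [ContinuousLinearMap.adjoint_inner_right]
    exact (isom hS).inner_map_map w v
  · intro h0
    have := he.1 0
    simp only at this
    rw [h0, norm_zero] at this
    exact zero_ne_one this
  · apply ext_inner_left ℂ
    intro w
    rw [ContinuousLinearMap.adjoint_inner_right, inner_zero_right]
    apply inner_closure_zero (x := fun n : ℕ => (lp.single 2 (n + 1) (1 : ℂ) : L2))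
      (y := fun n : ℕ => (lp.single 2 0 (1 : ℂ) : L2)) _ (isom_mem hS w)
      (subset_closure (Submodule.subset_span ⟨0, rfl⟩))
    intro m n
    exact he.2 (Nat.succ_ne_zero m)
  · rw [LinearIsometryEquiv.norm_map]
    exact (isom hS).norm_toContinuousLinearMap_le
  · exact (isom hS).norm_toContinuousLinearMap_le

theorem exists_inv {E : Type*} [NormedAddCommGroup E] [NormedSpace ℂ E] [CompleteSpace E]
    {L : E →L[ℂ] E} (hL : ‖L‖ ≤ 1) : ∃ V : E →L[ℂ] E, (∀ v, (2 : ℂ) • V v - L (V v) = v) ∧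
      ∀ v, V ((2 : ℂ) • v - L v) = v := by
  have h1 : (2 : ℂ) ∈ resolventSet ℂ L := by
    apply spectrum.mem_resolventSet_of_norm_lt_mul
    have h2 : ‖(1 : E →L[ℂ] E)‖ ≤ 1 := ContinuousLinearMap.norm_id_le
    calc ‖L‖ * ‖(1 : E →L[ℂ] E)‖ ≤ 1 * 1 := by gcongr
      _ < ‖(2 : ℂ)‖ := by norm_num
  rw [spectrum.mem_resolventSet_iff, Algebra.algebraMap_eq_smul_one] at h1
  obtain ⟨V, hV1, hV2⟩ := isUnit_iff_exists.mp h1
  exact ⟨V, fun v => congrArg (fun M => M v) hV1, fun v => congrArg (fun M => M v) hV2⟩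

/-- A noncompact square-zero operator on a Hilbert space has a nonsymmetric commutator. -/
theorem not_symm_of_not_compact {N : H →L[ℂ] H} (hN2 : N * N = 0)
    (hN : ¬ IsCompactOperator N) : ∃ S : H →L[ℂ] H, ∃ z ∈ spectrum ℂ (N * S - S * N),
      -z ∉ spectrum ℂ (N * S - S * N) := by
  obtain ⟨ε, x, hε, hx, horth, hlow⟩ := exists_seq_of_not_compact hN
  have hx0 : Orthonormal ℂ (fun n => x (2 * n)) :=
    hx.comp (fun n => 2 * n) (fun a b h => by simpa using h)
  have hx1 : Orthonormal ℂ (fun n => x (2 * n + 1)) :=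
    hx.comp (fun n => 2 * n + 1) (fun a b h => by simpa using h)
  let j : (L2 × L2) →L[ℂ] H :=
    (isom hx0).toContinuousLinearMap.coprod (isom hx1).toContinuousLinearMap
  have hj : ∀ a b, j (a, b) = isom hx0 a + isom hx1 b := fun a b => rfl
  have hinner : ∀ a b, ⟪isom hx0 a, isom hx1 b⟫_ℂ = 0 := by
    intro a b
    apply inner_closure_zero _ (isom_mem hx0 a) (isom_mem hx1 b)
    intro m n
    exact hx.2 (by omega)
  have hnorm : ∀ p : L2 × L2, ‖p‖ ≤ ‖j p‖ := by
    rintro ⟨a, b⟩
    rw [hj]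
    have h1 := norm_add_sq_eq_norm_sq_add_norm_sq_of_inner_eq_zero _ _ (hinner a b)
    rw [(isom hx0).norm_map, (isom hx1).norm_map] at h1
    rw [Prod.norm_def]
    apply max_le
    · apply le_of_sq_le_sq _ (norm_nonneg _)
      rw [sq, sq, h1]
      nlinarith [mul_self_nonneg ‖b‖]
    · apply le_of_sq_le_sq _ (norm_nonneg _)
      rw [sq, sq, h1]
      nlinarith [mul_self_nonneg ‖a‖]
  have hmem : ∀ p, j p ∈ closure (Submodule.span ℂ (Set.range x) : Set H) := by
    rintro ⟨a, b⟩
    rw [hj]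
    have h0 : closure (Submodule.span ℂ (Set.range fun n => x (2 * n)) : Set H) ⊆
        closure (Submodule.span ℂ (Set.range x) : Set H) := by
      apply closure_mono
      apply Submodule.span_mono
      rintro _ ⟨n, rfl⟩
      exact ⟨_, rfl⟩
    have h1 : closure (Submodule.span ℂ (Set.range fun n => x (2 * n + 1)) : Set H) ⊆
        closure (Submodule.span ℂ (Set.range x) : Set H) := by
      apply closure_mono
      apply Submodule.span_mono
      rintro _ ⟨n, rfl⟩
      exact ⟨_, rfl⟩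
    exact (Submodule.span ℂ (Set.range x)).topologicalClosure.add_mem (h0 (isom_mem hx0 a))
      (h1 (isom_mem hx1 b))
  have hlow' : ∀ p, ε * ‖p‖ ≤ ‖(N ∘L j) p‖ := by
    intro p
    calc ε * ‖p‖ ≤ ε * ‖j p‖ := by
          gcongr
          exact hnorm p
      _ ≤ ‖N (j p)‖ := bdd_below_closure hε hx horth hlow (hmem p)
  obtain ⟨π, hπ⟩ := exists_leftInverse (N ∘L j) hε hlow'
  obtain ⟨L, R, p, hLR, hp, hLp, hL, hR⟩ := exists_shift
  obtain ⟨V, hV1, hV2⟩ := exists_inv hL
  obtain ⟨W, hW1, hW2⟩ := exists_inv (L := -R) (by rw [norm_neg]; exact hR)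
  obtain ⟨U, F, h1, h2⟩ := shift_example L R hLR hp hLp V W hV1 hV2
    (fun v => by simpa using hW1 v) (fun v => by simpa using hW2 v)
  obtain ⟨S, hS1, hS2⟩ := lift_example hN2 j π hπ U F (by norm_num) h1 h2
  exact ⟨S, -1, hS1, hS2⟩

/-- In Hilbert space the commutator-symmetric operators are exactly the quadratic operators with
two distinct roots and the sums of a scalar and a compact square-zero operator. -/
theorem commSymm_iff_hilbert (T : H →L[ℂ] H) : CommSymm T ↔
    (∃ p q : ℂ, p ^ 2 + 4 * q ≠ 0 ∧ T * T = p • T + q • 1) ∨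
    (∃ a : ℂ, (T - a • 1) * (T - a • 1) = 0 ∧ IsCompactOperator (T - a • 1 : H →L[ℂ] H)) := by
  constructor
  · intro h
    obtain ⟨p, q, hpq⟩ := h.isQuad
    by_cases hd : p ^ 2 + 4 * q = 0
    · right
      refine ⟨p / 2, ?_, ?_⟩
      · rw [quad_shift hpq]
        have : p ^ 2 / 4 + q = 0 := by linear_combination (1 / 4 : ℂ) * hd
        rw [this, zero_smul]
      · by_contra hc
        have h0 : (T - (p / 2) • 1) * (T - (p / 2) • 1) = 0 := by
          rw [quad_shift hpq]
          have : p ^ 2 / 4 + q = 0 := by linear_combination (1 / 4 : ℂ) * hd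
          rw [this, zero_smul]
        obtain ⟨S, z, hz1, hz2⟩ := not_symm_of_not_compact h0 hc
        have e : T * S - S * T = (T - (p / 2) • 1) * S - S * (T - (p / 2) • 1) := by
          simp only [sub_mul, mul_sub, smul_mul_assoc, mul_smul_comm, mul_one, one_mul]
          abel
        rw [← e] at hz1 hz2
        exact hz2 (h S z hz1)
    · left
      exact ⟨p, q, hd, hpq⟩
  · rintro (⟨p, q, hd, hpq⟩ | ⟨a, h1, h2⟩)
    · apply commSymm_of_quad_ne hpq
      intro h0
      apply hd
      linear_combination (4 : ℂ) * h0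
    · exact commSymm_of_compact h1 h2

end Pool.Agent.Lib0bd5b4
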