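import Pool.Agent.Lib_0bd5b4.Spec

open ContinuousLinearMap Filter Topology

namespace Pool.Agent.Lib0bd5b4

variable {X : Type*} [NormedAddCommGroup X] [NormedSpace ℂ X] [CompleteSpace X]
  {Y : Type*} [NormedAddCommGroup Y] [NormedSpace ℂ Y] [CompleteSpace Y]

omit [CompleteSpace X] [CompleteSpace Y] in
theorem CRel.dim3 {Γ : (X →L[ℂ] X) → (Y →L[ℂ] Y) → Prop} (h : CRel Γ) (hX : Dim3 X) : Dim3 Y := by
  by_contra hY
  obtain ⟨T, hT⟩ := hX.exists_not_P2
  obtain ⟨T', hT'⟩ := h.left T
  exact hT (h.symm.P2 hT' (P2_of_not_dim3 hY T'))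

omit [CompleteSpace X] [CompleteSpace Y] in
theorem comm_form {E : Type*} [NormedAddCommGroup E] [NormedSpace ℂ E] (A : E ≃L[ℂ] Y)
    (T S : E →L[ℂ] E) (a b c d : ℂ) :
    (a • conj A T + c • 1) * (b • conj A S + d • 1) - (b • conj A S + d • 1) *
      (a • conj A T + c • 1) = (a * b) • conj A (T * S - S * T) := by
  rw [conj_sub, conj_mul, conj_mul]
  simp only [mul_add, add_mul, mul_one, one_mul, smul_mul_assoc, mul_smul_comm]
  module

/-- The two candidate forms, with the sign information coming from nonsymmetric commutators. -/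
theorem forward_aux (hX : Dim3 X) {Γ : (X →L[ℂ] X) → (Y →L[ℂ] Y) → Prop} (h : CRel Γ)
    (φ : (X →L[ℂ] X) → (Y →L[ℂ] Y)) (hφ : ∀ T, Γ T (φ T)) :
    ∃ (ε η : (X →L[ℂ] X) → ℂ), (∀ T, ε T * ε T = 1) ∧
      (∀ T S, (∃ z ∈ spectrum ℂ (T * S - S * T), -z ∉ spectrum ℂ (T * S - S * T)) →
        ε T * ε S = 1) ∧
      ((∃ A : X ≃L[ℂ] Y, ∀ T, φ T = ε T • conj A T + η T • 1) ∨
       (∃ A : StrongDual ℂ X ≃L[ℂ] Y, ∀ T, φ T = (Complex.I * ε T) • conj A (adj T) + η T • 1)) := by
  have hY := h.dim3 hX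
  obtain ⟨T0, S0, hedge⟩ := hX.exists_edge
  have hedge2 : ∃ z ∈ spectrum ℂ (T0 * (T0 + S0) - (T0 + S0) * T0),
      -z ∉ spectrum ℂ (T0 * (T0 + S0) - (T0 + S0) * T0) := by
    have : T0 * (T0 + S0) - (T0 + S0) * T0 = T0 * S0 - S0 * T0 := by
      rw [mul_add, add_mul]; abel
    rw [this]
    exact hedge
  have hedge3 : ∃ z ∈ spectrum ℂ ((T0 + S0) * S0 - S0 * (T0 + S0)),
      -z ∉ spectrum ℂ ((T0 + S0) * S0 - S0 * (T0 + S0)) := by
    have : (T0 + S0) * S0 - S0 * (T0 + S0) = T0 * S0 - S0 * T0 := by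
      rw [mul_add, add_mul]; abel
    rw [this]
    exact hedge
  rcases h.forms hX hY with ⟨A, κ, hκ, hform⟩ | ⟨A, κ, hκ, hform⟩
  · choose s c hs hsc using fun T => hform T (φ T) (hφ T)
    have key : ∀ T S, (∃ z ∈ spectrum ℂ (T * S - S * T), -z ∉ spectrum ℂ (T * S - S * T)) →
        s T * s S * κ ^ 2 = 1 := by
      intro T S hTS
      have e1 : φ T * φ S - φ S * φ T = (s T * s S * κ ^ 2) • conj A (T * S - S * T) := by
        have := comm_form A T S (s T * κ) (s S * κ) (c T) (c S)
        rw [hsc T, hsc S, smul_smul, smul_smul, this]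
        congr 1
        ring
      have e2 : spectrum ℂ ((s T * s S * κ ^ 2) • conj A (T * S - S * T)) =
          spectrum ℂ (conj A (T * S - S * T)) := by
        rw [← e1, spectrum_conj, ← h.spec _ _ _ _ (hφ T) (hφ S)]
      have e3 : (s T * s S * κ ^ 2) * (s T * s S * κ ^ 2) = 1 := by
        have := sign_mul (hs T) (hs S)
        linear_combination (κ ^ 2) ^ 2 * this + hκ
      refine sign_eq_one_of_spectrum e3 e2 ?_
      rw [spectrum_conj]
      exact hTS
    have k1 := key T0 S0 hedge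
    have k2 := key T0 (T0 + S0) hedge2
    have k3 := key (T0 + S0) S0 hedge3
    have hκ2 : κ ^ 2 = 1 := by
      have e : (s T0 * s S0 * κ ^ 2) * (s T0 * s (T0 + S0) * κ ^ 2) * (s (T0 + S0) * s S0 * κ ^ 2)
          = 1 := by rw [k1, k2, k3]; ring
      have h1 := hs T0
      have h2 := hs S0
      have h3 := hs (T0 + S0)
      have e' : (κ ^ 2) ^ 3 = 1 := by
        have : (s T0 * s T0) * (s S0 * s S0) * (s (T0 + S0) * s (T0 + S0)) * (κ ^ 2) ^ 3 = 1 := by
          rw [← e]; ring
        rw [h1, h2, h3] at this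
        simpa using this
      linear_combination e' - κ ^ 2 * hκ
    refine ⟨fun T => s T * κ, c, ?_, ?_, Or.inl ⟨A, ?_⟩⟩
    · intro T
      linear_combination κ ^ 2 * hs T + hκ2
    · intro T S hTS
      have := key T S hTS
      linear_combination this
    · intro T
      rw [hsc T, smul_smul]
  · choose s c hs hsc using fun T => hform T (φ T) (hφ T)
    have key : ∀ T S, (∃ z ∈ spectrum ℂ (T * S - S * T), -z ∉ spectrum ℂ (T * S - S * T)) →
        -(s T * s S * κ ^ 2) = 1 := by
      intro T S hTS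
      have e0 : adj T * adj S - adj S * adj T = (-1 : ℂ) • adj (T * S - S * T) := by
        rw [adj_sub, adj_mul, adj_mul]
        ext f x
        simp
      have e1 : φ T * φ S - φ S * φ T =
          (-(s T * s S * κ ^ 2)) • conj A (adj (T * S - S * T)) := by
        have := comm_form A (adj T) (adj S) (s T * κ) (s S * κ) (c T) (c S)
        rw [hsc T, hsc S, smul_smul, smul_smul, this, e0, conj_smul, smul_smul]
        congr 1
        ring
      have e2 : spectrum ℂ ((-(s T * s S * κ ^ 2)) • conj A (adj (T * S - S * T))) =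
          spectrum ℂ (conj A (adj (T * S - S * T))) := by
        rw [← e1, spectrum_conj, spectrum_adj, ← h.spec _ _ _ _ (hφ T) (hφ S)]
      have e3 : (-(s T * s S * κ ^ 2)) * (-(s T * s S * κ ^ 2)) = 1 := by
        have := sign_mul (hs T) (hs S)
        linear_combination (κ ^ 2) ^ 2 * this + hκ
      refine sign_eq_one_of_spectrum e3 e2 ?_
      rw [spectrum_conj, spectrum_adj]
      exact hTS
    have k1 := key T0 S0 hedge
    have k2 := key T0 (T0 + S0) hedge2
    have k3 := key (T0 + S0) S0 hedge3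
    have hκ2 : κ ^ 2 = -1 := by
      have e : (-(s T0 * s S0 * κ ^ 2)) * (-(s T0 * s (T0 + S0) * κ ^ 2)) *
          (-(s (T0 + S0) * s S0 * κ ^ 2)) = 1 := by rw [k1, k2, k3]; ring
      have h1 := hs T0
      have h2 := hs S0
      have h3 := hs (T0 + S0)
      have e' : (κ ^ 2) ^ 3 = -1 := by
        have : (s T0 * s T0) * (s S0 * s S0) * (s (T0 + S0) * s (T0 + S0)) * (κ ^ 2) ^ 3 = -1 := by
          linear_combination -e
        rw [h1, h2, h3] at this
        simpa using this
      linear_combination e' - κ ^ 2 * hκ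
    refine ⟨fun T => -(Complex.I * (s T * κ)), c, ?_, ?_, Or.inr ⟨A, ?_⟩⟩
    · intro T
      have hI := Complex.I_mul_I
      linear_combination (s T * s T * κ ^ 2) * hI - κ ^ 2 * hs T - hκ2
    · intro T S hTS
      have := key T S hTS
      have hI := Complex.I_mul_I
      linear_combination this + (s T * s S * κ ^ 2) * hI
    · intro T
      have e : Complex.I * -(Complex.I * (s T * κ)) = s T * κ := by
        have hI := Complex.I_mul_I
        linear_combination (-(s T * κ)) * hI
      rw [e, hsc T, smul_smul]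

end Pool.Agent.Lib0bd5b4
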