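import Pool.Agent.Lib_0bd5b4.Main1

open ContinuousLinearMap Filter Topology

namespace Pool.Agent.Lib0bd5b4

variable {X : Type*} [NormedAddCommGroup X] [NormedSpace ℂ X]
  {Y : Type*} [NormedAddCommGroup Y] [NormedSpace ℂ Y]

theorem adj_comm (T S : X →L[ℂ] X) :
    adj T * adj S - adj S * adj T = (-1 : ℂ) • adj (T * S - S * T) := by
  rw [adj_sub, adj_mul, adj_mul]
  ext f x
  simp

theorem spectrum_sign_comm {ε : (X →L[ℂ] X) → ℂ} (hε : ∀ T, ε T * ε T = 1)
    (hconst : ∀ T S, ¬ CommSymm T → ¬ CommSymm S → ε T = ε S) (T S : X →L[ℂ] X) :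
    spectrum ℂ ((ε T * ε S) • (T * S - S * T)) = spectrum ℂ (T * S - S * T) := by
  have hs : (ε T * ε S) * (ε T * ε S) = 1 := by
    linear_combination (ε S) ^ 2 * hε T + hε S
  by_cases hT : CommSymm T
  · exact spectrum_sign_smul (hT S) hs
  · by_cases hS : CommSymm S
    · exact spectrum_sign_smul hS.swap hs
    · have : ε T * ε S = 1 := by rw [hconst T S hT hS, hε]
      rw [this, one_smul]

theorem converse_direct (A : X ≃L[ℂ] Y) (φ : (X →L[ℂ] X) → (Y →L[ℂ] Y))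
    (ε η : (X →L[ℂ] X) → ℂ) (hε : ∀ T, ε T * ε T = 1)
    (hconst : ∀ T S, ¬ CommSymm T → ¬ CommSymm S → ε T = ε S)
    (hφ : ∀ T, φ T = ε T • conj A T + η T • 1) (T S : X →L[ℂ] X) :
    spectrum ℂ (φ T * φ S - φ S * φ T) = spectrum ℂ (T * S - S * T) := by
  rw [hφ T, hφ S, comm_form, ← conj_smul, spectrum_conj]
  exact spectrum_sign_comm hε hconst T S

theorem converse_adj [CompleteSpace X] (A : StrongDual ℂ X ≃L[ℂ] Y)
    (φ : (X →L[ℂ] X) → (Y →L[ℂ] Y))
    (ε η : (X →L[ℂ] X) → ℂ) (hε : ∀ T, ε T * ε T = 1)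
    (hconst : ∀ T S, ¬ CommSymm T → ¬ CommSymm S → ε T = ε S)
    (hφ : ∀ T, φ T = (Complex.I * ε T) • conj A (adj T) + η T • 1) (T S : X →L[ℂ] X) :
    spectrum ℂ (φ T * φ S - φ S * φ T) = spectrum ℂ (T * S - S * T) := by
  rw [hφ T, hφ S, comm_form, adj_comm, conj_smul, smul_smul, ← conj_smul, spectrum_conj,
    ← adj_smul, spectrum_adj]
  have e : Complex.I * ε T * (Complex.I * ε S) * (-1) = ε T * ε S := by
    have hI := Complex.I_mul_I
    linear_combination (-(ε T * ε S)) * hI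
  rw [e]
  exact spectrum_sign_comm hε hconst T S

end Pool.Agent.Lib0bd5b4
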