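import Pool.Agent.Lib_0bd5b4.Dim2c
import Pool.Agent.Lib_0bd5b4.Main2
import Pool.Agent.Lib_0bd5b4.Conn3

open ContinuousLinearMap Filter Topology

namespace Pool.Agent.Lib0bd5b4

section low

variable {X : Type*} [NormedAddCommGroup X] [NormedSpace ℂ X]
  {Y : Type*} [NormedAddCommGroup Y] [NormedSpace ℂ Y]

theorem scalar_of_not_li2 (h : ¬ ∃ a b : X, LI2 a b) (T : X →L[ℂ] X) : ∃ c : ℂ, T = c • 1 := by
  apply exists_eq_smul_one
  intro y
  by_contra hcon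
  push Not at hcon
  apply h
  have hy0 : y ≠ 0 := by
    rintro rfl
    exact hcon 0 (by simp)
  exact ⟨y, T y, li2_of_forall_ne hy0 hcon⟩

theorem comm_zero_of_not_li2 (h : ¬ ∃ a b : X, LI2 a b) (T S : X →L[ℂ] X) :
    T * S - S * T = 0 := by
  obtain ⟨c, rfl⟩ := scalar_of_not_li2 h T
  simp

theorem Frame.li2 (F : Frame X) : LI2 F.x1 F.x2 := by
  intro a b hab
  have k1 := congrArg F.h1 hab
  have k2 := congrArg F.h2 hab
  simp [F.e11, F.e12, F.e21, F.e22] at k1 k2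
  exact ⟨k1, k2⟩

theorem Frame.exists_one (F : Frame X) :
    ∃ T S : X →L[ℂ] X, (1 : ℂ) ∈ spectrum ℂ (T * S - S * T) := by
  refine ⟨rk F.x1 F.h2, rk F.x2 F.h1, ?_⟩
  rw [F.mem_spectrum_comm]
  simp [Frame.co, ff, F.e11, F.e12, F.e21, F.e22]

theorem one_not_mem_zero : (1 : ℂ) ∉ spectrum ℂ (0 : X →L[ℂ] X) := by
  rw [spectrum.mem_iff, Algebra.algebraMap_eq_smul_one, not_not, one_smul, sub_zero]
  exact isUnit_one

theorem CRel.exists_li2 {Γ : (X →L[ℂ] X) → (Y →L[ℂ] Y) → Prop} (h : CRel Γ) (hX : ¬ Dim3 X)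
    (h2 : ∃ a b : X, LI2 a b) : ∃ a b : Y, LI2 a b := by
  obtain ⟨a, b, hab⟩ := h2
  obtain ⟨F⟩ := exists_frame hX hab
  obtain ⟨T, S, h1⟩ := F.exists_one
  obtain ⟨T', hT⟩ := h.left T
  obtain ⟨S', hS⟩ := h.left S
  by_contra hcon
  rw [h.spec _ _ _ _ hT hS, comm_zero_of_not_li2 hcon] at h1
  exact one_not_mem_zero h1

theorem CRel.nontrivial {Γ : (X →L[ℂ] X) → (Y →L[ℂ] Y) → Prop} (h : CRel Γ)
    (hn : Nontrivial Y) : Nontrivial X := by
  by_contra hX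
  rw [not_nontrivial_iff_subsingleton] at hX
  obtain ⟨T, hT⟩ := h.right 0
  have h1 : (0 : ℂ) ∈ spectrum ℂ ((0 : Y →L[ℂ] Y) * 0 - 0 * 0) := by
    obtain ⟨y, hy⟩ := exists_ne (0 : Y)
    exact mem_spectrum_of_eigen hy (by simp)
  rw [← h.spec _ _ _ _ hT hT, spectrum.mem_iff] at h1
  exact h1 (isUnit_of_subsingleton _)

theorem exists_equiv_of_dim_le_one (hX : ¬ ∃ a b : X, LI2 a b) (hY : ¬ ∃ a b : Y, LI2 a b)
    (h : Nontrivial X ↔ Nontrivial Y) : Nonempty (X ≃L[ℂ] Y) := by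
  by_cases hn : Nontrivial X
  · have hn' := h.mp hn
    obtain ⟨x, hx⟩ := exists_ne (0 : X)
    obtain ⟨y, hy⟩ := exists_ne (0 : Y)
    obtain ⟨f, hf⟩ := SeparatingDual.exists_eq_one (R := ℂ) hx
    obtain ⟨g, hg⟩ := SeparatingDual.exists_eq_one (R := ℂ) hy
    have h1 : ∀ v : X, f v • x = v := by
      intro v
      obtain ⟨c, rfl⟩ := not_li2 hx (fun hli => hX ⟨x, v, hli⟩)
      simp [hf]
    have h2 : ∀ v : Y, g v • y = v := by
      intro v
      obtain ⟨c, rfl⟩ := not_li2 hy (fun hli => hY ⟨y, v, hli⟩)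
      simp [hg]
    exact ⟨ContinuousLinearEquiv.equivOfInverse (f.smulRight y) (g.smulRight x)
      (fun v => by simp [hg, h1]) (fun v => by simp [hf, h2])⟩
  · have hn' : ¬ Nontrivial Y := fun h' => hn (h.mpr h')
    rw [not_nontrivial_iff_subsingleton] at hn hn'
    exact ⟨ContinuousLinearEquiv.equivOfInverse 0 0 (fun v => Subsingleton.elim _ _)
      (fun v => Subsingleton.elim _ _)⟩

theorem commSymm_of_not_dim3 (h : ¬ Dim3 X) (T : X →L[ℂ] X) : CommSymm T := by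
  intro S z hz
  by_cases h2 : ∃ a b : X, LI2 a b
  · obtain ⟨a, b, hab⟩ := h2
    obtain ⟨F⟩ := exists_frame h hab
    rw [F.mem_spectrum_comm] at hz ⊢
    rw [← hz]
    ring
  · rw [comm_zero_of_not_li2 h2] at hz ⊢
    have : z = 0 := by
      by_contra hz0
      rw [spectrum.mem_iff, Algebra.algebraMap_eq_smul_one, sub_zero] at hz
      apply hz
      refine isUnit_iff_exists.mpr ⟨z⁻¹ • 1, ?_, ?_⟩
      · rw [smul_mul_smul_comm, mul_inv_cancel₀ hz0, one_smul, mul_one]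
      · rw [smul_mul_smul_comm, inv_mul_cancel₀ hz0, one_smul, mul_one]
    rw [this] at hz ⊢
    simpa using hz

end low

section main

variable {X : Type*} [NormedAddCommGroup X] [NormedSpace ℂ X] [CompleteSpace X]
  {Y : Type*} [NormedAddCommGroup Y] [NormedSpace ℂ Y] [CompleteSpace Y]

theorem forward (φ : (X →L[ℂ] X) → (Y →L[ℂ] Y)) (hsurj : Function.Surjective φ)
    (hspec : ∀ T S, spectrum ℂ (φ T * φ S - φ S * φ T) = spectrum ℂ (T * S - S * T)) :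
    ∃ (ε η : (X →L[ℂ] X) → ℂ), (∀ T, ε T * ε T = 1) ∧
      (∀ T S, ¬ CommSymm T → ¬ CommSymm S → ε T = ε S) ∧
      ((∃ A : X ≃L[ℂ] Y, ∀ T, φ T = ε T • conj A T + η T • 1) ∨
       (∃ A : StrongDual ℂ X ≃L[ℂ] Y, ∀ T, φ T = (Complex.I * ε T) • conj A (adj T) + η T • 1)) := by
  have h : CRel (fun T T' => T' = φ T) := by
    refine ⟨fun T => ⟨φ T, rfl⟩, fun T' => ?_, ?_⟩
    · obtain ⟨T, hT⟩ := hsurj T'
      exact ⟨T, hT.symm⟩
    · rintro T _ S _ rfl rfl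
      exact (hspec T S).symm
  by_cases hX : Dim3 X
  · obtain ⟨ε, η, h1, h2, h3⟩ := forward_aux hX h φ (fun T => rfl)
    exact ⟨ε, η, h1, sign_const h1 h2, h3⟩
  · have hY : ¬ Dim3 Y := fun hY => hX (h.symm.dim3 hY)
    by_cases hX2 : ∃ a b : X, LI2 a b
    · obtain ⟨a, b, hab⟩ := h.exists_li2 hX hX2
      obtain ⟨a', b', hab'⟩ := hX2
      obtain ⟨F⟩ := exists_frame hX hab'
      obtain ⟨G⟩ := exists_frame hY hab
      rcases h.forms2 hY F G with ⟨A, hA⟩ | ⟨A, hA⟩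
      · choose s c hs hsc using fun T => hA T (φ T) rfl
        exact ⟨s, c, hs, fun T S hT => absurd (commSymm_of_not_dim3 hX T) hT, Or.inl ⟨A, hsc⟩⟩
      · choose s c hs hsc using fun T => hA T (φ T) rfl
        exact ⟨s, c, hs, fun T S hT => absurd (commSymm_of_not_dim3 hX T) hT, Or.inr ⟨A, hsc⟩⟩
    · have hY2 : ¬ ∃ a b : Y, LI2 a b := fun hY2 => hX2 (h.symm.exists_li2 hY hY2)
      obtain ⟨A⟩ := exists_equiv_of_dim_le_one hX2 hY2
        ⟨fun hn => h.symm.nontrivial hn, fun hn => h.nontrivial hn⟩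
      choose c hc using fun T => scalar_of_not_li2 hX2 T
      choose d hd using fun T => scalar_of_not_li2 hY2 (φ T)
      refine ⟨fun _ => 1, fun T => d T - c T, fun T => by ring, fun _ _ _ _ => rfl,
        Or.inl ⟨A, fun T => ?_⟩⟩
      have : conj A T = c T • 1 := by
        conv_lhs => rw [hc T]
        rw [conj_smul, conj_one]
      rw [this, hd T]
      module

theorem main_iff (φ : (X →L[ℂ] X) → (Y →L[ℂ] Y)) (hsurj : Function.Surjective φ) :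
    (∀ T S, spectrum ℂ (φ T * φ S - φ S * φ T) = spectrum ℂ (T * S - S * T)) ↔
    ∃ (ε η : (X →L[ℂ] X) → ℂ), (∀ T, ε T * ε T = 1) ∧
      (∀ T S, ¬ CommSymm T → ¬ CommSymm S → ε T = ε S) ∧
      ((∃ A : X ≃L[ℂ] Y, ∀ T, φ T = ε T • conj A T + η T • 1) ∨
       (∃ A : StrongDual ℂ X ≃L[ℂ] Y, ∀ T, φ T = (Complex.I * ε T) • conj A (adj T) + η T • 1)) := by
  constructor
  · exact forward φ hsurj
  · rintro ⟨ε, η, h1, h2, ⟨A, hA⟩ | ⟨A, hA⟩⟩
    · exact converse_direct A φ ε η h1 h2 hA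
    · exact converse_adj A φ ε η h1 h2 hA

end main

end Pool.Agent.Lib0bd5b4
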