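import Mathlib

namespace Pool.Agent.Lib0bd5b4

section signlin

variable {V W : Type*} [AddCommGroup V] [Module ℂ V] [AddCommGroup W] [Module ℂ W]

/-- A map that is additive, homogeneous and injective up to signs. -/
structure SignMap (F : V → W) : Prop where
  add : ∀ v w, ∃ s t : ℂ, s * s = 1 ∧ t * t = 1 ∧ F (v + w) = s • F v + t • F w
  smul : ∀ (c : ℂ) (v : V), ∃ s : ℂ, s * s = 1 ∧ F (c • v) = s • (c • F v)
  inj : ∀ (v w : V) (s : ℂ), s * s = 1 → F v = s • F w → ∃ t : ℂ, t * t = 1 ∧ v = t • w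
  dim : ∀ a b : V, ∃ c : V, c ∉ Submodule.span ℂ {a, b}

def LI2 (v w : V) : Prop := ∀ a b : ℂ, a • v + b • w = 0 → a = 0 ∧ b = 0
def LI3 (u v w : V) : Prop := ∀ a b c : ℂ, a • u + b • v + c • w = 0 → a = 0 ∧ b = 0 ∧ c = 0

theorem sign_cases {s : ℂ} (hs : s * s = 1) : s = 1 ∨ s = -1 := by
  have : (s - 1) * (s + 1) = 0 := by linear_combination hs
  rcases mul_eq_zero.mp this with h | h
  · left; linear_combination h
  · right; linear_combination h

theorem sign_ne_zero {s : ℂ} (hs : s * s = 1) : s ≠ 0 := by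
  rintro rfl; simp at hs

theorem sign_mul {s t : ℂ} (hs : s * s = 1) (ht : t * t = 1) : (s * t) * (s * t) = 1 := by
  linear_combination (t * t) * hs + ht

theorem sign_swap {s : ℂ} (hs : s * s = 1) {a b : V} (h : a = s • b) : b = s • a := by
  rw [h, smul_smul, hs, one_smul]

variable {F : V → W} (hF : SignMap F)
include hF

theorem SignMap.map_zero : F 0 = 0 := by
  obtain ⟨s, -, h⟩ := hF.smul 0 0
  simpa using h

theorem SignMap.eq_zero {v : V} (h : F v = 0) : v = 0 := by
  obtain ⟨t, -, ht⟩ := hF.inj v 0 1 (by norm_num) (by rw [h, hF.map_zero, smul_zero])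
  simpa using ht

theorem SignMap.li2 {v w : V} (h : LI2 v w) : LI2 (F v) (F w) := by
  intro a b hab
  have hv : v ≠ 0 := by
    rintro rfl
    have := h 1 0 (by simp)
    exact one_ne_zero this.1
  by_cases hb : b = 0
  · subst hb
    refine ⟨?_, rfl⟩
    rw [zero_smul, add_zero] at hab
    rcases smul_eq_zero.mp hab with h1 | h1
    · exact h1
    · exact absurd (hF.eq_zero h1) hv
  · exfalso
    obtain ⟨s, hs, h1⟩ := hF.smul (-a / b) v
    have h2 : F w = (-a / b) • F v := by
      have : b • F w = b • ((-a / b) • F v) := by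
        rw [smul_smul, mul_div_cancel₀ _ hb]
        linear_combination (norm := module) hab
      exact smul_right_injective W hb this
    rw [← h2] at h1
    obtain ⟨t, ht, h3⟩ := hF.inj _ _ s hs h1
    have h4 := sign_swap ht h3
    have := h (t * (-a / b)) (-1) (by rw [h4]; module)
    exact one_ne_zero (neg_eq_zero.mp this.2)

theorem SignMap.li3 {u v w : V} (h : LI3 u v w) : LI3 (F u) (F v) (F w) := by
  have huv : LI2 u v := fun a b hab => by
    have := h a b 0 (by rw [zero_smul, add_zero]; exact hab)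
    exact ⟨this.1, this.2.1⟩
  have huw : LI2 u w := fun a b hab => by
    have := h a 0 b (by rw [zero_smul, add_zero]; exact hab)
    exact ⟨this.1, this.2.2⟩
  have hvw : LI2 v w := fun a b hab => by
    have := h 0 a b (by rw [zero_smul, zero_add]; exact hab)
    exact ⟨this.2.1, this.2.2⟩
  intro a b c habc
  by_cases hc : c = 0
  · subst hc
    rw [zero_smul, add_zero] at habc
    have := hF.li2 huv a b habc
    exact ⟨this.1, this.2, rfl⟩
  exfalso
  set α := -a / c with hα
  set β := -b / c with hβ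
  have hw : F w = α • F u + β • F v := by
    have : c • F w = c • (α • F u + β • F v) := by
      rw [smul_add, smul_smul, smul_smul, mul_div_cancel₀ _ hc, mul_div_cancel₀ _ hc]
      linear_combination (norm := module) habc
    exact smul_right_injective W hc this
  by_cases hα0 : α = 0
  · rw [hα0] at hw
    have := hF.li2 hvw β (-1) (by rw [hw]; module)
    exact one_ne_zero (neg_eq_zero.mp this.2)
  by_cases hβ0 : β = 0
  · rw [hβ0] at hw
    have := hF.li2 huw α (-1) (by rw [hw]; module)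
    exact one_ne_zero (neg_eq_zero.mp this.2)
  obtain ⟨s1, hs1, e1⟩ := hF.smul α u
  obtain ⟨s2, hs2, e2⟩ := hF.smul β v
  have e1' := sign_swap hs1 e1
  have e2' := sign_swap hs2 e2
  set p := α • u with hp
  set r := β • v with hr
  obtain ⟨t1, t2, ht1, ht2, e3⟩ := hF.add p r
  obtain ⟨t3, t4, ht3, ht4, e4⟩ := hF.add p ((-1 : ℂ) • r)
  obtain ⟨t5, ht5, e5⟩ := hF.smul (-1) r
  rw [e5] at e4
  have hpr : LI2 p r := by
    intro x y hxy
    have := huv (x * α) (y * β) (by rw [mul_smul, mul_smul]; exact hxy)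
    exact ⟨(mul_eq_zero.mp this.1).resolve_right hα0, (mul_eq_zero.mp this.2).resolve_right hβ0⟩
  have hFpr : LI2 (F p) (F r) := hF.li2 hpr
  rw [e1', e2'] at hw
  -- the sign products
  have k1 : (t1 * t2) * (t1 * t2) = 1 := sign_mul ht1 ht2
  have k2 : (s1 * s2) * (s1 * s2) = 1 := sign_mul hs1 hs2
  have k3 : (-(t3 * (t4 * t5))) * (-(t3 * (t4 * t5))) = 1 := by
    have := sign_mul ht3 (sign_mul ht4 ht5)
    linear_combination this
  by_cases c1 : t1 * t2 = s1 * s2
  · have : F w = (s1 * t1) • F (p + r) := by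
      rw [hw, e3]
      linear_combination (norm := module) (-s1 : ℂ) • (ht1 • F p) - (s1 : ℂ) • (c1 • F r) - (hs1 • (s2 • F r))
    obtain ⟨t, ht, h3⟩ := hF.inj _ _ _ (sign_mul hs1 ht1) this
    have := h (t * α) (t * β) (-1) (by rw [h3]; module)
    exact one_ne_zero (neg_eq_zero.mp this.2.2)
  by_cases c2 : -(t3 * (t4 * t5)) = s1 * s2
  · have : F w = (s1 * t3) • F (p + (-1 : ℂ) • r) := by
      rw [hw, e4]
      linear_combination (norm := module) (-s1 : ℂ) • (ht3 • F p) - (s1 : ℂ) • (c2 • F r) - (hs1 • (s2 • F r))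
    obtain ⟨t, ht, h3⟩ := hF.inj _ _ _ (sign_mul hs1 ht3) this
    have := h (t * α) (-(t * β)) (-1) (by rw [h3]; module)
    exact one_ne_zero (neg_eq_zero.mp this.2.2)
  have c3 : t1 * t2 = -(t3 * (t4 * t5)) := by
    rcases sign_cases k1 with h1 | h1 <;> rcases sign_cases k2 with h2 | h2 <;>
      rcases sign_cases k3 with h4 | h4
    all_goals first
      | (exfalso; apply c1; rw [h1, h2]; done)
      | (exfalso; apply c2; rw [h4, h2]; done)
      | (rw [h1, h4])
  have : F (p + r) = (t1 * t3) • F (p + (-1 : ℂ) • r) := by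
    rw [e3, e4]
    linear_combination (norm := module) (-t1 : ℂ) • (ht3 • F p) + (t1 : ℂ) • (c3 • F r) - (ht1 • (t2 • F r))
  obtain ⟨t, ht, h3⟩ := hF.inj _ _ _ (sign_mul ht1 ht3) this
  have := hpr (1 - t) (1 + t) (by linear_combination (norm := module) h3)
  have h5 : (2 : ℂ) = 0 := by linear_combination this.1 + this.2
  norm_num at h5

/-- The defining property of the linearised value at `v`, relative to the base point `v0`. -/
def PP (F : V → W) (v0 v : V) (w : W) : Prop :=
  (∃ s : ℂ, s * s = 1 ∧ w = s • F v) ∧ ∃ t : ℂ, t * t = 1 ∧ F (v0 + v) = t • (F v0 + w)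

theorem SignMap.exists_pp (v0 v : V) : ∃ w, PP F v0 v w := by
  obtain ⟨s, t, hs, ht, e⟩ := hF.add v0 v
  refine ⟨(s * t) • F v, ⟨_, sign_mul hs ht, rfl⟩, s, hs, ?_⟩
  rw [e]
  linear_combination (norm := module) (-1 : ℂ) • (hs • (t • F v))

theorem SignMap.pp_unique {v0 v : V} (hv0 : v0 ≠ 0) {w1 w2 : W} (h1 : PP F v0 v w1)
    (h2 : PP F v0 v w2) : w1 = w2 := by
  obtain ⟨⟨s1, hs1, e1⟩, t1, ht1, f1⟩ := h1
  obtain ⟨⟨s2, hs2, e2⟩, t2, ht2, f2⟩ := h2
  have e3 : w1 = (s1 * s2) • w2 := by
    rw [e1, e2]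
    linear_combination (norm := module) (-s1 : ℂ) • (hs2 • F v)
  have hF0 : F v0 ≠ 0 := fun h => hv0 (hF.eq_zero h)
  rcases sign_cases (sign_mul hs1 hs2) with h | h
  · rw [e3, h, one_smul]
  · rw [h, neg_one_smul] at e3
    rw [f1] at f2
    rcases sign_cases ht1 with a | a <;> rcases sign_cases ht2 with b | b
    · rw [a, b, e3] at f2
      rw [e3]
      have : (2 : ℂ) • w2 = 0 := by linear_combination (norm := module) (-1 : ℂ) • f2
      have := (smul_eq_zero.mp this).resolve_left (by norm_num)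
      rw [this, neg_zero]
    · exfalso
      rw [a, b, e3] at f2
      have : (2 : ℂ) • F v0 = 0 := by linear_combination (norm := module) f2
      exact hF0 ((smul_eq_zero.mp this).resolve_left (by norm_num))
    · exfalso
      rw [a, b, e3] at f2
      have : (2 : ℂ) • F v0 = 0 := by linear_combination (norm := module) (-1 : ℂ) • f2
      exact hF0 ((smul_eq_zero.mp this).resolve_left (by norm_num))
    · rw [a, b, e3] at f2
      rw [e3]
      have : (2 : ℂ) • w2 = 0 := by linear_combination (norm := module) f2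
      have := (smul_eq_zero.mp this).resolve_left (by norm_num)
      rw [this, neg_zero]

omit hF in
theorem LI3.scale {p q r : W} (h : LI3 p q r) {s t : ℂ} (hs : s * s = 1) (ht : t * t = 1) :
    LI3 p (s • q) (t • r) := by
  intro a b c habc
  have := h a (b * s) (c * t) (by linear_combination (norm := module) habc)
  exact ⟨this.1, (mul_eq_zero.mp this.2.1).resolve_right (sign_ne_zero hs),
    (mul_eq_zero.mp this.2.2).resolve_right (sign_ne_zero ht)⟩

/-- additivity for independent triples -/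
theorem SignMap.pp_add_li3 {v0 v w : V} (h : LI3 v0 v w) {a b : W} (ha : PP F v0 v a)
    (hb : PP F v0 w b) : PP F v0 (v + w) (a + b) := by
  obtain ⟨⟨sv, hsv, ea⟩, x, hx, fx⟩ := ha
  obtain ⟨⟨sw, hsw, eb⟩, y, hy, fy⟩ := hb
  have hli : LI3 (F v0) a b := by
    rw [ea, eb]
    exact (hF.li3 h).scale hsv hsw
  have ea' := sign_swap hsv ea
  have eb' := sign_swap hsw eb
  obtain ⟨p, q, hp, hq, e1⟩ := hF.add (v0 + v) w
  obtain ⟨p', q', hp', hq', e2⟩ := hF.add (v0 + w) v
  obtain ⟨d, e, hd, he, e3⟩ := hF.add v w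
  obtain ⟨g, k, hg, hk, e4⟩ := hF.add v0 (v + w)
  have c1 : v0 + v + w = v0 + (v + w) := by abel
  have c2 : v0 + w + v = v0 + (v + w) := by abel
  rw [c1, fx, eb'] at e1
  rw [c2, fy, ea'] at e2
  rw [e3, ea', eb'] at e4
  have z1 := hli (p * x - p' * y) (p * x - q' * sv) (q * sw - p' * y)
    (by linear_combination (norm := module) (-1 : ℂ) • e1 + e2)
  have z2 := hli (p * x - g) (p * x - k * d * sv) (q * sw - k * e * sw)
    (by linear_combination (norm := module) (-1 : ℂ) • e1 + e4)
  obtain ⟨z11, z12, z13⟩ := z1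
  obtain ⟨z21, z22, z23⟩ := z2
  have hσ : (p * x) * (p * x) = 1 := sign_mul hp hx
  constructor
  · refine ⟨k * (p * x), sign_mul hk hσ, ?_⟩
    rw [e3, ea', eb']
    have r1 : k * (p * x) * (d * sv) = 1 := by
      linear_combination hσ - (p * x) * z22
    have r2 : k * (p * x) * (e * sw) = 1 := by
      linear_combination hσ + (p * x) * (z13 - z11 - z23)
    linear_combination (norm := module) (-1 : ℂ) • (r1 • a) - (r2 • b)
  · refine ⟨p * x, hσ, ?_⟩
    rw [e1]
    linear_combination (norm := module) (z13 - z11) • b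

end signlin

section signlin2

variable {V W : Type*} [AddCommGroup V] [Module ℂ V] [AddCommGroup W] [Module ℂ W]
variable {F : V → W}

theorem LI2.ne_zero_left {v w : V} (h : LI2 v w) : v ≠ 0 := by
  rintro rfl
  exact one_ne_zero (h 1 0 (by simp)).1

theorem LI2.ne_zero_right {v w : V} (h : LI2 v w) : w ≠ 0 := by
  rintro rfl
  exact one_ne_zero (h 0 1 (by simp)).2

theorem not_li2 {v w : V} (hv : v ≠ 0) (h : ¬ LI2 v w) : ∃ c : ℂ, w = c • v := by
  unfold LI2 at h
  push Not at h
  obtain ⟨a, b, hab, h⟩ := h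
  by_cases hb : b = 0
  · exfalso
    subst hb
    rw [zero_smul, add_zero] at hab
    rcases smul_eq_zero.mp hab with h1 | h1
    · exact h h1 rfl
    · exact hv h1
  · refine ⟨-a / b, ?_⟩
    have : b • w = b • ((-a / b) • v) := by
      rw [smul_smul, mul_div_cancel₀ _ hb]
      linear_combination (norm := module) hab
    exact smul_right_injective V hb this

theorem LI2.smul_right {v w : V} (h : LI2 v w) {c : ℂ} (hc : c ≠ 0) : LI2 v (c • w) := by
  intro a b hab
  have := h a (b * c) (by rw [mul_smul]; exact hab)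
  exact ⟨this.1, (mul_eq_zero.mp this.2).resolve_right hc⟩

theorem li3_of_not_mem {v w u : V} (h : LI2 v w) (hu : u ∉ Submodule.span ℂ {v, w}) :
    LI3 v w u := by
  intro a b c habc
  by_cases hc : c = 0
  · subst hc
    rw [zero_smul, add_zero] at habc
    exact ⟨(h a b habc).1, (h a b habc).2, rfl⟩
  · exfalso
    apply hu
    rw [Submodule.mem_span_pair]
    refine ⟨-a / c, -b / c, ?_⟩
    have : c • ((-a / c) • v + (-b / c) • w) = c • u := by
      rw [smul_add, smul_smul, smul_smul, mul_div_cancel₀ _ hc, mul_div_cancel₀ _ hc]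
      linear_combination (norm := module) (-1 : ℂ) • habc
    exact smul_right_injective V hc this

variable (hF : SignMap F)
include hF

/-- the linearised map -/
noncomputable def SignMap.lin (v0 v : V) : W := (hF.exists_pp v0 v).choose

theorem SignMap.lin_spec (v0 v : V) : PP F v0 v (hF.lin v0 v) := (hF.exists_pp v0 v).choose_spec

theorem SignMap.lin_eq {v0 v : V} (hv0 : v0 ≠ 0) {w : W} (h : PP F v0 v w) : hF.lin v0 v = w :=
  hF.pp_unique hv0 (hF.lin_spec v0 v) h

theorem SignMap.lin_add_gen {v0 v w : V} (h1 : LI2 v0 v) (h2 : LI2 v0 w) (h3 : LI2 v0 (v + w)) :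
    hF.lin v0 (v + w) = hF.lin v0 v + hF.lin v0 w := by
  have hv0 := h1.ne_zero_left
  by_cases h : LI3 v0 v w
  · exact hF.lin_eq hv0 (hF.pp_add_li3 h (hF.lin_spec _ _) (hF.lin_spec _ _))
  · -- dependent
    have hw : w ∈ Submodule.span ℂ {v0, v} := by
      by_contra hw
      exact h (li3_of_not_mem h1 hw)
    obtain ⟨α, β, hw⟩ := Submodule.mem_span_pair.mp hw
    have hβ : β ≠ 0 := by
      rintro rfl
      have := h2 α (-1) (by rw [← hw]; module)
      exact one_ne_zero (neg_eq_zero.mp this.2)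
    have hβ1 : 1 + β ≠ 0 := by
      intro hβ1
      have := h3 α (-1) (by rw [← hw]; linear_combination (norm := module) (-hβ1) • v)
      exact one_ne_zero (neg_eq_zero.mp this.2)
    obtain ⟨u, hu⟩ := hF.dim v0 v
    have L := li3_of_not_mem h1 hu
    have L1 : LI3 v0 (v + w) u := by
      intro a b c habc
      have := L (a + b * α) (b * (1 + β)) c (by rw [← habc, ← hw]; module)
      have hb := (mul_eq_zero.mp this.2.1).resolve_right hβ1
      refine ⟨?_, hb, this.2.2⟩
      have h4 := this.1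
      rw [hb] at h4
      simpa using h4
    have L2 : LI3 v0 v (w + u) := by
      intro a b c habc
      have := L (a + c * α) (b + c * β) c (by rw [← habc, ← hw]; module)
      have hc := this.2.2
      refine ⟨?_, ?_, hc⟩
      · have h4 := this.1
        rw [hc] at h4
        simpa using h4
      · have h4 := this.2.1
        rw [hc] at h4
        simpa using h4
    have L3 : LI3 v0 w u := by
      intro a b c habc
      have := L (a + b * α) (b * β) c (by rw [← habc, ← hw]; module)
      have hb := (mul_eq_zero.mp this.2.1).resolve_right hβ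
      refine ⟨?_, hb, this.2.2⟩
      have h4 := this.1
      rw [hb] at h4
      simpa using h4
    have e1 := hF.lin_eq hv0 (hF.pp_add_li3 L1 (hF.lin_spec _ _) (hF.lin_spec _ _))
    have e2 := hF.lin_eq hv0 (hF.pp_add_li3 L2 (hF.lin_spec _ _) (hF.lin_spec _ _))
    have e3 := hF.lin_eq hv0 (hF.pp_add_li3 L3 (hF.lin_spec _ _) (hF.lin_spec _ _))
    rw [add_assoc v w u] at e1
    rw [e1, e3, ← add_assoc] at e2
    exact add_right_cancel e2

theorem SignMap.lin_zero (v0 : V) : hF.lin v0 0 = 0 := by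
  obtain ⟨⟨s, hs, e⟩, -⟩ := hF.lin_spec v0 0
  rw [e, hF.map_zero, smul_zero]

theorem SignMap.lin_smul_gen {v0 v : V} (h : LI2 v0 v) (c : ℂ) :
    hF.lin v0 (c • v) = c • hF.lin v0 v := by
  have hv0 := h.ne_zero_left
  have hFv : hF.lin v0 v ≠ 0 := by
    obtain ⟨⟨s, hs, e⟩, -⟩ := hF.lin_spec v0 v
    rw [e]
    exact smul_ne_zero (sign_ne_zero hs) (fun h' => h.ne_zero_right (hF.eq_zero h'))
  have key : ∀ c : ℂ, ∃ χ : ℂ, χ * χ = 1 ∧ hF.lin v0 (c • v) = (χ * c) • hF.lin v0 v := by
    intro c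
    obtain ⟨⟨s, hs, e⟩, -⟩ := hF.lin_spec v0 (c • v)
    obtain ⟨⟨s', hs', e'⟩, -⟩ := hF.lin_spec v0 v
    obtain ⟨t, ht, e2⟩ := hF.smul c v
    refine ⟨s * t * s', sign_mul (sign_mul hs ht) hs', ?_⟩
    rw [e, e2, e']
    linear_combination (norm := module) (-(s * t * c) : ℂ) • (hs' • F v)
  have main : ∀ c : ℂ, c ≠ 0 → c + 1 ≠ 0 → hF.lin v0 (c • v) = c • hF.lin v0 v := by
    intro c hc hc1
    obtain ⟨χ, hχ, e1⟩ := key c
    obtain ⟨χ', hχ', e2⟩ := key (c + 1)
    have e3 := hF.lin_add_gen (v0 := v0) (v := c • v) (w := v) (h.smul_right hc) h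
      (by
        have : c • v + v = (c + 1) • v := by module
        rw [this]
        exact h.smul_right hc1)
    have e4 : c • v + v = (c + 1) • v := by module
    rw [e4, e2, e1] at e3
    have e5 : (χ' * (c + 1) - χ * c - 1) • hF.lin v0 v = 0 := by
      linear_combination (norm := module) e3
    have e6 := (smul_eq_zero.mp e5).resolve_right hFv
    rcases sign_cases hχ with a | a
    · rw [e1, a, one_mul]
    · exfalso
      rcases sign_cases hχ' with b | b
      · rw [a, b] at e6
        apply hc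
        linear_combination e6 / 2
      · rw [a, b] at e6
        have : (2 : ℂ) = 0 := by linear_combination -e6
        norm_num at this
  by_cases hc : c = 0
  · subst hc
    rw [zero_smul, zero_smul, hF.lin_zero v0]
  by_cases hc1 : c + 1 = 0
  · have hc' : c = -1 := by linear_combination hc1
    subst hc'
    have e3 := hF.lin_add_gen (v0 := v0) (v := (-2 : ℂ) • v) (w := v) (h.smul_right (by norm_num)) h
      (by
        have : (-2 : ℂ) • v + v = (-1 : ℂ) • v := by module
        rw [this]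
        exact h.smul_right (by norm_num))
    have e4 : (-2 : ℂ) • v + v = (-1 : ℂ) • v := by module
    rw [e4, main (-2) (by norm_num) (by norm_num)] at e3
    rw [e3]
    module
  · exact main c hc hc1

theorem SignMap.lin_smul_base {v0 : V} (hv0 : v0 ≠ 0) (c : ℂ) :
    hF.lin v0 (c • v0) = c • F v0 := by
  apply hF.lin_eq hv0
  constructor
  · obtain ⟨s, hs, e⟩ := hF.smul c v0
    exact ⟨s, hs, sign_swap hs e⟩
  · obtain ⟨s, hs, e⟩ := hF.smul (1 + c) v0
    refine ⟨s, hs, ?_⟩
    have : v0 + c • v0 = (1 + c) • v0 := by module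
    rw [this, e]
    module

theorem SignMap.lin_base_add {v0 w : V} (h : LI2 v0 w) (c : ℂ) :
    hF.lin v0 (c • v0 + w) = c • F v0 + hF.lin v0 w := by
  have hv0 := h.ne_zero_left
  have key : ∀ c : ℂ, ∃ s : ℂ, s * s = 1 ∧ F (c • v0 + w) = s • (c • F v0 + hF.lin v0 w) := by
    intro c
    by_cases hc : c = 0
    · subst hc
      obtain ⟨⟨s, hs, e⟩, -⟩ := hF.lin_spec v0 w
      refine ⟨s, hs, ?_⟩
      rw [zero_smul, zero_add, zero_smul, zero_add]
      exact sign_swap hs e
    · have e1 : c • v0 + w = c • (v0 + c⁻¹ • w) := by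
        rw [smul_add, smul_smul, mul_inv_cancel₀ hc, one_smul]
      obtain ⟨s, hs, e2⟩ := hF.smul c (v0 + c⁻¹ • w)
      obtain ⟨-, t, ht, e3⟩ := hF.lin_spec v0 (c⁻¹ • w)
      rw [hF.lin_smul_gen h] at e3
      refine ⟨s * t, sign_mul hs ht, ?_⟩
      rw [e1, e2, e3]
      have : c • (t • (F v0 + c⁻¹ • hF.lin v0 w)) = t • (c • F v0 + (c * c⁻¹) • hF.lin v0 w) := by
        module
      rw [this, mul_inv_cancel₀ hc, one_smul, smul_smul]
  apply hF.lin_eq hv0
  constructor
  · obtain ⟨s, hs, e⟩ := key c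
    exact ⟨s, hs, sign_swap hs e⟩
  · obtain ⟨s, hs, e⟩ := key (1 + c)
    refine ⟨s, hs, ?_⟩
    have : v0 + (c • v0 + w) = (1 + c) • v0 + w := by module
    rw [this, e]
    module

theorem SignMap.lin_add {v0 : V} (hv0 : v0 ≠ 0) (v w : V) :
    hF.lin v0 (v + w) = hF.lin v0 v + hF.lin v0 w := by
  by_cases h1 : LI2 v0 v
  · by_cases h2 : LI2 v0 w
    · by_cases h3 : LI2 v0 (v + w)
      · exact hF.lin_add_gen h1 h2 h3
      · obtain ⟨c, hc⟩ := not_li2 hv0 h3
        have e1 : v = c • v0 + (-1 : ℂ) • w := by rw [← hc]; module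
        have e2 := hF.lin_base_add (h2.smul_right (c := -1) (by norm_num)) c
        rw [← e1, hF.lin_smul_gen h2] at e2
        rw [hc, e2, hF.lin_smul_base hv0]
        module
    · obtain ⟨c, rfl⟩ := not_li2 hv0 h2
      rw [add_comm v, hF.lin_base_add h1, hF.lin_smul_base hv0, add_comm]
  · obtain ⟨c, rfl⟩ := not_li2 hv0 h1
    by_cases h2 : LI2 v0 w
    · rw [hF.lin_base_add h2, hF.lin_smul_base hv0]
    · obtain ⟨d, rfl⟩ := not_li2 hv0 h2
      rw [← add_smul, hF.lin_smul_base hv0, hF.lin_smul_base hv0, hF.lin_smul_base hv0, add_smul]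

theorem SignMap.lin_smul {v0 : V} (hv0 : v0 ≠ 0) (c : ℂ) (v : V) :
    hF.lin v0 (c • v) = c • hF.lin v0 v := by
  by_cases h1 : LI2 v0 v
  · exact hF.lin_smul_gen h1 c
  · obtain ⟨d, rfl⟩ := not_li2 hv0 h1
    rw [smul_smul, hF.lin_smul_base hv0, hF.lin_smul_base hv0, smul_smul]

/-- A map that is linear up to signs is, up to signs, a linear map. -/
theorem SignMap.exists_linear : ∃ ψ : V →ₗ[ℂ] W, ∀ v, ∃ s : ℂ, s * s = 1 ∧ F v = s • ψ v := by
  obtain ⟨v0, hv0⟩ : ∃ v0 : V, v0 ≠ 0 := by
    obtain ⟨c, hc⟩ := hF.dim 0 0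
    refine ⟨c, fun h => hc ?_⟩
    rw [h]
    exact Submodule.zero_mem _
  refine ⟨{ toFun := hF.lin v0, map_add' := hF.lin_add hv0, map_smul' := hF.lin_smul hv0 }, ?_⟩
  intro v
  obtain ⟨⟨s, hs, e⟩, -⟩ := hF.lin_spec v0 v
  exact ⟨s, hs, sign_swap hs e⟩

end signlin2

end Pool.Agent.Lib0bd5b4
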