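import Pool.Agent.Lib_0bd5b4.Basic
import Pool.Agent.Lib_0bd5b4.SignLin

open ContinuousLinearMap

namespace Pool.Agent.Lib0bd5b4

/-- No two vectors span the space. -/
def Dim3 (X : Type*) [AddCommGroup X] [Module ℂ X] : Prop :=
  ∀ a b : X, ∃ c : X, c ∉ Submodule.span ℂ {a, b}

section P2

variable {X : Type*} [NormedAddCommGroup X] [NormedSpace ℂ X]

theorem mem_spectrum_of_eigen {A : X →L[ℂ] X} {v : X} {z : ℂ} (hv : v ≠ 0) (h : A v = z • v) :
    z ∈ spectrum ℂ A := by
  rw [spectrum.mem_iff, Algebra.algebraMap_eq_smul_one]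
  intro hu
  obtain ⟨W, -, hW⟩ := isUnit_iff_exists.mp hu
  apply hv
  have h1 : (z • (1 : X →L[ℂ] X) - A) v = 0 := by
    change z • v - A v = 0
    rw [h, sub_self]
  have h2 := congrArg (fun L : X →L[ℂ] X => L v) hW
  change W ((z • (1 : X →L[ℂ] X) - A) v) = v at h2
  rw [h1, map_zero] at h2
  exact h2.symm

/-- The commutator spectra of `T` have at most two nonzero points, opposite to each other. -/
def P2 (T : X →L[ℂ] X) : Prop :=
  ∀ (S : X →L[ℂ] X) (z w : ℂ), z ∈ spectrum ℂ (T * S - S * T) → w ∈ spectrum ℂ (T * S - S * T) →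
    z ≠ 0 → w ≠ 0 → z ^ 2 = w ^ 2

theorem mem_spectrum_comm_swap {T S : X →L[ℂ] X} {z : ℂ} :
    z ∈ spectrum ℂ (T * S - S * T) ↔ -z ∈ spectrum ℂ (S * T - T * S) := by
  have : T * S - S * T = -(S * T - T * S) := by abel
  rw [this, ← spectrum.neg_eq, Set.mem_neg]

theorem P2_of_rk (c : ℂ) (x : X) (f : StrongDual ℂ X) : P2 (c • 1 + rk x f) := by
  intro S z w hz hw hz0 hw0
  rw [mem_spectrum_comm_swap, mem_spectrum_comm_smul_add_rk _ _ _ _ (neg_ne_zero.mpr hz0)] at hz
  rw [mem_spectrum_comm_swap, mem_spectrum_comm_smul_add_rk _ _ _ _ (neg_ne_zero.mpr hw0)] at hw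
  linear_combination hz - hw

theorem P2.sub_smul {T : X →L[ℂ] X} (h : P2 T) (a : ℂ) : P2 (T - a • 1) := by
  intro S z w
  have : (T - a • 1) * S - S * (T - a • 1) = T * S - S * T := by
    simp [sub_mul, mul_sub]
  rw [this]
  exact h S z w

theorem LI3.linearIndependent {u v w : X} (h : LI3 u v w) : LinearIndependent ℂ ![u, v, w] := by
  rw [Fintype.linearIndependent_iff]
  intro g hg
  simp [Fin.sum_univ_three] at hg
  obtain ⟨h0, h1, h2⟩ := h _ _ _ hg
  intro i
  fin_cases i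
  · exact h0
  · exact h1
  · exact h2

theorem LI2.linearIndependent {u v : X} (h : LI2 u v) : LinearIndependent ℂ ![u, v] := by
  rw [LinearIndependent.pair_iff]
  exact h

theorem li2_of_forall_ne {u v : X} (hu : u ≠ 0) (h : ∀ c : ℂ, v ≠ c • u) : LI2 u v := by
  by_contra hc
  obtain ⟨c, hc⟩ := not_li2 hu hc
  exact h c hc

theorem P2.mem_span {T : X →L[ℂ] X} (h : P2 T) {x : X} (hx : LI2 x (T x)) :
    T (T x) ∈ Submodule.span ℂ {x, T x} := by
  by_contra hmem
  have hli := (li3_of_not_mem hx hmem).linearIndependent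
  obtain ⟨h1, hh1⟩ := exists_functional _ hli ![0, 1, 0]
  obtain ⟨h2, hh2⟩ := exists_functional _ hli ![0, 0, 1]
  have a0 := hh1 0
  have a1 := hh1 1
  have a2 := hh1 2
  have b0 := hh2 0
  have b1 := hh2 1
  have b2 := hh2 2
  simp at a0 a1 a2 b0 b1 b2
  set S : X →L[ℂ] X := (-1 : ℂ) • rk x h1 + (-3 : ℂ) • rk (T x) h2 with hS
  have e1 : (T * S - S * T) x = (1 : ℂ) • x := by
    change T (S x) - S (T x) = (1 : ℂ) • x
    simp [hS, a0, a1, b0, b1]
  have e2 : (T * S - S * T) (T x) = (2 : ℂ) • T x := by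
    change T (S (T x)) - S (T (T x)) = (2 : ℂ) • T x
    simp [hS, a1, a2, b1, b2]
    module
  have := h S 1 2 (mem_spectrum_of_eigen hx.ne_zero_left e1)
    (mem_spectrum_of_eigen hx.ne_zero_right e2) one_ne_zero two_ne_zero
  norm_num at this

theorem P2.mem_span' {T : X →L[ℂ] X} (h : P2 T) {x y : X} (hx : LI2 x (T x))
    (hy : y ∉ Submodule.span ℂ {x, T x}) : ∃ a b c : ℂ, T y = a • x + b • T x + c • y := by
  by_contra hmem
  push Not at hmem
  have hli : LinearIndependent ℂ ![x, T x, y, T y] := by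
    rw [Fintype.linearIndependent_iff]
    intro g hg
    simp [Fin.sum_univ_four] at hg
    have h3 : g 3 = 0 := by
      by_contra h3
      apply hmem (-g 0 / g 3) (-g 1 / g 3) (-g 2 / g 3)
      have : g 3 • T y = g 3 • ((-g 0 / g 3) • x + (-g 1 / g 3) • T x + (-g 2 / g 3) • y) := by
        rw [smul_add, smul_add, smul_smul, smul_smul, smul_smul, mul_div_cancel₀ _ h3,
          mul_div_cancel₀ _ h3, mul_div_cancel₀ _ h3]
        linear_combination (norm := module) hg
      exact smul_right_injective X h3 this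
    rw [h3, zero_smul, add_zero] at hg
    obtain ⟨h0, h1, h2⟩ := li3_of_not_mem hx hy _ _ _ hg
    intro i
    fin_cases i
    · exact h0
    · exact h1
    · exact h2
    · exact h3
  obtain ⟨h1, hh1⟩ := exists_functional _ hli ![0, 1, 0, 0]
  obtain ⟨h2, hh2⟩ := exists_functional _ hli ![0, 0, 0, 1]
  have a0 := hh1 0
  have a1 := hh1 1
  have a2 := hh1 2
  have a3 := hh1 3
  have b0 := hh2 0
  have b1 := hh2 1
  have b2 := hh2 2
  have b3 := hh2 3
  simp at a0 a1 a2 a3 b0 b1 b2 b3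
  have hy0 : y ≠ 0 := by
    rintro rfl
    exact hy (Submodule.zero_mem _)
  set S : X →L[ℂ] X := (-1 : ℂ) • rk x h1 + (-2 : ℂ) • rk y h2 with hS
  have e1 : (T * S - S * T) x = (1 : ℂ) • x := by
    change T (S x) - S (T x) = (1 : ℂ) • x
    simp [hS, a0, a1, b0, b1]
  have e2 : (T * S - S * T) y = (2 : ℂ) • y := by
    change T (S y) - S (T y) = (2 : ℂ) • y
    simp [hS, a2, a3, b2, b3]
  have := h S 1 2 (mem_spectrum_of_eigen hx.ne_zero_left e1)
    (mem_spectrum_of_eigen hy0 e2) one_ne_zero two_ne_zero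
  norm_num at this

/-- In dimension at least three, `P2` characterises scalar + rank one operators. -/
theorem P2.exists_rk (h3 : Dim3 X) {T : X →L[ℂ] X} (h : P2 T) :
    ∃ (c : ℂ) (x : X) (f : StrongDual ℂ X), T = c • 1 + rk x f := by
  by_cases hsc : ∀ y, ∃ c : ℂ, T y = c • y
  · obtain ⟨c, hc⟩ := exists_eq_smul_one T hsc
    exact ⟨c, 0, 0, by rw [hc]; ext; simp⟩
  push Not at hsc
  obtain ⟨x, hx⟩ := hsc
  have hx0 : x ≠ 0 := by
    rintro rfl
    exact hx 0 (by simp)
  have hli : LI2 x (T x) := li2_of_forall_ne hx0 hx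
  set V : Submodule ℂ X := Submodule.span ℂ {x, T x} with hV
  -- `V` is invariant
  have hinv : ∀ y ∈ V, T y ∈ V := by
    intro y hy
    obtain ⟨a, b, rfl⟩ := Submodule.mem_span_pair.mp hy
    rw [map_add, map_smul, map_smul]
    exact V.add_mem (V.smul_mem _ (Submodule.subset_span (by simp)))
      (V.smul_mem _ (h.mem_span hli))
  let Tb : (X ⧸ V) →ₗ[ℂ] (X ⧸ V) := V.mapQ V (T : X →ₗ[ℂ] X) (fun y hy => hinv y hy)
  obtain ⟨a, ha⟩ := LinearMap.exists_eq_smul_id_of_forall_notLinearIndependent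
    (f := Tb) (fun v => by
      obtain ⟨y, rfl⟩ := Submodule.Quotient.mk_surjective V v
      intro hli'
      rw [LinearIndependent.pair_iff] at hli'
      by_cases hy : y ∈ V
      · have := hli' 1 0 (by simp [(Submodule.Quotient.mk_eq_zero V).mpr hy])
        exact one_ne_zero this.1
      · obtain ⟨p, q, r, hp⟩ := h.mem_span' hli hy
        have e1 : Tb (Submodule.Quotient.mk y) = r • Submodule.Quotient.mk y := by
          change Submodule.Quotient.mk (T y) = r • Submodule.Quotient.mk y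
          rw [← Submodule.Quotient.mk_smul, Submodule.Quotient.eq, hp]
          have : p • x + q • T x + r • y - r • y = p • x + q • T x := by abel
          rw [this]
          exact Submodule.mem_span_pair.mpr ⟨p, q, rfl⟩
        have := hli' r (-1) (by rw [e1]; module)
        exact one_ne_zero (neg_eq_zero.mp this.2))
  have hT1 : ∀ y, T y - a • y ∈ V := by
    intro y
    have := congrArg (fun L : (X ⧸ V) →ₗ[ℂ] (X ⧸ V) => L (Submodule.Quotient.mk y)) ha
    change (Submodule.Quotient.mk (T y) : X ⧸ V) = a • (Submodule.Quotient.mk y : X ⧸ V) at this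
    rw [← Submodule.Quotient.mk_smul, Submodule.Quotient.eq] at this
    exact this
  set T1 : X →L[ℂ] X := T - a • 1 with hT1def
  have hT1a : ∀ y, T1 y = T y - a • y := fun y => rfl
  have h' : P2 T1 := h.sub_smul a
  have hli1 : LI2 x (T1 x) := by
    intro p q hpq
    rw [hT1a] at hpq
    have := hli (p - q * a) q (by rw [← hpq]; module)
    have h2 := this.2
    have h1 := this.1
    rw [h2] at h1
    exact ⟨by simpa using h1, h2⟩
  have hVspan : V = Submodule.span ℂ {x, T1 x} := by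
    apply le_antisymm
    · rw [hV, Submodule.span_le]
      intro y hy
      rcases hy with rfl | hy
      · exact Submodule.subset_span (by simp)
      · rw [Set.mem_singleton_iff] at hy
        subst hy
        exact Submodule.mem_span_pair.mpr ⟨a, 1, by rw [hT1a]; module⟩
    · rw [Submodule.span_le]
      intro y hy
      rcases hy with rfl | hy
      · exact Submodule.subset_span (by simp)
      · rw [Set.mem_singleton_iff] at hy
        subst hy
        exact hT1 x
  -- key: `x` is not in the range of `T1`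
  have key1 : ∀ w, w ∉ V → T1 w ≠ x := by
    intro w hw hTw
    have hliw : LI2 w (T1 w) := by
      apply li2_of_forall_ne
      · rintro rfl
        exact hw (Submodule.zero_mem _)
      · intro c hc
        rw [hTw] at hc
        by_cases hc0 : c = 0
        · rw [hc0, zero_smul] at hc
          exact hx0 hc
        · apply hw
          have : w = c⁻¹ • x := by rw [hc, smul_smul, inv_mul_cancel₀ hc0, one_smul]
          rw [this]
          exact V.smul_mem _ (Submodule.subset_span (by simp))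
    have hm := h'.mem_span hliw
    rw [hTw] at hm
    obtain ⟨p, q, hpq⟩ := Submodule.mem_span_pair.mp hm
    have hp : p = 0 := by
      by_contra hp
      apply hw
      have : w = p⁻¹ • (T1 x - q • x) := by
        rw [← hpq, add_sub_cancel_right, smul_smul, inv_mul_cancel₀ hp, one_smul]
      rw [this, hVspan]
      exact Submodule.smul_mem _ _ (Submodule.sub_mem _ (Submodule.subset_span (by simp))
        (Submodule.smul_mem _ _ (Submodule.subset_span (by simp))))
    rw [hp, zero_smul, zero_add] at hpq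
    have := hli1 q (-1) (by rw [← hpq]; module)
    exact one_ne_zero (neg_eq_zero.mp this.2)
  have key : ∀ w, T1 w ≠ x := by
    intro w hTw
    by_cases hw : w ∈ V
    · obtain ⟨y0, hy0⟩ := h3 x (T x)
      have hy1 : T1 y0 ∈ Submodule.span ℂ {x, T1 x} := by rw [← hVspan]; exact hT1 y0
      obtain ⟨α, β, hαβ⟩ := Submodule.mem_span_pair.mp hy1
      set k := y0 - (α • w + β • x) with hk
      have hTk : T1 k = 0 := by
        rw [hk, map_sub, map_add, map_smul, map_smul, hTw, hαβ, sub_self]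
      have hkV : k ∉ V := by
        intro hkV
        apply hy0
        have : y0 = k + (α • w + β • x) := by rw [hk]; abel
        rw [this]
        exact V.add_mem hkV (V.add_mem (V.smul_mem _ hw)
          (V.smul_mem _ (Submodule.subset_span (by simp))))
      apply key1 (w + k)
      · intro hwk
        apply hkV
        have := V.sub_mem hwk hw
        simpa using this
      · rw [map_add, hTk, add_zero, hTw]
    · exact key1 w hw hTw
  have hform : ∀ y, ∃ β : ℂ, T1 y = β • T1 x := by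
    intro y
    have hy1 : T1 y ∈ Submodule.span ℂ {x, T1 x} := by rw [← hVspan]; exact hT1 y
    obtain ⟨α, β, hαβ⟩ := Submodule.mem_span_pair.mp hy1
    have hα : α = 0 := by
      by_contra hα
      apply key (α⁻¹ • (y - β • x))
      rw [map_smul, map_sub, map_smul, ← hαβ, add_sub_cancel_right, smul_smul,
        inv_mul_cancel₀ hα, one_smul]
    refine ⟨β, ?_⟩
    rw [← hαβ, hα, zero_smul, zero_add]
  obtain ⟨g, hg⟩ := SeparatingDual.exists_eq_one (R := ℂ) hli1.ne_zero_right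
  refine ⟨a, T1 x, g.comp T1, ?_⟩
  ext y
  obtain ⟨β, hβ⟩ := hform y
  have : g (T1 y) = β := by rw [hβ, map_smul, hg]; simp
  change T y = a • y + (g (T1 y)) • T1 x
  rw [this, ← hβ, hT1a]
  abel

end P2

section Rel

variable {X : Type*} [NormedAddCommGroup X] [NormedSpace ℂ X]
  {Y : Type*} [NormedAddCommGroup Y] [NormedSpace ℂ Y]

/-- A (left and right total) relation preserving commutator spectra. -/
structure CRel (Γ : (X →L[ℂ] X) → (Y →L[ℂ] Y) → Prop) : Prop where
  left : ∀ T, ∃ T', Γ T T'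
  right : ∀ T', ∃ T, Γ T T'
  spec : ∀ T T' S S', Γ T T' → Γ S S' →
    spectrum ℂ (T * S - S * T) = spectrum ℂ (T' * S' - S' * T')

theorem CRel.symm {Γ : (X →L[ℂ] X) → (Y →L[ℂ] Y) → Prop} (h : CRel Γ) :
    CRel (fun T' T => Γ T T') :=
  ⟨h.right, h.left, fun T T' S S' h1 h2 => (h.spec T' T S' S h1 h2).symm⟩

theorem CRel.P2 {Γ : (X →L[ℂ] X) → (Y →L[ℂ] Y) → Prop} (h : CRel Γ) {T : X →L[ℂ] X}
    {T' : Y →L[ℂ] Y} (hT : Γ T T') (h2 : P2 T) : P2 T' := by
  intro S' z w
  obtain ⟨S, hS⟩ := h.right S'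
  rw [← h.spec _ _ _ _ hT hS]
  exact h2 S z w

/-- partner relation on rank one data -/
def G1 (Γ : (X →L[ℂ] X) → (Y →L[ℂ] Y) → Prop) (x : X) (f : StrongDual ℂ X) (y : Y)
    (g : StrongDual ℂ Y) : Prop :=
  ∃ c c' : ℂ, Γ (c • 1 + rk x f) (c' • 1 + rk y g)

theorem CRel.exists_partner {Γ : (X →L[ℂ] X) → (Y →L[ℂ] Y) → Prop} (h : CRel Γ) (h3 : Dim3 Y)
    (x : X) (f : StrongDual ℂ X) : ∃ y g, G1 Γ x f y g := by
  obtain ⟨T', hT'⟩ := h.left ((0 : ℂ) • 1 + rk x f)
  obtain ⟨c, y, g, rfl⟩ := (h.P2 hT' (P2_of_rk _ _ _)).exists_rk h3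
  exact ⟨y, g, 0, c, hT'⟩

theorem eq_of_sq {a b : ℂ} (h : ∀ z : ℂ, z ≠ 0 → (z ^ 2 = a ↔ z ^ 2 = b)) : a = b := by
  by_cases ha : a = 0
  · by_contra hb
    obtain ⟨z, hz⟩ := IsAlgClosed.exists_pow_nat_eq b (n := 2) (by norm_num)
    have hz0 : z ≠ 0 := by
      rintro rfl
      apply hb
      rw [ha, ← hz]
      norm_num
    have := (h z hz0).mpr hz
    apply hb
    rw [← this, hz]
  · obtain ⟨z, hz⟩ := IsAlgClosed.exists_pow_nat_eq a (n := 2) (by norm_num)
    have hz0 : z ≠ 0 := by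
      rintro rfl
      apply ha
      rw [← hz]
      norm_num
    have := (h z hz0).mp hz
    rw [← this, hz]

theorem CRel.qf_eq {Γ : (X →L[ℂ] X) → (Y →L[ℂ] Y) → Prop} (h : CRel Γ)
    {x : X} {f : StrongDual ℂ X} {y : Y} {g : StrongDual ℂ Y} (h1 : G1 Γ x f y g)
    {T : X →L[ℂ] X} {T' : Y →L[ℂ] Y} (hT : Γ T T') : qf T x f = qf T' y g := by
  obtain ⟨c, c', h1⟩ := h1
  apply eq_of_sq
  intro z hz
  rw [← mem_spectrum_comm_smul_add_rk T c x f hz, ← mem_spectrum_comm_smul_add_rk T' c' y g hz,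
    h.spec _ _ _ _ hT h1]

theorem qf_add_smul (A B : Y →L[ℂ] Y) (y : Y) (g : StrongDual ℂ Y) (z : ℂ) :
    qf (A + z • B) y g = qf A y g + z * (2 * g (A y) * g (B y) - g y * (g (A (B y)) + g (B (A y))))
      + z ^ 2 * qf B y g := by
  simp only [qf, add_apply, smul_apply, map_add, map_smul, smul_eq_mul]
  ring

theorem Dim3.exists_functional_pair (h3 : Dim3 Y) {y : Y} (g : StrongDual ℂ Y) (hy : y ≠ 0)
    (hg : g ≠ 0) : ∃ (g2 : StrongDual ℂ Y) (v : Y), g2 y = 0 ∧ g2 v = 1 ∧ g v = 0 := by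
  obtain ⟨w0, hw0⟩ : ∃ w, g w ≠ 0 := by
    by_contra h
    push Not at h
    exact hg (ContinuousLinearMap.ext h)
  obtain ⟨c, hc⟩ := h3 y w0
  set v := c - (g c / g w0) • w0 with hv
  have hgv : g v = 0 := by
    rw [hv, map_sub, map_smul, smul_eq_mul, div_mul_cancel₀ _ hw0, sub_self]
  have hli : LI2 y v := by
    apply li2_of_forall_ne hy
    intro a ha
    apply hc
    rw [Submodule.mem_span_pair]
    refine ⟨a, g c / g w0, ?_⟩
    rw [← ha, hv]
    abel
  obtain ⟨g2, hg2⟩ := exists_functional _ hli.linearIndependent ![0, 1]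
  have b0 := hg2 0
  have b1 := hg2 1
  simp at b0 b1
  exact ⟨g2, v, b0, b1, hgv⟩

/-- Distinguishing lemma for non-nilpotent rank one operators. -/
theorem exists_test (h3 : Dim3 Y) {y y2 : Y} {g g2 : StrongDual ℂ Y} (hgy : g y ≠ 0)
    (hy2 : y2 ≠ 0) (hg2 : g2 ≠ 0) (hnp : ¬ ((∃ c : ℂ, y2 = c • y) ∧ ∃ d : ℂ, g2 = d • g)) :
    ∃ A B : Y →L[ℂ] Y, qf A y g = 0 ∧ qf A y2 g2 ≠ 0 ∧
      2 * g (A y) * g (B y) - g y * (g (A (B y)) + g (B (A y))) ≠ 0 := by
  have hy : y ≠ 0 := by
    rintro rfl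
    simp at hgy
  by_cases hpar : ∃ c : ℂ, y2 = c • y
  · -- `y2 = c y`, so `g2` is not a multiple of `g`
    obtain ⟨c, hc⟩ := hpar
    have hc0 : c ≠ 0 := by
      rintro rfl
      rw [zero_smul] at hc
      exact hy2 hc
    have hng : ¬ ∃ d : ℂ, g2 = d • g := fun h => hnp ⟨⟨c, hc⟩, h⟩
    obtain ⟨u, hu1, hu2⟩ : ∃ u, g u = 0 ∧ g2 u ≠ 0 := by
      by_contra hcon
      push Not at hcon
      apply hng
      refine ⟨g2 y / g y, ?_⟩
      ext v
      have := hcon (v - (g v / g y) • y) (by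
        rw [map_sub, map_smul, smul_eq_mul, div_mul_cancel₀ _ hgy, sub_self])
      rw [map_sub, map_smul, smul_eq_mul, sub_eq_zero] at this
      rw [this, smul_apply, smul_eq_mul]
      ring
    have hli : LI2 y u := by
      apply li2_of_forall_ne hy
      intro a ha
      rw [ha, map_smul, smul_eq_mul] at hu1
      have ha0 := (mul_eq_zero.mp hu1).resolve_right hgy
      rw [ha0, zero_smul] at ha
      apply hu2
      rw [ha, map_zero]
    obtain ⟨h, hh⟩ := exists_functional _ hli.linearIndependent ![1, 0]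
    have b0 := hh 0
    have b1 := hh 1
    simp at b0 b1
    refine ⟨rk u h, rk y g2, ?_, ?_, ?_⟩
    · simp [qf, b0, b1, hu1]
    · simp [qf, b0, b1, hc, hc0, hu2]
    · simp [b0, hu1, hu2, hgy]
  · -- `y2` is not a multiple of `y`
    have hli : LI2 y y2 := li2_of_forall_ne hy (fun c hc => hpar ⟨c, hc⟩)
    obtain ⟨c0, hc0⟩ := h3 y y2
    have hli3 := li3_of_not_mem hli hc0
    obtain ⟨h0, hh0⟩ := exists_functional _ hli3.linearIndependent ![0, 0, 1]
    have k0 := hh0 0
    have k1 := hh0 1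
    have k2 := hh0 2
    simp at k0 k1 k2
    obtain ⟨u, hu⟩ := LinePoly.exists_forall_ne_zero (E := Y) Finset.univ
      (![fun v => g v, fun v => g2 v, fun v => h0 v] : Fin 3 → Y → ℂ)
      (fun i _ => by
        fin_cases i
        · exact LinePoly.linear ((g : StrongDual ℂ Y) : Y →ₗ[ℂ] ℂ)
        · exact LinePoly.linear ((g2 : StrongDual ℂ Y) : Y →ₗ[ℂ] ℂ)
        · exact LinePoly.linear ((h0 : StrongDual ℂ Y) : Y →ₗ[ℂ] ℂ))
      (fun i _ => by
        fin_cases i
        · exact ⟨y, hgy⟩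
        · by_contra hcon
          push Not at hcon
          exact hg2 (ContinuousLinearMap.ext hcon)
        · exact ⟨c0, by simp [k2]⟩)
    have u0 : g u ≠ 0 := hu 0 (Finset.mem_univ _)
    have u1 : g2 u ≠ 0 := hu 1 (Finset.mem_univ _)
    have u2 : h0 u ≠ 0 := hu 2 (Finset.mem_univ _)
    have hli4 : LI3 y y2 u := by
      apply li3_of_not_mem hli
      intro hmem
      obtain ⟨a, b, hab⟩ := Submodule.mem_span_pair.mp hmem
      apply u2
      rw [← hab, map_add, map_smul, map_smul, k0, k1]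
      simp
    obtain ⟨h, hh⟩ := exists_functional _ hli4.linearIndependent ![0, 1, 0]
    have b0 := hh 0
    have b1 := hh 1
    have b2 := hh 2
    simp at b0 b1 b2
    refine ⟨rk u h, rk y2 g, ?_, ?_, ?_⟩
    · simp [qf, b0]
    · simp [qf, b1, b2, u1]
    · simp [b0, b1, u0, hgy]

/-- nilpotent rank one operators correspond to nilpotent ones -/
theorem CRel.apply_eq_zero {Γ : (X →L[ℂ] X) → (Y →L[ℂ] Y) → Prop} (h : CRel Γ)
    (hX : Dim3 X) (hY : Dim3 Y)
    {x : X} {f : StrongDual ℂ X} {y : Y} {g : StrongDual ℂ Y} (h1 : G1 Γ x f y g)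
    (hfx : f x = 0) : g y = 0 := by
  by_contra hgy
  have hy : y ≠ 0 := by
    rintro rfl
    simp at hgy
  have hg : g ≠ 0 := by
    rintro rfl
    simp at hgy
  -- the value at some `T'` does not vanish
  have hval : ∃ T' : Y →L[ℂ] Y, qf T' y g ≠ 0 := by
    obtain ⟨g2, v, e1, e2, e3⟩ := hY.exists_functional_pair g hy hg
    refine ⟨rk (y + v) ((g y)⁻¹ • g - g2), ?_⟩
    simp [qf, e1, e2, e3, hgy]
  have hx : x ≠ 0 := by
    rintro rfl
    obtain ⟨T', hT'⟩ := hval
    obtain ⟨T, hT⟩ := h.right T'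
    apply hT'
    rw [← h.qf_eq h1 hT]
    simp [qf]
  have hf : f ≠ 0 := by
    rintro rfl
    obtain ⟨T', hT'⟩ := hval
    obtain ⟨T, hT⟩ := h.right T'
    apply hT'
    rw [← h.qf_eq h1 hT]
    simp [qf]
  obtain ⟨f2, v, e1, e2, e3⟩ := hX.exists_functional_pair f hx hf
  obtain ⟨y2, g2, p2⟩ := h.exists_partner hY x f2
  obtain ⟨y3, g3, p3⟩ := h.exists_partner hY x (f + f2)
  -- the identity
  have hid : ∀ T' : Y →L[ℂ] Y,
      (qf T' y3 g3 - qf T' y g - qf T' y2 g2) ^ 2 = 4 * qf T' y g * qf T' y2 g2 := by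
    intro T'
    obtain ⟨T, hT⟩ := h.right T'
    rw [← h.qf_eq h1 hT, ← h.qf_eq p2 hT, ← h.qf_eq p3 hT,
      qf_of_apply_eq_zero _ _ _ hfx, qf_of_apply_eq_zero _ _ _ e1,
      qf_of_apply_eq_zero _ _ _ (by rw [add_apply, hfx, e1, add_zero]), add_apply]
    ring
  -- a test operator on the `X` side
  obtain ⟨h0, hh0⟩ := SeparatingDual.exists_eq_one (R := ℂ) hx
  obtain ⟨T', hT'⟩ := h.left (rk v h0)
  have t1 : qf T' y g = 0 := by
    rw [← h.qf_eq h1 hT', qf_of_apply_eq_zero _ _ _ hfx]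
    simp [hh0, e3]
  have t2 : qf T' y2 g2 = 1 := by
    rw [← h.qf_eq p2 hT', qf_of_apply_eq_zero _ _ _ e1]
    simp [hh0, e2]
  have hy2 : y2 ≠ 0 := by
    rintro rfl
    simp [qf] at t2
  have hg2 : g2 ≠ 0 := by
    rintro rfl
    simp [qf] at t2
  have hnp : ¬ ((∃ c : ℂ, y2 = c • y) ∧ ∃ d : ℂ, g2 = d • g) := by
    rintro ⟨⟨c, rfl⟩, d, rfl⟩
    have : qf T' (c • y) (d • g) = (c * d) ^ 2 * qf T' y g := by
      simp [qf]
      ring
    rw [this, t1, mul_zero] at t2
    exact zero_ne_one t2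
  obtain ⟨A, B, hA1, hA2, hAB⟩ := exists_test hY hgy hy2 hg2 hnp
  set β := 2 * g (A y) * g (B y) - g y * (g (A (B y)) + g (B (A y))) with hβ
  set γ := qf B y g
  set a0 := qf A y2 g2
  set a1 := 2 * g2 (A y2) * g2 (B y2) - g2 y2 * (g2 (A (B y2)) + g2 (B (A y2))) with ha1
  set a2 := qf B y2 g2
  set d0 := qf A y3 g3
  set d1 := 2 * g3 (A y3) * g3 (B y3) - g3 y3 * (g3 (A (B y3)) + g3 (B (A y3))) with hd1
  set d2 := qf B y3 g3
  have hz : ∀ z : ℂ, ((d0 + z * d1 + z ^ 2 * d2) - (z * β + z ^ 2 * γ) -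
      (a0 + z * a1 + z ^ 2 * a2)) ^ 2 = 4 * (z * β + z ^ 2 * γ) * (a0 + z * a1 + z ^ 2 * a2) := by
    intro z
    have := hid (A + z • B)
    rw [qf_add_smul, qf_add_smul, qf_add_smul, hA1, zero_add] at this
    exact this
  have h00 : d0 = a0 := by
    have := hz 0
    simp at this
    linear_combination this
  have hz' : ∀ z : ℂ, z ≠ 0 → z * ((d1 - β - a1) + z * (d2 - γ - a2)) ^ 2 -
      4 * (β + z * γ) * (a0 + z * a1 + z ^ 2 * a2) = 0 := by
    intro z hz0
    have := hz z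
    rw [h00] at this
    apply mul_left_cancel₀ hz0
    linear_combination this
  have k1 := hz' 1 one_ne_zero
  have k2 := hz' (-1) (by norm_num)
  have k3 := hz' 2 two_ne_zero
  have k4 := hz' (-2) (by norm_num)
  have : β * a0 = 0 := by
    linear_combination (-1 / 24 : ℂ) * (4 * (k1 + k2) - (k3 + k4))
  rcases mul_eq_zero.mp this with h | h
  · exact hAB h
  · exact hA2 h

/-- If the squares of the functionals agree on nilpotent rank one data, the operators agree
up to sign and scalars. -/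
theorem eq_of_sq_eq (A B : Y →L[ℂ] Y)
    (h : ∀ (y : Y) (g : StrongDual ℂ Y), g y = 0 → (g (A y)) ^ 2 = (g (B y)) ^ 2) :
    ∃ s c : ℂ, s * s = 1 ∧ A = s • B + c • 1 := by
  obtain ⟨i, c, hc⟩ := exists_scalar_of_prod_eq_zero (n := 2) ![A - B, A + B] (by
    intro y g hy
    have := h y g hy
    simp [Fin.prod_univ_two]
    have e : (g (A y) - g (B y)) * (g (A y) + g (B y)) = 0 := by linear_combination this
    rcases mul_eq_zero.mp e with h1 | h1
    · left; exact h1
    · right; exact h1)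
  fin_cases i
  · refine ⟨1, c, by norm_num, ?_⟩
    have hc' : A - B = c • 1 := hc
    linear_combination (norm := module) hc'
  · refine ⟨-1, c, by norm_num, ?_⟩
    have hc' : A + B = c • 1 := hc
    linear_combination (norm := module) hc'

/-- for nilpotent data on the `Y` side, find nilpotent data on the `X` side -/
theorem CRel.exists_partner_symm {Γ : (X →L[ℂ] X) → (Y →L[ℂ] Y) → Prop} (h : CRel Γ)
    (hX : Dim3 X) (hY : Dim3 Y) (y : Y) (g : StrongDual ℂ Y) (hgy : g y = 0) :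
    ∃ (x : X) (f : StrongDual ℂ X), f x = 0 ∧
      ∀ T T', Γ T T' → (g (T' y)) ^ 2 = (f (T x)) ^ 2 := by
  obtain ⟨x, f, p⟩ := h.symm.exists_partner hX y g
  have hfx : f x = 0 := h.symm.apply_eq_zero hY hX p hgy
  refine ⟨x, f, hfx, fun T T' hT => ?_⟩
  have := h.symm.qf_eq p hT
  rw [qf_of_apply_eq_zero _ _ _ hfx, qf_of_apply_eq_zero _ _ _ hgy] at this
  exact this

theorem CRel.smul_rel {Γ : (X →L[ℂ] X) → (Y →L[ℂ] Y) → Prop} (h : CRel Γ)
    (hX : Dim3 X) (hY : Dim3 Y) {T : X →L[ℂ] X} {T' T'' : Y →L[ℂ] Y} {a b : ℂ} (hT : Γ T T')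
    (hT'' : Γ (a • T + b • 1) T'') : ∃ s c : ℂ, s * s = 1 ∧ T'' = s • (a • T') + c • 1 := by
  apply eq_of_sq_eq
  intro y g hgy
  obtain ⟨x, f, hfx, hh⟩ := h.exists_partner_symm hX hY y g hgy
  rw [hh _ _ hT'']
  have := hh _ _ hT
  simp only [add_apply, smul_apply, one_apply_eq_self, map_add, map_smul, hfx, smul_eq_mul, mul_zero,
    add_zero]
  rw [mul_pow, mul_pow, this]

theorem CRel.inj {Γ : (X →L[ℂ] X) → (Y →L[ℂ] Y) → Prop} (h : CRel Γ)
    (hX : Dim3 X) (hY : Dim3 Y) {T S : X →L[ℂ] X} {T' S' : Y →L[ℂ] Y} {s c : ℂ} (hs : s * s = 1)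
    (hT : Γ T T') (hS : Γ S S') (he : T' = s • S' + c • 1) :
    ∃ t d : ℂ, t * t = 1 ∧ T = t • S + d • 1 := by
  apply eq_of_sq_eq
  intro x f hfx
  obtain ⟨y, g, hgy, hh⟩ := h.symm.exists_partner_symm hY hX x f hfx
  rw [hh _ _ hT, hh _ _ hS, he]
  simp only [add_apply, smul_apply, one_apply_eq_self, map_add, map_smul, hgy, smul_eq_mul, mul_zero,
    add_zero]
  linear_combination (g (S' y)) ^ 2 * hs

theorem CRel.add_rel {Γ : (X →L[ℂ] X) → (Y →L[ℂ] Y) → Prop} (h : CRel Γ)
    (hX : Dim3 X) (hY : Dim3 Y) {T1 T2 : X →L[ℂ] X} {T1' T2' T3' : Y →L[ℂ] Y} {b : ℂ}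
    (h1 : Γ T1 T1') (h2 : Γ T2 T2') (h3 : Γ (T1 + T2 + b • 1) T3') :
    ∃ s t c : ℂ, s * s = 1 ∧ t * t = 1 ∧ T3' = s • T1' + t • T2' + c • 1 := by
  obtain ⟨i, c, hc⟩ := exists_scalar_of_prod_eq_zero (n := 4)
    ![T3' - T1' - T2', T3' - T1' + T2', T3' + T1' - T2', T3' + T1' + T2'] (by
    intro y g hgy
    obtain ⟨x, f, hfx, hh⟩ := h.exists_partner_symm hX hY y g hgy
    have e1 := hh _ _ h1
    have e2 := hh _ _ h2
    have e3 := hh _ _ h3
    simp only [add_apply, smul_apply, one_apply_eq_self, map_add, map_smul, hfx, smul_eq_mul, mul_zero,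
      add_zero] at e3
    simp only [Fin.prod_univ_four, Matrix.cons_val_zero, Matrix.cons_val_one, Matrix.cons_val,
      add_apply, sub_apply, map_add, map_sub]
    set s1 := g (T1' y)
    set s2 := g (T2' y)
    set s3 := g (T3' y)
    set t1 := f (T1 x)
    set t2 := f (T2 x)
    have : (s3 ^ 2 - s1 ^ 2 - s2 ^ 2) ^ 2 - 4 * s1 ^ 2 * s2 ^ 2 = 0 := by
      rw [e1, e2, e3]; ring
    linear_combination this)
  fin_cases i
  · refine ⟨1, 1, c, by norm_num, by norm_num, ?_⟩
    have hc' : T3' - T1' - T2' = c • 1 := hc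
    linear_combination (norm := module) hc'
  · refine ⟨1, -1, c, by norm_num, by norm_num, ?_⟩
    have hc' : T3' - T1' + T2' = c • 1 := hc
    linear_combination (norm := module) hc'
  · refine ⟨-1, 1, c, by norm_num, by norm_num, ?_⟩
    have hc' : T3' + T1' - T2' = c • 1 := hc
    linear_combination (norm := module) hc'
  · refine ⟨-1, -1, c, by norm_num, by norm_num, ?_⟩
    have hc' : T3' + T1' + T2' = c • 1 := hc
    linear_combination (norm := module) hc'

end Rel

end Pool.Agent.Lib0bd5b4
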