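import Pool.Agent.Lib_0bd5b4.Forms
import Pool.Agent.Lib_0bd5b4.Hilb3
import Pool.Agent.Lib_0bd5b4.Main3

open ContinuousLinearMap Filter Topology

namespace Pool.Agent.Lib0bd5b4

variable {X : Type*} [NormedAddCommGroup X] [NormedSpace ℂ X]
  {Y : Type*} [NormedAddCommGroup Y] [NormedSpace ℂ Y]

/-- If every operator on the dual is, up to scalars, an adjoint, the space is reflexive. -/
theorem reflexive_of_surj (φ : (X →L[ℂ] X) → (Y →L[ℂ] Y)) (hφ : Function.Surjective φ)
    (A : StrongDual ℂ X ≃L[ℂ] Y) (c d : (X →L[ℂ] X) → ℂ)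
    (h : ∀ T, φ T = c T • conj A (adj T) + d T • 1) (ξ : StrongDual ℂ (StrongDual ℂ X)) :
    ∃ x : X, ∀ f, ξ f = f x := by
  by_cases hX : ∃ x0 : X, x0 ≠ 0
  · obtain ⟨x0, hx0⟩ := hX
    obtain ⟨f0, hf0⟩ := SeparatingDual.exists_eq_one (R := ℂ) hx0
    obtain ⟨T, hT⟩ := hφ (conj A (ξ.smulRight f0))
    refine ⟨c T • T x0 + d T • x0, fun f => ?_⟩
    rw [h T] at hT
    have e := congrArg (fun L : Y →L[ℂ] Y => A.symm (L (A f)) x0) hT
    simp only [conj_apply, add_apply, smul_apply, one_apply_eq_self, map_add, map_smul,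
      ContinuousLinearEquiv.symm_apply_apply, ContinuousLinearMap.smulRight_apply, adj_apply, hf0,
      smul_eq_mul, mul_one] at e
    rw [← e, map_add, map_smul, map_smul]
    rfl
  · push Not at hX
    refine ⟨0, fun f => ?_⟩
    have : f = 0 := by
      ext x
      rw [hX x, map_zero, map_zero]
    rw [this, map_zero]
    rfl

end Pool.Agent.Lib0bd5b4
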