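import Pool.Agent.Lib_0bd5b4.RankOne

open ContinuousLinearMap

namespace Pool.Agent.Lib0bd5b4

section quotient

variable (X : Type*) [NormedAddCommGroup X] [NormedSpace ℂ X]

/-- Operators modulo scalars. -/
abbrev Qt := (X →L[ℂ] X) ⧸ Submodule.span ℂ {(1 : X →L[ℂ] X)}

variable {X}

/-- class modulo scalars -/
def cl : (X →L[ℂ] X) →ₗ[ℂ] Qt X := Submodule.mkQ _

theorem cl_surjective : Function.Surjective (cl (X := X)) := Submodule.mkQ_surjective _

theorem cl_eq_iff {T S : X →L[ℂ] X} : cl T = cl S ↔ ∃ c : ℂ, T = S + c • 1 := by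
  unfold cl
  rw [Submodule.mkQ_apply, Submodule.mkQ_apply, Submodule.Quotient.eq, Submodule.mem_span_singleton]
  constructor
  · rintro ⟨c, hc⟩
    exact ⟨c, by rw [hc]; abel⟩
  · rintro ⟨c, hc⟩
    exact ⟨c, by rw [hc]; abel⟩

theorem cl_smul_one (c : ℂ) : cl (c • (1 : X →L[ℂ] X)) = 0 := by
  have : cl (c • (1 : X →L[ℂ] X)) = cl (0 : X →L[ℂ] X) := cl_eq_iff.mpr ⟨c, by rw [zero_add]⟩
  rw [this, map_zero]

theorem cl_one : cl (1 : X →L[ℂ] X) = 0 := by
  simpa using cl_smul_one (X := X) 1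

theorem not_mem_span_pair_of_li3 {V : Type*} [AddCommGroup V] [Module ℂ V] {e1 e2 e3 : V}
    (h : LI3 e1 e2 e3) (a b : V) : ∃ c, c ∉ Submodule.span ℂ {a, b} := by
  by_contra hcon
  push Not at hcon
  have hli : LinearIndependent ℂ (![⟨e1, hcon e1⟩, ⟨e2, hcon e2⟩, ⟨e3, hcon e3⟩] :
      Fin 3 → Submodule.span ℂ ({a, b} : Set V)) := by
    rw [Fintype.linearIndependent_iff]
    intro g hg
    simp [Fin.sum_univ_three] at hg
    obtain ⟨h0, h1, h2⟩ := h _ _ _ hg
    intro i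
    fin_cases i
    · exact h0
    · exact h1
    · exact h2
  have : FiniteDimensional ℂ (Submodule.span ℂ ({a, b} : Set V)) :=
    FiniteDimensional.span_of_finite ℂ (Set.toFinite _)
  have h1 := hli.fintype_card_le_finrank
  have h2 : Module.finrank ℂ (Submodule.span ℂ ({a, b} : Set V)) ≤ 2 := by
    classical
    have := finrank_span_finset_le_card (R := ℂ) ({a, b} : Finset V)
    rw [Finset.coe_pair] at this
    exact this.trans (Finset.card_le_two)
  simp at h1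
  omega

theorem Dim3.exists_li3 {V : Type*} [AddCommGroup V] [Module ℂ V] (h : Dim3 V) :
    ∃ v1 v2 v3 : V, LI3 v1 v2 v3 := by
  obtain ⟨v1, h1⟩ := h 0 0
  obtain ⟨v2, h2⟩ := h v1 v1
  obtain ⟨v3, h3⟩ := h v1 v2
  have hv1 : v1 ≠ 0 := by
    rintro rfl
    exact h1 (Submodule.zero_mem _)
  have : LI2 v1 v2 := by
    by_contra hcon
    obtain ⟨c, rfl⟩ := not_li2 hv1 hcon
    exact h2 (Submodule.smul_mem _ _ (Submodule.subset_span (by simp)))
  exact ⟨v1, v2, v3, li3_of_not_mem this h3⟩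

theorem Dim3.qt (h : Dim3 X) : Dim3 (Qt X) := by
  obtain ⟨x1, x2, x3, hx⟩ := h.exists_li3
  obtain ⟨f2, hf2⟩ := exists_functional _ hx.linearIndependent ![0, 1, 0]
  obtain ⟨f3, hf3⟩ := exists_functional _ hx.linearIndependent ![0, 0, 1]
  have a0 := hf2 0
  have a1 := hf2 1
  have a2 := hf2 2
  have b0 := hf3 0
  have b1 := hf3 1
  have b2 := hf3 2
  simp at a0 a1 a2 b0 b1 b2
  apply not_mem_span_pair_of_li3 (e1 := cl (rk x1 f2)) (e2 := cl (rk x1 f3)) (e3 := cl (rk x2 f3))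
  intro a b c habc
  rw [← map_smul, ← map_smul, ← map_smul, ← map_add, ← map_add, ← map_zero cl, cl_eq_iff] at habc
  obtain ⟨d, hd⟩ := habc
  have e1 := congrArg (fun L : X →L[ℂ] X => L x1) hd
  have e2 := congrArg (fun L : X →L[ℂ] X => L x2) hd
  have e3 := congrArg (fun L : X →L[ℂ] X => L x3) hd
  simp [a0, a1, a2, b0, b1, b2] at e1 e2 e3
  have hx1 : x1 ≠ 0 := by
    rintro rfl
    exact one_ne_zero (hx 1 0 0 (by simp)).1
  have hd0 : d = 0 := (smul_eq_zero.mp e1.symm).resolve_right hx1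
  rw [hd0, zero_smul] at e2 e3
  have := hx b c 0 (by rw [zero_smul, add_zero]; exact e3)
  exact ⟨(smul_eq_zero.mp e2).resolve_right hx1, this.1, this.2.1⟩

end quotient

section lin

variable {X : Type*} [NormedAddCommGroup X] [NormedSpace ℂ X]
  {Y : Type*} [NormedAddCommGroup Y] [NormedSpace ℂ Y]

theorem CRel.exists_equiv {Γ : (X →L[ℂ] X) → (Y →L[ℂ] Y) → Prop} (h : CRel Γ)
    (hX : Dim3 X) (hY : Dim3 Y) :
    ∃ ψ : Qt X ≃ₗ[ℂ] Qt Y, ∀ T T', Γ T T' → ∃ s : ℂ, s * s = 1 ∧ cl T' = s • ψ (cl T) := by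
  choose out hout using cl_surjective (X := X)
  choose par hpar using h.left
  set F : Qt X → Qt Y := fun v => cl (par (out v)) with hFdef
  have hF : SignMap F := by
    refine ⟨?_, ?_, ?_, ?_⟩
    · intro v w
      obtain ⟨b, hb⟩ : ∃ b : ℂ, out (v + w) = out v + out w + b • 1 := by
        apply cl_eq_iff.mp
        rw [map_add, hout, hout, hout]
      obtain ⟨s, t, c, hs, ht, e⟩ := h.add_rel hX hY (hpar (out v)) (hpar (out w))
        (T3' := par (out (v + w))) (b := b) (by rw [← hb]; exact hpar _)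
      refine ⟨s, t, hs, ht, ?_⟩
      simp only [hFdef]
      rw [e, map_add, map_add, cl_smul_one, add_zero, map_smul, map_smul]
    · intro a v
      obtain ⟨b, hb⟩ : ∃ b : ℂ, out (a • v) = a • out v + b • 1 := by
        apply cl_eq_iff.mp
        rw [map_smul, hout, hout]
      obtain ⟨s, c, hs, e⟩ := h.smul_rel hX hY (hpar (out v)) (T'' := par (out (a • v)))
        (a := a) (b := b) (by rw [← hb]; exact hpar _)
      refine ⟨s, hs, ?_⟩
      simp only [hFdef]
      rw [e, map_add, cl_smul_one, add_zero, map_smul, map_smul]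
    · intro v w s hs hvw
      simp only [hFdef] at hvw
      rw [← map_smul, cl_eq_iff] at hvw
      obtain ⟨c, hc⟩ := hvw
      obtain ⟨t, d, ht, e⟩ := h.inj hX hY hs (hpar (out v)) (hpar (out w)) hc
      refine ⟨t, ht, ?_⟩
      have := congrArg cl e
      rw [map_add, cl_smul_one, add_zero, map_smul, hout, hout] at this
      exact this
    · exact hX.qt
  obtain ⟨ψ, hψ⟩ := hF.exists_linear
  have key : ∀ T T', Γ T T' → ∃ s : ℂ, s * s = 1 ∧ cl T' = s • ψ (cl T) := by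
    intro T T' hT
    obtain ⟨b, hb⟩ : ∃ b : ℂ, out (cl T) = (1 : ℂ) • T + b • 1 := by
      apply cl_eq_iff.mp
      rw [one_smul, hout]
    obtain ⟨s, c, hs, e⟩ := h.smul_rel hX hY hT (T'' := par (out (cl T)))
      (a := 1) (b := b) (by rw [← hb]; exact hpar _)
    obtain ⟨t, ht, e2⟩ := hψ (cl T)
    refine ⟨s * t, sign_mul hs ht, ?_⟩
    have e3 : F (cl T) = s • cl T' := by
      simp only [hFdef]
      rw [e, map_add, cl_smul_one, add_zero, map_smul, one_smul]
    rw [e3] at e2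
    have e4 := sign_swap hs e2.symm
    rw [e4, smul_smul]
  have hinj : Function.Injective ψ := by
    rw [injective_iff_map_eq_zero]
    intro v hv
    obtain ⟨s, hs, e⟩ := hψ v
    rw [hv, smul_zero] at e
    exact hF.eq_zero e
  have hsurj : Function.Surjective ψ := by
    intro w
    obtain ⟨T', rfl⟩ := cl_surjective w
    obtain ⟨T, hT⟩ := h.right T'
    obtain ⟨s, hs, e⟩ := key T T' hT
    exact ⟨s • cl T, by rw [map_smul, e]⟩
  exact ⟨LinearEquiv.ofBijective ψ ⟨hinj, hsurj⟩, key⟩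

/-- The properties of the linearised map on rank one classes. -/
structure RkEquiv (ψ : Qt X ≃ₗ[ℂ] Qt Y) : Prop where
  fwd : ∀ x f, ∃ y g, ψ (cl (rk x f)) = cl (rk y g)
  bwd : ∀ y g, ∃ x f, ψ (cl (rk x f)) = cl (rk y g)
  nil : ∀ x f y g, ψ (cl (rk x f)) = cl (rk y g) → (f x = 0 ↔ g y = 0)

theorem smul_rk (c : ℂ) (x : X) (f : StrongDual ℂ X) : c • rk x f = rk (c • x) f := by
  ext z
  simp [smul_smul, mul_comm]

theorem rk_smul (c : ℂ) (x : X) (f : StrongDual ℂ X) : rk x (c • f) = c • rk x f := by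
  ext z
  simp [smul_smul]

theorem rk_add (x : X) (f g : StrongDual ℂ X) : rk x (f + g) = rk x f + rk x g := by
  ext z
  simp [add_smul]

theorem add_rk (x y : X) (f : StrongDual ℂ X) : rk (x + y) f = rk x f + rk y f := by
  ext z
  simp

theorem CRel.rkEquiv {Γ : (X →L[ℂ] X) → (Y →L[ℂ] Y) → Prop} (h : CRel Γ)
    (hX : Dim3 X) (hY : Dim3 Y) {ψ : Qt X ≃ₗ[ℂ] Qt Y}
    (hψ : ∀ T T', Γ T T' → ∃ s : ℂ, s * s = 1 ∧ cl T' = s • ψ (cl T)) : RkEquiv ψ := by
  have hG : ∀ x f y g, ψ (cl (rk x f)) = cl (rk y g) →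
      ∃ s : ℂ, s * s = 1 ∧ G1 Γ x f (s • y) g := by
    intro x f y g hxy
    obtain ⟨T', hT'⟩ := h.left (rk x f)
    obtain ⟨s, hs, e⟩ := hψ _ _ hT'
    rw [hxy, ← map_smul, cl_eq_iff] at e
    obtain ⟨c, hc⟩ := e
    refine ⟨s, hs, 0, c, ?_⟩
    rw [zero_smul, zero_add, ← smul_rk, add_comm, ← hc]
    exact hT'
  refine ⟨?_, ?_, ?_⟩
  · intro x f
    obtain ⟨T', hT'⟩ := h.left (rk x f)
    have h2 : Lib0bd5b4.P2 (rk x f) := by simpa using P2_of_rk 0 x f
    obtain ⟨c, y, g, rfl⟩ := (h.P2 hT' h2).exists_rk hY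
    obtain ⟨s, hs, e⟩ := hψ _ _ hT'
    have e2 := sign_swap hs e
    rw [map_add, cl_smul_one, zero_add, ← map_smul, smul_rk] at e2
    exact ⟨_, _, e2⟩
  · intro y g
    obtain ⟨T, hT⟩ := h.right (rk y g)
    have h2 : Lib0bd5b4.P2 (rk y g) := by simpa using P2_of_rk 0 y g
    obtain ⟨c, x, f, rfl⟩ := (h.symm.P2 hT h2).exists_rk hX
    obtain ⟨s, hs, e⟩ := hψ _ _ hT
    rw [map_add, cl_smul_one, zero_add, ← map_smul, ← map_smul, smul_rk] at e
    exact ⟨_, _, e.symm⟩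
  · intro x f y g hxy
    obtain ⟨s, hs, hh⟩ := hG x f y g hxy
    have hs0 := sign_ne_zero hs
    constructor
    · intro hfx
      have := h.apply_eq_zero hX hY hh hfx
      rw [map_smul, smul_eq_mul] at this
      exact (mul_eq_zero.mp this).resolve_left hs0
    · intro hgy
      obtain ⟨c, c', hh⟩ := hh
      exact h.symm.apply_eq_zero hY hX (x := s • y) (f := g) (y := x) (g := f) ⟨c', c, hh⟩
        (by rw [map_smul, hgy, smul_zero])

end lin

end Pool.Agent.Lib0bd5b4
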