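import Pool.Agent.Lib_0bd5b4.Struct

open ContinuousLinearMap

namespace Pool.Agent.Lib0bd5b4

section rk

variable {Y : Type*} [NormedAddCommGroup Y] [NormedSpace ℂ Y]

theorem Dim3.exists_ne_zero_ker (h : Dim3 Y) (g1 g2 : StrongDual ℂ Y) :
    ∃ v : Y, v ≠ 0 ∧ g1 v = 0 ∧ g2 v = 0 := by
  obtain ⟨v1, v2, v3, hv⟩ := h.exists_li3
  -- solve two homogeneous equations in three unknowns
  by_cases h1 : g1 v1 = 0
  · by_cases h2 : g2 v1 = 0
    · exact ⟨v1, fun h0 => one_ne_zero (hv 1 0 0 (by rw [h0]; simp)).1, h1, h2⟩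
    · -- eliminate with `g2 v1`
      by_cases h3 : g1 v2 = 0
      · refine ⟨g2 v1 • v2 - g2 v2 • v1, ?_, ?_, ?_⟩
        · intro h0
          have := hv (-g2 v2) (g2 v1) 0 (by rw [← h0]; module)
          exact h2 this.2.1
        · simp [h1, h3]
        · simp; ring
      · refine ⟨(g1 v3 * g2 v2 - g1 v2 * g2 v3) • v1 + (-(g1 v3 * g2 v1)) • v2 +
          (g1 v2 * g2 v1) • v3, ?_, ?_, ?_⟩
        · intro h0
          have := hv _ _ _ h0
          exact (mul_ne_zero h3 h2) this.2.2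
        · simp [h1]; ring
        · simp; ring
  · by_cases h3 : g1 v1 * g2 v2 - g1 v2 * g2 v1 = 0
    · refine ⟨g1 v1 • v2 - g1 v2 • v1, ?_, ?_, ?_⟩
      · intro h0
        have := hv (-g1 v2) (g1 v1) 0 (by rw [← h0]; module)
        exact h1 this.2.1
      · simp; ring
      · simp
        linear_combination h3
    · refine ⟨(g1 v2 * g2 v3 - g1 v3 * g2 v2) • v1 + (g1 v3 * g2 v1 - g1 v1 * g2 v3) • v2 +
          (g1 v1 * g2 v2 - g1 v2 * g2 v1) • v3, ?_, ?_, ?_⟩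
      · intro h0
        have := hv _ _ _ h0
        exact h3 this.2.2
      · simp; ring
      · simp; ring

theorem tri_aux (h : Dim3 Y) {y1 y2 y3 : Y} {g1 g2 g3 : StrongDual ℂ Y} {c : ℂ}
    (he : rk y1 g1 + rk y2 g2 + rk y3 g3 = c • 1) (h3 : g3 y3 = 0) : c = 0 := by
  obtain ⟨v, hv, e1, e2⟩ := h.exists_ne_zero_ker g1 g2
  have := congrArg (fun L : Y →L[ℂ] Y => L v) he
  simp [e1, e2] at this
  have h4 := congrArg g3 this
  rw [map_smul, map_smul, h3, smul_zero, smul_eq_mul] at h4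
  by_contra hc
  have h5 := (mul_eq_zero.mp h4.symm).resolve_left hc
  rw [h5, zero_smul] at this
  exact hv ((smul_eq_zero.mp this.symm).resolve_left hc)

theorem tri (h : Dim3 Y) {y1 y2 y3 : Y} {g1 g2 g3 : StrongDual ℂ Y}
    (he : cl (rk y1 g1) + cl (rk y2 g2) = cl (rk y3 g3))
    (h3 : g1 y1 = 0 ∨ g2 y2 = 0 ∨ g3 y3 = 0) : rk y1 g1 + rk y2 g2 = rk y3 g3 := by
  rw [← map_add, cl_eq_iff] at he
  obtain ⟨c, hc⟩ := he
  have hneg : rk (-y3) g3 = -rk y3 g3 := by ext; simp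
  have hc0 : c = 0 := by
    rcases h3 with h3 | h3 | h3
    · refine tri_aux h (y1 := y2) (g1 := g2) (y2 := -y3) (g2 := g3) (y3 := y1) (g3 := g1) ?_ h3
      rw [hneg]
      linear_combination (norm := module) hc
    · refine tri_aux h (y1 := y1) (g1 := g1) (y2 := -y3) (g2 := g3) (y3 := y2) (g3 := g2) ?_ h3
      rw [hneg]
      linear_combination (norm := module) hc
    · refine tri_aux h (y1 := y1) (g1 := g1) (y2 := y2) (g2 := g2) (y3 := -y3) (g3 := g3) ?_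
        (by rw [map_neg, h3, neg_zero])
      rw [hneg]
      linear_combination (norm := module) hc
  rw [hc, hc0, zero_smul, add_zero]

theorem rk_unique (h : Dim3 Y) {y1 y2 : Y} {g1 g2 : StrongDual ℂ Y}
    (he : cl (rk y1 g1) = cl (rk y2 g2)) : rk y1 g1 = rk y2 g2 := by
  have h0 : rk (0 : Y) (0 : StrongDual ℂ Y) = 0 := by ext; simp
  have := tri h (y1 := y1) (g1 := g1) (y2 := 0) (g2 := 0) (y3 := y2) (g3 := g2)
    (by rw [h0, map_zero, add_zero, he]) (Or.inr (Or.inl (by simp)))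
  rwa [h0, add_zero] at this

theorem rk_eq_zero {y : Y} {g : StrongDual ℂ Y} (h : rk y g = 0) : y = 0 ∨ g = 0 := by
  by_contra hcon
  push Not at hcon
  apply hcon.2
  ext v
  have := congrArg (fun L : Y →L[ℂ] Y => L v) h
  simp at this
  exact this.resolve_right hcon.1

/-- A sum of two rank ones with independent vectors and independent functionals is not
rank one. -/
theorem rk_add_ne {y1 y2 : Y} {g1 g2 : StrongDual ℂ Y} (hy : LI2 y1 y2) {v w : Y}
    (hv1 : g1 v ≠ 0) (hv2 : g2 v = 0) (hw1 : g1 w = 0) (hw2 : g2 w ≠ 0) {y3 : Y}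
    {g3 : StrongDual ℂ Y} (he : rk y1 g1 + rk y2 g2 = rk y3 g3) : False := by
  have e1 := congrArg (fun L : Y →L[ℂ] Y => L v) he
  have e2 := congrArg (fun L : Y →L[ℂ] Y => L w) he
  simp [hv2, hw1] at e1 e2
  have := hy (g1 v * g3 w) (-(g2 w * g3 v)) (by
    have : (g1 v * g3 w) • y1 + (-(g2 w * g3 v)) • y2 =
      g3 w • (g1 v • y1) - g3 v • (g2 w • y2) := by module
    rw [this, e1, e2]
    module)
  have h3 : g3 w = 0 := (mul_eq_zero.mp this.1).resolve_left hv1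
  rw [h3, zero_smul] at e2
  exact hy.ne_zero_right ((smul_eq_zero.mp e2).resolve_left hw2)

theorem zero_smul_dual (g : StrongDual ℂ Y) : (0 : ℂ) • g = 0 := by
  ext v
  simp

theorem exists_dual_pair {g1 g2 : StrongDual ℂ Y} (hg1 : g1 ≠ 0) (h : ∀ c : ℂ, g2 ≠ c • g1) :
    ∃ w, g1 w = 0 ∧ g2 w ≠ 0 := by
  obtain ⟨v, hv⟩ : ∃ v, g1 v ≠ 0 := by
    by_contra hcon
    push Not at hcon
    exact hg1 (ContinuousLinearMap.ext hcon)
  by_contra hcon
  push Not at hcon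
  apply h (g2 v / g1 v)
  ext u
  have := hcon (u - (g1 u / g1 v) • v) (by
    rw [map_sub, map_smul, smul_eq_mul, div_mul_cancel₀ _ hv, sub_self])
  rw [map_sub, map_smul, smul_eq_mul, sub_eq_zero] at this
  rw [this, smul_apply, smul_eq_mul]
  ring

/-- In a sum of two rank ones that is rank one, vectors or functionals are dependent. -/
theorem rk_add_cases {y1 y2 y3 : Y} {g1 g2 g3 : StrongDual ℂ Y} (hy1 : y1 ≠ 0) (hg1 : g1 ≠ 0)
    (he : rk y1 g1 + rk y2 g2 = rk y3 g3) : (∃ c : ℂ, y2 = c • y1) ∨ ∃ c : ℂ, g2 = c • g1 := by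
  by_contra hcon
  push Not at hcon
  obtain ⟨hy, hg⟩ := hcon
  obtain ⟨w, hw1, hw2⟩ := exists_dual_pair hg1 hg
  have hg2 : g2 ≠ 0 := by
    rintro rfl
    exact hg 0 (zero_smul_dual _).symm
  obtain ⟨v, hv1, hv2⟩ := exists_dual_pair (g1 := g2) (g2 := g1) hg2 (by
    intro c hc
    have hc0 : c ≠ 0 := by
      rintro rfl
      rw [zero_smul_dual] at hc
      exact hg1 hc
    apply hg c⁻¹
    rw [hc, smul_smul, inv_mul_cancel₀ hc0, one_smul])
  exact rk_add_ne (li2_of_forall_ne hy1 hy) hv2 hv1 hw1 hw2 he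

/-- Linear spaces of rank one operators. -/
theorem rank_one_space {E : Type*} [AddCommGroup E] [Module ℂ E] (L : E →ₗ[ℂ] (Y →L[ℂ] Y))
    (hL : ∀ e, ∃ y g, L e = rk y g) :
    (∃ y, ∀ e, ∃ g, L e = rk y g) ∨ (∃ g, ∀ e, ∃ y, L e = rk y g) := by
  by_cases h0 : ∀ e, L e = 0
  · left
    exact ⟨0, fun e => ⟨0, by rw [h0]; ext; simp⟩⟩
  push Not at h0
  obtain ⟨e1, he1⟩ := h0
  obtain ⟨y1, g1, h1⟩ := hL e1
  have hy1 : y1 ≠ 0 := by
    rintro rfl
    apply he1
    rw [h1]; ext; simp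
  have hg1 : g1 ≠ 0 := by
    rintro rfl
    apply he1
    rw [h1]; ext; simp
  by_cases hall : ∀ e, ∃ g, L e = rk y1 g
  · left
    exact ⟨y1, hall⟩
  right
  push Not at hall
  obtain ⟨e2, he2⟩ := hall
  obtain ⟨y2, g2, h2⟩ := hL e2
  have hy2 : ∀ c : ℂ, y2 ≠ c • y1 := by
    rintro c rfl
    apply he2 (c • g1 - c • g1 + c • g2)
    rw [h2]
    ext v
    simp [smul_smul, mul_comm]
  obtain ⟨y3, g3, h3⟩ := hL (e1 + e2)
  rw [map_add, h1, h2] at h3
  obtain ⟨c, hc⟩ := (rk_add_cases hy1 hg1 h3).resolve_left (by push Not; exact hy2)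
  have hc0 : c ≠ 0 := by
    rintro rfl
    rw [zero_smul_dual] at hc
    apply he2 0
    rw [h2, hc]
    ext v; simp
  have hy20 : y2 ≠ 0 := by
    rintro rfl
    exact hy2 0 (by simp)
  refine ⟨g1, fun e => ?_⟩
  obtain ⟨y, g, h4⟩ := hL e
  by_cases hpar : ∃ a : ℂ, y = a • y1
  · obtain ⟨a, rfl⟩ := hpar
    by_cases ha : a = 0
    · subst ha
      exact ⟨0, by rw [h4]; ext; simp⟩
    · -- compare with `e2`
      obtain ⟨y5, g5, h5⟩ := hL (e2 + e)
      rw [map_add, h2, h4] at h5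
      have hg2 : g2 ≠ 0 := by rw [hc]; exact smul_ne_zero hc0 hg1
      rcases rk_add_cases hy20 hg2 h5 with ⟨b, hb⟩ | ⟨b, hb⟩
      · exfalso
        have hb0 : b ≠ 0 := by
          rintro rfl
          rw [zero_smul] at hb
          exact hy1 ((smul_eq_zero.mp hb).resolve_left ha)
        apply hy2 (b⁻¹ * a)
        rw [mul_smul, hb, smul_smul, inv_mul_cancel₀ hb0, one_smul]
      · refine ⟨(b * c) • (a • y1), ?_⟩
        rw [h4, hb, hc, smul_smul, rk_smul, smul_rk]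
  · push Not at hpar
    obtain ⟨y5, g5, h5⟩ := hL (e1 + e)
    rw [map_add, h1, h4] at h5
    obtain ⟨b, hb⟩ := (rk_add_cases hy1 hg1 h5).resolve_left (by push Not; exact hpar)
    refine ⟨b • y, ?_⟩
    rw [h4, hb, rk_smul, smul_rk]

/-- Tensor factorisation. -/
theorem tensor_factor {E F : Type*} [AddCommGroup E] [Module ℂ E] [AddCommGroup F] [Module ℂ F]
    (Ψ : E →ₗ[ℂ] F →ₗ[ℂ] (Y →L[ℂ] Y)) (hinj : ∀ e f, Ψ e f = 0 → e = 0 ∨ f = 0)
    (hE : ∀ e : E, e ≠ 0 → ∃ y, ∀ f, ∃ g, Ψ e f = rk y g)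
    (hF : ∀ f : F, f ≠ 0 → ∃ g, ∀ e, ∃ y, Ψ e f = rk y g)
    (hE0 : ∃ e : E, e ≠ 0) (hF0 : ∃ f : F, f ≠ 0) :
    ∃ (A : E →ₗ[ℂ] Y) (C : F →ₗ[ℂ] StrongDual ℂ Y), ∀ e f, Ψ e f = rk (A e) (C f) := by
  obtain ⟨e1, he1⟩ := hE0
  obtain ⟨f1, hf1⟩ := hF0
  obtain ⟨g1, hg1⟩ := hF f1 hf1
  have hg1ne : g1 ≠ 0 := by
    rintro rfl
    obtain ⟨y, hy⟩ := hg1 e1
    have : Ψ e1 f1 = 0 := by rw [hy]; ext; simp
    rcases hinj _ _ this with h | h
    · exact he1 h
    · exact hf1 h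
  obtain ⟨v1, hv1⟩ : ∃ v1, g1 v1 = 1 := by
    obtain ⟨v, hv⟩ : ∃ v, g1 v ≠ 0 := by
      by_contra hcon
      push Not at hcon
      exact hg1ne (ContinuousLinearMap.ext hcon)
    exact ⟨(g1 v)⁻¹ • v, by rw [map_smul, smul_eq_mul, inv_mul_cancel₀ hv]⟩
  let A : E →ₗ[ℂ] Y :=
    { toFun := fun e => Ψ e f1 v1
      map_add' := fun e e' => by simp
      map_smul' := fun c e => by simp }
  have hA : ∀ e, Ψ e f1 = rk (A e) g1 := by
    intro e
    obtain ⟨y, hy⟩ := hg1 e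
    have : A e = y := by
      change Ψ e f1 v1 = y
      rw [hy]
      simp [hv1]
    rw [this, hy]
  have hAinj : ∀ e, A e = 0 → e = 0 := by
    intro e he
    have : Ψ e f1 = 0 := by rw [hA, he]; ext; simp
    exact (hinj _ _ this).resolve_right hf1
  have hAe1 : A e1 ≠ 0 := fun h => he1 (hAinj _ h)
  -- for each `e`, `Ψ e f = rk (A e) (..)`
  have hc : ∀ e, ∀ f, ∃ c, Ψ e f = rk (A e) c := by
    intro e f
    by_cases he : e = 0
    · refine ⟨0, ?_⟩
      rw [he]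
      simp
    obtain ⟨y, hy⟩ := hE e he
    obtain ⟨g0, hg0⟩ := hy f1
    obtain ⟨g, hg⟩ := hy f
    have e2 := hA e
    rw [hg0] at e2
    have e3 := congrArg (fun L : Y →L[ℂ] Y => L v1) e2
    simp [hv1] at e3
    -- `A e = g0 v1 • y`
    have hAe : A e ≠ 0 := fun h => he (hAinj _ h)
    have hg0v : g0 v1 ≠ 0 := by
      intro h
      rw [h, zero_smul] at e3
      exact hAe e3.symm
    refine ⟨(g0 v1)⁻¹ • g, ?_⟩
    rw [hg, ← e3, rk_smul, smul_rk, smul_smul, inv_mul_cancel₀ hg0v, one_smul]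
  obtain ⟨h, hh⟩ := SeparatingDual.exists_eq_one (R := ℂ) hAe1
  let C : F →ₗ[ℂ] StrongDual ℂ Y :=
    { toFun := fun f => h.comp (Ψ e1 f)
      map_add' := fun f f' => by ext; simp
      map_smul' := fun c f => by ext; simp }
  have hC : ∀ f, Ψ e1 f = rk (A e1) (C f) := by
    intro f
    obtain ⟨c, hc⟩ := hc e1 f
    have : C f = c := by
      ext v
      change h (Ψ e1 f v) = c v
      rw [hc]
      simp [hh]
    rw [this, hc]
  refine ⟨A, C, fun e f => ?_⟩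
  by_cases hpar : ∃ a : ℂ, A e = a • A e1
  · obtain ⟨a, ha⟩ := hpar
    have : e = a • e1 := by
      have := hAinj (e - a • e1) (by rw [map_sub, map_smul, ha, sub_self])
      exact sub_eq_zero.mp this
    rw [this, map_smul, LinearMap.smul_apply, hC, map_smul, smul_rk]
  · push Not at hpar
    have hli : LI2 (A e1) (A e) := li2_of_forall_ne hAe1 hpar
    obtain ⟨c, hc1⟩ := hc e f
    obtain ⟨c', hc2⟩ := hc (e1 + e) f
    rw [map_add, LinearMap.add_apply, hC, hc1, map_add] at hc2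
    have hcc : c = C f := by
      ext v
      have e2 := congrArg (fun L : Y →L[ℂ] Y => L v) hc2
      simp at e2
      have := hli (C f v - c' v) (c v - c' v) (by linear_combination (norm := module) e2)
      linear_combination this.2 - this.1
    rw [hc1, hcc]

end rk

end Pool.Agent.Lib0bd5b4
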